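import Pool.Agent.Lib_MP_0bab5c_co.LowDeg

/-! # Circulant graphs -/

namespace Pool.Agent.LC0bab

open Finset
open scoped Classical

/-- The `2j`-regular circulant graph on `ZMod n`. -/
def circ (n j : ℕ) : SimpleGraph (ZMod n) where
  Adj a b := a ≠ b ∧ ∃ i : ℕ, i ≤ j ∧ (b = a + i ∨ a = b + i)
  symm := ⟨by
    rintro a b ⟨h, i, hi, h1 | h1⟩
    · exact ⟨h.symm, i, hi, Or.inr h1⟩
    · exact ⟨h.symm, i, hi, Or.inl h1⟩⟩
  loopless := ⟨fun a h => h.1 rfl⟩

section

variable {n j : ℕ}

lemma natCast_inj {a b : ℕ} (ha : a < n) (hb : b < n) (h : (a : ZMod n) = b) : a = b := by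
  have := (ZMod.natCast_eq_natCast_iff' a b n).1 h
  rwa [Nat.mod_eq_of_lt ha, Nat.mod_eq_of_lt hb] at this

lemma circ_adj_cast {a b : ℕ} (hab : a < b) (hbj : b ≤ a + j) (hb : b < n) :
    (circ n j).Adj (a : ZMod n) b := by
  refine ⟨fun h => ?_, b - a, by omega, Or.inl ?_⟩
  · have := natCast_inj (by omega) hb h
    omega
  · rw [Nat.cast_sub hab.le]; ring

lemma circ_adj_neg {a b : ZMod n} (h : (circ n j).Adj a b) : (circ n j).Adj (-a) (-b) := by
  obtain ⟨h1, i, hi, h2⟩ := h
  refine ⟨fun hh => h1 (neg_injective hh), i, hi, ?_⟩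
  rcases h2 with h2 | h2
  · right; rw [h2]; ring
  · left; rw [h2]; ring

/-- Neighbourhoods in the circulant graph. -/
lemma circ_nbhd [NeZero n] (a : ZMod n) :
    univ.filter ((circ n j).Adj a) =
      (((Icc (-(j : ℤ)) j).image (fun i : ℤ => a + (i : ZMod n)))).erase a := by
  ext b
  simp only [mem_filter, mem_univ, true_and, mem_erase, mem_image, mem_Icc]
  constructor
  · rintro ⟨h, i, hi, h1 | h1⟩
    · refine ⟨h.symm, (i : ℤ), ⟨by omega, by exact_mod_cast hi⟩, ?_⟩
      rw [h1]; push_cast; ring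
    · refine ⟨h.symm, -(i : ℤ), ⟨by omega, by omega⟩, ?_⟩
      rw [h1]; push_cast; ring
  · rintro ⟨h, i, ⟨hi1, hi2⟩, h1⟩
    refine ⟨h.symm, i.natAbs, by omega, ?_⟩
    rcases le_total 0 i with h0 | h0
    · left
      rw [← h1]
      congr 1
      have : (i.natAbs : ℤ) = i := Int.natAbs_of_nonneg h0
      rw [← Int.cast_natCast (R := ZMod n) i.natAbs, this]
    · right
      rw [← h1]
      have h2 : ((i.natAbs : ℕ) : ZMod n) = -(i : ZMod n) := by
        rw [← Int.cast_natCast (R := ZMod n) i.natAbs, Int.ofNat_natAbs_of_nonpos h0, Int.cast_neg]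
      rw [h2]; ring

lemma circ_deg [NeZero n] (hn : 2 * j + 1 ≤ n) (a : ZMod n) :
    (univ.filter ((circ n j).Adj a)).card = 2 * j := by
  rw [circ_nbhd, card_erase_of_mem, card_image_of_injOn, Int.card_Icc]
  · omega
  · intro x hx y hy hxy
    rw [mem_coe, mem_Icc] at hx hy
    have h1 : (x : ZMod n) = (y : ZMod n) := by
      have : a + (x : ZMod n) = a + (y : ZMod n) := hxy
      exact add_left_cancel this
    rw [ZMod.intCast_eq_intCast_iff_dvd_sub] at h1
    by_contra hne
    have h2 : (n : ℤ) ≤ |y - x| := by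
      have := Int.le_of_dvd (by
        rw [abs_pos]; omega : (0 : ℤ) < |y - x|) ((dvd_abs _ _).2 h1)
      exact this
    have h3 : |y - x| ≤ 2 * (j : ℤ) := by
      rw [abs_le]; constructor <;> linarith
    have h4 : (2 * (j : ℤ) + 1) ≤ n := by exact_mod_cast hn
    linarith
  · rw [mem_image]
    exact ⟨0, by rw [mem_Icc]; constructor <;> omega, by simp⟩

lemma circ_e2 [NeZero n] (hn : 2 * j + 1 ≤ n) : e2 (circ n j) univ = 2 * j * n := by
  unfold e2 ee
  have : ∀ v ∈ (univ : Finset (ZMod n)), (nb (circ n j) univ v).card = 2 * j := by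
    intro v _
    rw [← circ_deg hn v]
    rfl
  rw [sum_congr rfl this, sum_const, card_univ, ZMod.card, smul_eq_mul]
  ring

/-- Every set separating `0` from `y` in the circulant graph has at least `2j` elements. -/
lemma circ_sep [NeZero n] {y : ℕ} (hy0 : 0 < y) (hy : y < n) {S : Finset (ZMod n)}
    (hS : Sep (circ n j) (0 : ZMod n) (y : ZMod n) S) : 2 * j ≤ S.card := by
  by_contra hlt
  push Not at hlt
  obtain ⟨h0, h1, hw⟩ := hS
  set A := S.filter (fun v => ∃ m, 0 < m ∧ m < y ∧ ((m : ℕ) : ZMod n) = v) with hA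
  set B := S.filter (fun v => ∃ m, 0 < m ∧ m < n - y ∧ (-((m : ℕ) : ZMod n)) = v) with hB
  have hAB : Disjoint A B := by
    rw [disjoint_left]
    intro v hv hv'
    rw [hA, mem_filter] at hv
    rw [hB, mem_filter] at hv'
    obtain ⟨_, m, hm1, hm2, rfl⟩ := hv
    obtain ⟨_, m', hm1', hm2', h⟩ := hv'
    have h3 : (((n - m' : ℕ)) : ZMod n) = (m : ZMod n) := by
      rw [Nat.cast_sub (by omega), ← h]; simp
    have := natCast_inj (by omega) (by omega) h3
    omega
  have hcard : A.card + B.card ≤ S.card := by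
    rw [← card_union_of_disjoint hAB]
    exact card_le_card (union_subset (filter_subset _ _) (filter_subset _ _))
  rcases Nat.lt_or_ge A.card j with hlt1 | hge1
  · obtain ⟨w, hwv⟩ := arc_walk (G := circ n j) S (fun m : ℕ => (m : ZMod n)) y j
      (fun m m' h1 h2 h3 => circ_adj_cast h1 h2 (by omega))
      (fun m m' h1 h2 h3 => natCast_inj (by omega) (by omega) h3)
      (by simpa using h0) hlt1 y le_rfl h1
    have hz : ((0 : ℕ) : ZMod n) = 0 := Nat.cast_zero
    obtain ⟨v, hv, hvS⟩ := hw (w.copy hz rfl)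
    rw [SimpleGraph.Walk.support_copy] at hv
    exact hwv v hv hvS
  · have hlt2 : B.card < j := by omega
    have hny : (-(((n - y : ℕ)) : ZMod n)) = (y : ZMod n) := by
      rw [Nat.cast_sub hy.le]; simp
    obtain ⟨w, hwv⟩ := arc_walk (G := circ n j) S (fun m : ℕ => -(m : ZMod n)) (n - y) j
      (fun m m' h1 h2 h3 => circ_adj_neg (circ_adj_cast h1 h2 (by omega)))
      (fun m m' h1 h2 h3 => natCast_inj (by omega) (by omega) (neg_injective h3))
      (by simpa using h0) hlt2 (n - y) le_rfl (by rw [hny]; exact h1)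
    have hz : (-((0 : ℕ) : ZMod n)) = 0 := by simp
    obtain ⟨v, hv, hvS⟩ := hw (w.copy hz hny)
    rw [SimpleGraph.Walk.support_copy] at hv
    exact hwv v hv hvS

end

end Pool.Agent.LC0bab
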