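import Pool.Agent.Lib_MP_0bab5c_co.Defs

/-! # Regular partitions in cut-norm form -/

namespace Pool.Agent.LC0bab

open Finset
open scoped Classical

universe u

variable {V : Type u}

/-- A regular partition of the vertex set, in cut-norm form.  `d p q` is the density of a pair of
parts when this pair is regular and dense, and `0` otherwise. -/
structure Clu [Fintype V] (G : SimpleGraph V) (ε ε1 ε2 : ℝ) (L : ℕ) (P : Finset (Finset V))
    (d : Finset V → Finset V → ℝ) : Prop where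
  cover : ∀ v : V, ∃ p ∈ P, v ∈ p
  disj : ∀ p ∈ P, ∀ q ∈ P, p ≠ q → Disjoint p q
  large : ∀ p ∈ P, L ≤ p.card
  symm : ∀ p q, d p q = d q p
  nonneg : ∀ p q, 0 ≤ d p q
  le_one : ∀ p q, d p q ≤ 1
  lower : ∀ p ∈ P, ∀ q ∈ P, d p q ≠ 0 → ε1 ≤ d p q
  reg : ∀ p ∈ P, ∀ q ∈ P, d p q ≠ 0 → ∀ X ⊆ p, ∀ Z ⊆ q,
    |(ee G X Z : ℝ) - d p q * X.card * Z.card| ≤ ε * p.card * q.card
  sparse : ∑ p ∈ P, ∑ q ∈ P, (if d p q = 0 then (ee G p q : ℝ) else 0) ≤
    ε2 * (Fintype.card V : ℝ) ^ 2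

/-- Sums over all vertices split along the parts. -/
theorem Clu.sum_parts [Fintype V] {G : SimpleGraph V} {ε ε1 ε2 : ℝ} {L : ℕ}
    {P : Finset (Finset V)} {d : Finset V → Finset V → ℝ} (h : Clu G ε ε1 ε2 L P d)
    (f : V → ℝ) : ∑ v : V, f v = ∑ p ∈ P, ∑ v ∈ p, f v := by
  have hb : (univ : Finset V) = P.biUnion id := by
    ext v
    simp only [mem_univ, mem_biUnion, id, true_iff]
    exact h.cover v
  rw [hb, sum_biUnion]
  · rfl
  · intro p hp q hq hpq
    exact h.disj p hp q hq hpq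

end Pool.Agent.LC0bab
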