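import Pool.Agent.Lib_MP_0bab5c_co.Clu

/-! # Existence of regular partitions (from Mathlib's Szemerédi regularity lemma) -/

namespace Pool.Agent.LC0bab

open Finset
open scoped Classical

universe u

lemma ee_eq_interedges {V : Type u} (G : SimpleGraph V) (X Z : Finset V) :
    ee G X Z = (G.interedges X Z).card := by
  unfold ee nb SimpleGraph.interedges Rel.interedges
  rw [card_filter, sum_product]
  refine sum_congr rfl (fun x _ => ?_)
  rw [card_filter]

lemma ee_eq_density {V : Type u} (G : SimpleGraph V) (X Z : Finset V) :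
    (ee G X Z : ℝ) = (G.edgeDensity X Z : ℝ) * X.card * Z.card := by
  rw [ee_eq_interedges]
  by_cases hX : X.card = 0
  · have : X = ∅ := card_eq_zero.1 hX
    subst this
    simp
  by_cases hZ : Z.card = 0
  · have : Z = ∅ := card_eq_zero.1 hZ
    subst this
    have h0 : G.interedges X ∅ = ∅ := by
      unfold SimpleGraph.interedges Rel.interedges
      simp
    rw [h0]
    simp
  have h1 : (X.card : ℝ) ≠ 0 := by exact_mod_cast hX
  have h2 : (Z.card : ℝ) ≠ 0 := by exact_mod_cast hZ
  rw [SimpleGraph.edgeDensity_def]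
  push_cast
  field_simp

lemma dens_nonneg {V : Type u} (G : SimpleGraph V) (X Z : Finset V) :
    (0 : ℝ) ≤ (G.edgeDensity X Z : ℝ) := by
  exact_mod_cast G.edgeDensity_nonneg X Z

lemma dens_le_one {V : Type u} (G : SimpleGraph V) (X Z : Finset V) :
    (G.edgeDensity X Z : ℝ) ≤ 1 := by
  exact_mod_cast G.edgeDensity_le_one X Z

/-- Regular partitions exist. -/
theorem exists_clusters (ε ε1 : ℝ) (hε : 0 < ε) (hεε1 : ε ≤ ε1) (h1 : ε1 ≤ 1) (L : ℕ) :
    ∃ N0 : ℕ, ∀ (V : Type u) [Fintype V] (G : SimpleGraph V), N0 ≤ Fintype.card V →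
      ∃ (P : Finset (Finset V)) (d : Finset V → Finset V → ℝ), Clu G ε ε1 (4 * ε1) L P d := by
  have hε1 : 0 < ε1 := lt_of_lt_of_le hε hεε1
  set e : ℝ := ε / 8 with he
  have he0 : 0 < e := by positivity
  have he1 : e ≤ 1 := by rw [he]; linarith
  set l : ℕ := ⌈4 / ε1⌉₊ + 1 with hl
  have hl4 : 4 / ε1 ≤ (l : ℝ) := by
    rw [hl]; push_cast
    have := Nat.le_ceil (4 / ε1)
    linarith
  have hl0 : 0 < l := by omega
  set b : ℕ := SzemerediRegularity.bound e l with hb
  refine ⟨l + (L + 1) * b, ?_⟩
  intro V _ G hn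
  have hnl : l ≤ Fintype.card V := by omega
  obtain ⟨P, hPe, hPl, hPb, hPu⟩ := szemeredi_regularity G he0 hnl
  set n : ℕ := Fintype.card V with hndef
  have hn0 : 0 < n := by omega
  have hcardu : (univ : Finset V).card = n := rfl
  have hpar : 0 < P.parts.card := by omega
  refine ⟨P.parts, fun p q => if p ≠ q ∧ G.IsUniform e p q ∧ ε1 ≤ (G.edgeDensity p q : ℝ) then
    (G.edgeDensity p q : ℝ) else 0, ?_⟩
  -- sizes
  have hsum : ∑ p ∈ P.parts, p.card = n := P.sum_card_parts
  have hub : ∀ p ∈ P.parts, p.card ≤ n / P.parts.card + 1 := fun p hp =>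
    hPe.card_part_le_average_add_one hp
  have hlb : ∀ p ∈ P.parts, n / P.parts.card ≤ p.card := fun p hp =>
    hPe.average_le_card_part hp
  have hsumR : ∑ p ∈ P.parts, (p.card : ℝ) = n := by exact_mod_cast hsum
  refine
    { cover := ?_, disj := ?_, large := ?_, symm := ?_, nonneg := ?_, le_one := ?_, lower := ?_,
      reg := ?_, sparse := ?_ }
  · intro v
    exact P.exists_mem (mem_univ v)
  · intro p hp q hq hpq
    exact P.disjoint hp hq hpq
  · intro p hp
    refine le_trans ?_ (hlb p hp)
    rw [Nat.le_div_iff_mul_le hpar]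
    calc L * P.parts.card ≤ L * b := Nat.mul_le_mul_left _ hPb
      _ ≤ (L + 1) * b := Nat.mul_le_mul_right _ (by omega)
      _ ≤ n := by omega
  · intro p q
    simp only [ne_comm (a := p) (b := q), SimpleGraph.isUniform_comm (G := G) (s := p) (t := q),
      SimpleGraph.edgeDensity_comm G p q]
  · intro p q
    split_ifs
    · exact dens_nonneg G p q
    · exact le_refl _
  · intro p q
    split_ifs
    · exact dens_le_one G p q
    · exact zero_le_one
  · intro p hp q hq hd
    split_ifs at hd ⊢ with h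
    · exact h.2.2
    · exact absurd rfl hd
  · intro p hp q hq hd X hX Z hZ
    split_ifs at hd ⊢ with h
    swap
    · exact absurd rfl hd
    have hXp : (X.card : ℝ) ≤ p.card := by exact_mod_cast card_le_card hX
    have hZq : (Z.card : ℝ) ≤ q.card := by exact_mod_cast card_le_card hZ
    have hX0 : (0 : ℝ) ≤ X.card := by positivity
    have hZ0 : (0 : ℝ) ≤ Z.card := by positivity
    have hp0 : (0 : ℝ) ≤ p.card := by positivity
    have hq0 : (0 : ℝ) ≤ q.card := by positivity
    have hXZ : (X.card : ℝ) * Z.card ≤ p.card * q.card := mul_le_mul hXp hZq hZ0 hp0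
    have hXZ0 : (0 : ℝ) ≤ X.card * Z.card := by positivity
    rw [ee_eq_density]
    have hfac : (G.edgeDensity X Z : ℝ) * X.card * Z.card
        - (G.edgeDensity p q : ℝ) * X.card * Z.card
        = ((G.edgeDensity X Z : ℝ) - (G.edgeDensity p q : ℝ)) * (X.card * Z.card) := by ring
    rw [hfac, abs_mul, abs_of_nonneg hXZ0]
    have habs1 : |(G.edgeDensity X Z : ℝ) - (G.edgeDensity p q : ℝ)| ≤ 1 := by
      rw [abs_le]
      have a1 := dens_nonneg G X Z
      have a2 := dens_le_one G X Z
      have a3 := dens_nonneg G p q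
      have a4 := dens_le_one G p q
      constructor <;> linarith
    have heε : e ≤ ε := by rw [he]; linarith
    by_cases hbX : (p.card : ℝ) * e ≤ X.card
    · by_cases hbZ : (q.card : ℝ) * e ≤ Z.card
      · have hu := (h.2.1 hX hZ hbX hbZ).le
        calc |(G.edgeDensity X Z : ℝ) - (G.edgeDensity p q : ℝ)| * ((X.card : ℝ) * Z.card)
            ≤ e * ((p.card : ℝ) * q.card) := mul_le_mul hu hXZ hXZ0 he0.le
          _ ≤ ε * ((p.card : ℝ) * q.card) := mul_le_mul_of_nonneg_right heε (by positivity)
          _ = ε * p.card * q.card := by ring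
      · push Not at hbZ
        calc |(G.edgeDensity X Z : ℝ) - (G.edgeDensity p q : ℝ)| * ((X.card : ℝ) * Z.card)
            ≤ 1 * ((X.card : ℝ) * Z.card) := mul_le_mul_of_nonneg_right habs1 hXZ0
          _ = (X.card : ℝ) * Z.card := one_mul _
          _ ≤ (p.card : ℝ) * (q.card * e) := mul_le_mul hXp hbZ.le hZ0 hp0
          _ = e * ((p.card : ℝ) * q.card) := by ring
          _ ≤ ε * ((p.card : ℝ) * q.card) := mul_le_mul_of_nonneg_right heε (by positivity)
          _ = ε * p.card * q.card := by ring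
    · push Not at hbX
      calc |(G.edgeDensity X Z : ℝ) - (G.edgeDensity p q : ℝ)| * ((X.card : ℝ) * Z.card)
          ≤ 1 * ((X.card : ℝ) * Z.card) := mul_le_mul_of_nonneg_right habs1 hXZ0
        _ = (X.card : ℝ) * Z.card := one_mul _
        _ ≤ (p.card * e) * (q.card : ℝ) := mul_le_mul hbX.le hZq hZ0 (by positivity)
        _ = e * ((p.card : ℝ) * q.card) := by ring
        _ ≤ ε * ((p.card : ℝ) * q.card) := mul_le_mul_of_nonneg_right heε (by positivity)
        _ = ε * p.card * q.card := by ring
  · -- sparse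
    have hpt : ∀ p ∈ P.parts, ∀ q ∈ P.parts,
        (if (if p ≠ q ∧ G.IsUniform e p q ∧ ε1 ≤ (G.edgeDensity p q : ℝ) then
          (G.edgeDensity p q : ℝ) else 0) = 0 then (ee G p q : ℝ) else 0) ≤
        (if p = q then (p.card : ℝ) * q.card else 0)
        + (if (p, q) ∈ P.nonUniforms G e then (p.card : ℝ) * q.card else 0)
        + ε1 * (p.card * q.card) := by
      intro p hp q hq
      have hpq0 : (0 : ℝ) ≤ (p.card : ℝ) * q.card := by positivity
      have hA : (0 : ℝ) ≤ (if p = q then (p.card : ℝ) * q.card else 0) := by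
        split_ifs <;> simp [hpq0]
      have hB : (0 : ℝ) ≤ (if (p, q) ∈ P.nonUniforms G e then (p.card : ℝ) * q.card else 0) := by
        split_ifs <;> simp [hpq0]
      have hC : (0 : ℝ) ≤ ε1 * (p.card * q.card) := by positivity
      have hee : (ee G p q : ℝ) ≤ (p.card : ℝ) * q.card := by exact_mod_cast ee_le_mul p q
      by_cases hpq : p = q
      · rw [if_pos hpq]
        split_ifs <;> linarith
      by_cases hun : G.IsUniform e p q
      · by_cases hden : ε1 ≤ (G.edgeDensity p q : ℝ)
        · have hcond : p ≠ q ∧ G.IsUniform e p q ∧ ε1 ≤ (G.edgeDensity p q : ℝ) :=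
            ⟨hpq, hun, hden⟩
          rw [if_pos hcond, if_neg (by linarith)]
          linarith
        · push Not at hden
          have hee2 : (ee G p q : ℝ) ≤ ε1 * (p.card * q.card) := by
            rw [ee_eq_density, mul_assoc]
            exact mul_le_mul_of_nonneg_right hden.le hpq0
          have hle : (if (if p ≠ q ∧ G.IsUniform e p q ∧ ε1 ≤ (G.edgeDensity p q : ℝ) then
            (G.edgeDensity p q : ℝ) else 0) = 0 then (ee G p q : ℝ) else 0) ≤
              ε1 * (p.card * q.card) := by
            split_ifs <;> linarith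
          linarith
      · have hmem : (p, q) ∈ P.nonUniforms G e := by
          rw [Finpartition.mk_mem_nonUniforms]
          exact ⟨hp, hq, hpq, hun⟩
        have hle : (if (if p ≠ q ∧ G.IsUniform e p q ∧ ε1 ≤ (G.edgeDensity p q : ℝ) then
            (G.edgeDensity p q : ℝ) else 0) = 0 then (ee G p q : ℝ) else 0) ≤
              (p.card : ℝ) * q.card := by
            split_ifs <;> linarith
        rw [if_pos hmem]
        linarith
    refine (sum_le_sum (fun p hp => sum_le_sum (fun q hq => hpt p hp q hq))).trans ?_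
    simp only [sum_add_distrib]
    have hnR : (4 : ℝ) / ε1 ≤ n := hl4.trans (by exact_mod_cast hnl)
    have hnR0 : (0 : ℝ) < n := by exact_mod_cast hn0
    have hnR4 : 4 ≤ ε1 * n := by
      rw [div_le_iff₀ hε1] at hnR; linarith
    -- diagonal
    have hS1 : ∑ p ∈ P.parts, ∑ q ∈ P.parts, (if p = q then (p.card : ℝ) * q.card else 0)
        ≤ ε1 * (n : ℝ) ^ 2 := by
      have h1 : ∀ p ∈ P.parts, ∑ q ∈ P.parts, (if p = q then (p.card : ℝ) * q.card else 0)
          ≤ (p.card : ℝ) * (ε1 * n / 4 + 1) := by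
        intro p hp
        rw [sum_ite_eq, if_pos hp]
        refine mul_le_mul_of_nonneg_left ?_ (by positivity)
        have h2 : (p.card : ℝ) ≤ ((n / P.parts.card : ℕ) : ℝ) + 1 := by
          exact_mod_cast hub p hp
        have h3 : ((n / P.parts.card : ℕ) : ℝ) ≤ (n : ℝ) / (P.parts.card : ℝ) := Nat.cast_div_le
        have h4 : (n : ℝ) / (P.parts.card : ℝ) ≤ (n : ℝ) / (4 / ε1) := by
          apply div_le_div_of_nonneg_left hnR0.le (by positivity)
          exact hl4.trans (by exact_mod_cast hPl)
        have h5 : (n : ℝ) / (4 / ε1) = ε1 * n / 4 := by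
          field_simp
        linarith
      refine (sum_le_sum h1).trans ?_
      rw [← sum_mul, hsumR]
      nlinarith
    have hS2 : ∑ p ∈ P.parts, ∑ q ∈ P.parts,
        (if (p, q) ∈ P.nonUniforms G e then (p.card : ℝ) * q.card else 0) ≤ ε1 * (n : ℝ) ^ 2 := by
      rw [← sum_product' P.parts P.parts
        (fun p q => if (p, q) ∈ P.nonUniforms G e then (p.card : ℝ) * q.card else 0)]
      have h1 : ∑ x ∈ P.parts ×ˢ P.parts, (if (x.1, x.2) ∈ P.nonUniforms G e then
          (x.1.card : ℝ) * x.2.card else 0)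
          = ∑ x ∈ P.nonUniforms G e, (x.1.card : ℝ) * x.2.card := by
        rw [← sum_filter]
        refine sum_congr ?_ (fun _ _ => rfl)
        ext x
        obtain ⟨p, q⟩ := x
        simp only [mem_filter, mem_product, Finpartition.mk_mem_nonUniforms]
        tauto
      rw [h1]
      have hne : (univ : Finset V).Nonempty := by
        rw [← card_pos, hcardu]; exact hn0
      have h2 := hPe.sum_nonUniforms_lt' (G := G) hne he0 hPu
      refine h2.le.trans ?_
      have h3 : (P.parts.card : ℝ) ≤ n := by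
        have := P.card_parts_le_card
        exact_mod_cast this
      have h4 : (((univ : Finset V).card : ℝ) + P.parts.card) ^ 2 ≤ (2 * (n : ℝ)) ^ 2 := by
        apply pow_le_pow_left₀ (by positivity)
        rw [hcardu]; linarith
      calc e * (((univ : Finset V).card : ℝ) + P.parts.card) ^ 2 ≤ e * (2 * (n : ℝ)) ^ 2 :=
            mul_le_mul_of_nonneg_left h4 he0.le
        _ = (ε / 2) * (n : ℝ) ^ 2 := by rw [he]; ring
        _ ≤ ε1 * (n : ℝ) ^ 2 := mul_le_mul_of_nonneg_right (by linarith) (by positivity)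
    have hS3 : ∑ p ∈ P.parts, ∑ q ∈ P.parts, ε1 * ((p.card : ℝ) * q.card)
        = ε1 * (n : ℝ) ^ 2 := by
      have h1 : ∀ p ∈ P.parts, ∑ q ∈ P.parts, ε1 * ((p.card : ℝ) * q.card)
          = (p.card : ℝ) * (ε1 * n) := by
        intro p _
        rw [← hsumR, mul_sum, mul_sum]
        exact sum_congr rfl (fun q _ => by ring)
      rw [sum_congr rfl h1, ← sum_mul, hsumR]
      ring
    have hn2 : (0 : ℝ) ≤ ε1 * (n : ℝ) ^ 2 := by positivity
    linarith

end Pool.Agent.LC0bab
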