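import Pool.Agent.Lib_MP_0bab5c_co.PairChoice

/-! # The types of the parts with respect to a cut -/

namespace Pool.Agent.LC0bab

open Finset
open scoped Classical

universe u

variable {V : Type u}

/-- Two sides of a cut with a single edge `xy` between them. -/
lemma ct_ee_le_one {G : SimpleGraph V} {X Z : Finset V} {x y : V}
    (h : ∀ a ∈ X, ∀ b ∈ Z, G.Adj a b → a = x ∧ b = y) : ee G X Z ≤ 1 := by
  unfold ee
  have h1 : ∀ a ∈ X, (nb G Z a).card ≤ if a = x then 1 else 0 := by
    intro a ha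
    split_ifs with hax
    · have : nb G Z a ⊆ {y} := by
        intro b hb
        rw [mem_nb] at hb
        rw [mem_singleton]
        exact (h a ha b hb.1 hb.2).2
      exact (card_le_card this).trans (card_singleton y).le
    · rw [Nat.le_zero, card_eq_zero, eq_empty_iff_forall_notMem]
      intro b hb
      rw [mem_nb] at hb
      exact hax (h a ha b hb.1 hb.2).1
  refine (sum_le_sum h1).trans ?_
  rw [sum_ite_eq']
  split_ifs <;> norm_num

/-- The third claim. -/
lemma ct_sep [Fintype V] {G : SimpleGraph V} {ε ε2 : ℝ} {L : ℕ}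
    {P : Finset (Finset V)} {d : Finset V → Finset V → ℝ} {s : ℝ} (hs : 0 < s)
    (h : Clu G ε s ε2 L P d) (hε : 8 * ε ≤ s ^ 3)
    (hL2 : 2 < s ^ 3 * (L : ℝ) ^ 2) {x y : V} {X Z : Finset V}
    (hXZ : ∀ a ∈ X, ∀ b ∈ Z, G.Adj a b → a = x ∧ b = y) {j l : Finset V} (hj : j ∈ P)
    (hl : l ∈ P) (hd : d j l ≠ 0) (h1 : s * j.card ≤ ((X ∩ j).card : ℝ))
    (h2 : s * l.card ≤ ((Z ∩ l).card : ℝ)) : False := by
  have e1 := h.reg j hj l hl hd (X ∩ j) inter_subset_right (Z ∩ l) inter_subset_right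
  have e2 : (ee G (X ∩ j) (Z ∩ l) : ℝ) ≤ 1 := by
    have : ee G (X ∩ j) (Z ∩ l) ≤ 1 := ct_ee_le_one (x := x) (y := y)
      (fun a ha b hb => hXZ a (mem_inter.1 ha).1 b (mem_inter.1 hb).1)
    exact_mod_cast this
  have e3 := h.lower j hj l hl hd
  have hjL : (L : ℝ) ≤ j.card := by exact_mod_cast h.large j hj
  have hlL : (L : ℝ) ≤ l.card := by exact_mod_cast h.large l hl
  have hL0 : (0 : ℝ) ≤ L := by positivity
  have e4 : s * (s * j.card) * (s * l.card) ≤ d j l * ((X ∩ j).card : ℝ) * ((Z ∩ l).card : ℝ) := by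
    apply mul_le_mul _ h2 (by positivity) (mul_nonneg (h.nonneg _ _) (by positivity))
    exact mul_le_mul e3 h1 (by positivity) (h.nonneg _ _)
  have e5 := (abs_le.1 e1).1
  have e6 : (L : ℝ) ^ 2 ≤ j.card * l.card := by
    rw [sq]
    exact mul_le_mul hjL hlL hL0 (by positivity)
  have e7 : 8 * ε * ((j.card : ℝ) * l.card) ≤ s ^ 3 * ((j.card : ℝ) * l.card) :=
    mul_le_mul_of_nonneg_right hε (by positivity)
  have e8 : s ^ 3 * (L : ℝ) ^ 2 ≤ s ^ 3 * ((j.card : ℝ) * l.card) :=
    mul_le_mul_of_nonneg_left e6 (by positivity)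
  nlinarith

/-- The parts split a set. -/
lemma ct_parts [Fintype V] {G : SimpleGraph V} {ε ε1 ε2 : ℝ} {L : ℕ}
    {P : Finset (Finset V)} {d : Finset V → Finset V → ℝ} (h : Clu G ε ε1 ε2 L P d)
    (S : Finset V) : ∑ j ∈ P, ((S ∩ j).card : ℝ) = S.card := by
  have h1 := h.sum_parts (fun v => if v ∈ S then (1 : ℝ) else 0)
  have h2 : ∀ j : Finset V, ∑ v ∈ j, (if v ∈ S then (1 : ℝ) else 0) = ((S ∩ j).card : ℝ) := by
    intro j
    rw [sum_boole]
    congr 2
    ext v
    simp [and_comm]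
  rw [sum_congr rfl (fun j _ => h2 j)] at h1
  rw [← h1, sum_boole]
  congr 2
  ext v
  simp

theorem cut_types_aux [Fintype V] {G : SimpleGraph V} {ε ε2 : ℝ} {L : ℕ}
    {P : Finset (Finset V)} {d : Finset V → Finset V → ℝ} {s : ℝ} (hs : 0 < s) (hs1 : s ≤ 1 / 4)
    (h : Clu G ε s ε2 L P d) (hε : 8 * ε ≤ s ^ 3) (hε0 : 0 < ε)
    (hL1 : 1 ≤ s * L) (hL2 : 2 < s ^ 3 * (L : ℝ) ^ 2)
    {B : Finset V} {k : ℕ} {x y : V} (hx : x ∉ B) (hy : y ∉ B) (hxy : x ≠ y)
    (hcut : RCut G k univ B x y) {i : Finset V} (hi : i ∈ P)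
    (hbad : ∑ j ∈ P, (if d i j ≠ 0 ∧ ¬ Fine G B d s x y i j then (j.card : ℝ) else 0) ≤
        s * Fintype.card V) :
    ∃ K I : Finset (Finset V), K ⊆ P ∧ I ⊆ P ∧
      ∑ l ∈ K, (l.card : ℝ) + ∑ j ∈ I, (d i j) ^ 2 * ((j \ B).card : ℝ) ≤
        k + 5 * s * Fintype.card V ∧
      ∑ j ∈ P, d i j * (j.card : ℝ) ≤ k + 5 * s * Fintype.card V +
        ∑ j ∈ I, d i j * (1 - d i j) * ((j \ B).card : ℝ) ∧
      ∀ j ∈ I, ∀ l ∈ P, d j l ≠ 0 → l ∈ K := by
  obtain ⟨A, -, hxA, hyA, hAy, hAB, hbd⟩ := hcut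
  set S : Finset V := (bd G univ A).erase y with hS
  set A' : Finset V := univ \ (A ∪ S) with hA'
  have hSk : (S.card : ℝ) ≤ k := by
    have : S.card ≤ k := (card_le_card (erase_subset _ _)).trans hbd
    exact_mod_cast this
  have hmS : ∀ v a, v ∉ A → v ≠ y → a ∈ A → G.Adj a v → v ∈ S := by
    intro v a hv hvy ha hadj
    rw [hS, mem_erase, mem_bd]
    exact ⟨hvy, mem_univ _, hv, a, ha, hadj⟩
  -- edges between the two sides
  have hf1 : ∀ a ∈ A, ∀ b ∈ A', G.Adj a b → a = x ∧ b = y := by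
    intro a ha b hb hadj
    rw [hA', mem_sdiff, mem_union, not_or] at hb
    have hby : b = y := by
      by_contra hne
      exact hb.2.2 (hmS b a hb.2.1 hne ha hadj)
    subst hby
    exact ⟨hAy a ha hadj, rfl⟩
  have hf1' : ∀ b ∈ A', ∀ a ∈ A, G.Adj b a → b = y ∧ a = x := fun b hb a ha hadj =>
    (hf1 a ha b hb hadj.symm).symm
  -- splitting of a part
  have hsplit : ∀ j : Finset V, (j.card : ℝ) =
      ((A ∩ j).card : ℝ) + ((S ∩ j).card : ℝ) + ((A' ∩ j).card : ℝ) := by
    intro j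
    have hAS : Disjoint A S := by
      rw [disjoint_left]
      intro v hv hv'
      rw [hS, mem_erase, mem_bd] at hv'
      exact hv'.2.2.1 hv
    have e1 : j = (A ∩ j ∪ S ∩ j) ∪ A' ∩ j := by
      ext v
      simp only [mem_union, mem_inter, hA', mem_sdiff, mem_univ, true_and]
      tauto
    have e2 : Disjoint (A ∩ j) (S ∩ j) := disjoint_of_subset_left inter_subset_left
      (disjoint_of_subset_right inter_subset_left hAS)
    have e3 : Disjoint (A ∩ j ∪ S ∩ j) (A' ∩ j) := by
      rw [disjoint_left]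
      intro v hv hv'
      rw [mem_inter, hA', mem_sdiff, mem_union] at hv'
      rw [mem_union, mem_inter, mem_inter] at hv
      tauto
    have e4 : j.card = (A ∩ j).card + (S ∩ j).card + (A' ∩ j).card := by
      conv_lhs => rw [e1]
      rw [card_union_of_disjoint e3, card_union_of_disjoint e2]
    exact_mod_cast e4
  have hjs : ∀ j ∈ P, (1 : ℝ) ≤ s * j.card := by
    intro j hj
    have : (L : ℝ) ≤ j.card := by exact_mod_cast h.large j hj
    exact hL1.trans (mul_le_mul_of_nonneg_left this hs.le)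
  have hjB : ∀ j : Finset V, (j.card : ℝ) = ((j ∩ B).card : ℝ) + ((j \ B).card : ℝ) := by
    intro j
    have := card_inter_add_card_sdiff j B
    exact_mod_cast this.symm
  -- neighbours of `x` and `y` in a part
  have hnx : ∀ j : Finset V, ((nb G j x).card : ℝ) ≤ (A ∩ j).card + (S ∩ j).card + 1 := by
    intro j
    have e1 : nb G j x ⊆ (A ∩ j ∪ S ∩ j) ∪ {y} := by
      intro v hv
      rw [mem_nb] at hv
      rw [mem_union, mem_union, mem_inter, mem_inter, mem_singleton]
      by_cases h1 : v ∈ A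
      · exact Or.inl (Or.inl ⟨h1, hv.1⟩)
      · by_cases h2 : v = y
        · exact Or.inr h2
        · exact Or.inl (Or.inr ⟨hmS v x h1 h2 hxA hv.2, hv.1⟩)
    have e2 : (nb G j x).card ≤ (A ∩ j).card + (S ∩ j).card + 1 :=
      (card_le_card e1).trans ((card_union_le _ _).trans
        (add_le_add (card_union_le _ _) (card_singleton y).le))
    exact_mod_cast e2
  have hny : ∀ j : Finset V, ((nb G j y).card : ℝ) ≤ (A' ∩ j).card + (S ∩ j).card + 1 := by
    intro j
    have e1 : nb G j y ⊆ (A' ∩ j ∪ S ∩ j) ∪ {x} := by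
      intro v hv
      rw [mem_nb] at hv
      rw [mem_union, mem_union, mem_inter, mem_inter, mem_singleton, hA', mem_sdiff, mem_union]
      by_cases h1 : v ∈ A
      · exact Or.inr (hAy v h1 hv.2.symm)
      · by_cases h2 : v ∈ S
        · exact Or.inl (Or.inr ⟨h2, hv.1⟩)
        · exact Or.inl (Or.inl ⟨⟨mem_univ _, fun h' => h'.elim h1 h2⟩, hv.1⟩)
    have e2 : (nb G j y).card ≤ (A' ∩ j).card + (S ∩ j).card + 1 :=
      (card_le_card e1).trans ((card_union_le _ _).trans
        (add_le_add (card_union_le _ _) (card_singleton x).le))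
    exact_mod_cast e2
  have hnbsplit : ∀ (j : Finset V) (v : V), ((nb G j v).card : ℝ) =
      ((nb G (j ∩ B) v).card : ℝ) + ((nb G (j \ B) v).card : ℝ) := by
    intro j v
    have e1 := nb_card_split (G := G) (inter_subset_left : j ∩ B ⊆ j) v
    have e2 : j \ (j ∩ B) = j \ B := by
      ext w
      simp only [mem_sdiff, mem_inter]
      tauto
    rw [e2] at e1
    exact_mod_cast e1
  have hcommon : ∀ j : Finset V, ((nb G (j ∩ B) x).card : ℝ) +
      ((nb G (j \ B) x ∩ nb G (j \ B) y).card : ℝ) ≤ ((S ∩ j).card : ℝ) := by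
    intro j
    have e1 : nb G (j ∩ B) x ∪ (nb G (j \ B) x ∩ nb G (j \ B) y) ⊆ S ∩ j := by
      intro v hv
      rw [mem_union, mem_inter, mem_nb, mem_nb, mem_nb] at hv
      rw [mem_inter]
      rcases hv with hv | hv
      · rw [mem_inter] at hv
        refine ⟨hmS v x (fun h' => ?_) (fun h' => ?_) hxA hv.2, hv.1.1⟩
        · exact (disjoint_left.1 hAB) h' hv.1.2
        · rw [h'] at hv; exact hy hv.1.2
      · rw [mem_sdiff] at hv
        refine ⟨hmS v x (fun h' => ?_) (fun h' => ?_) hxA hv.1.2, hv.1.1.1⟩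
        · have := hAy v h' hv.2.2.symm
          rw [this] at hv
          exact G.loopless.irrefl x hv.1.2
        · rw [h'] at hv
          exact G.loopless.irrefl y hv.2.2
    have e2 : Disjoint (nb G (j ∩ B) x) (nb G (j \ B) x ∩ nb G (j \ B) y) := by
      rw [disjoint_left]
      intro v hv hv'
      rw [mem_nb, mem_inter] at hv
      rw [mem_inter, mem_nb, mem_sdiff] at hv'
      exact hv'.1.1.2 hv.1.2
    have e3 := card_le_card e1
    rw [card_union_of_disjoint e2] at e3
    exact_mod_cast e3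
  obtain ⟨inK, hinK⟩ : ∃ Q : Finset V → Prop, ∀ j, Q j ↔
    (((A ∩ j).card : ℝ) < s * j.card ∧ ((A' ∩ j).card : ℝ) < s * j.card) :=
    ⟨_, fun _ => Iff.rfl⟩
  obtain ⟨inI, hinI⟩ : ∃ Q : Finset V → Prop, ∀ j, Q j ↔
    (s * j.card ≤ ((A ∩ j).card : ℝ) ∧ s * j.card ≤ ((A' ∩ j).card : ℝ)) :=
    ⟨_, fun _ => Iff.rfl⟩
  -- the target weight
  set t : Finset V → ℝ := fun j => if inK j then (j.card : ℝ) else if inI j then
    (d i j) ^ 2 * ((j \ B).card : ℝ) + d i j * ((j ∩ B).card : ℝ) else d i j * (j.card : ℝ)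
    with ht
  have hd0 := h.nonneg i
  have hd1 := h.le_one i
  have htle : ∀ j, t j ≤ j.card := by
    intro j
    simp only [ht]
    have e0 : (0 : ℝ) ≤ j.card := Nat.cast_nonneg _
    have e1 : (0 : ℝ) ≤ (j \ B).card := Nat.cast_nonneg _
    have e2 : (0 : ℝ) ≤ (j ∩ B).card := Nat.cast_nonneg _
    split_ifs
    · exact le_rfl
    · have := hjB j
      have e3 : (d i j) ^ 2 ≤ 1 := pow_le_one₀ (hd0 j) (hd1 j)
      nlinarith [hd1 j]
    · nlinarith [hd1 j]
  have htb : ∀ j ∈ P, t j ≤ ((S ∩ j).card : ℝ) + 4 * s * j.card +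
      (if d i j ≠ 0 ∧ ¬ Fine G B d s x y i j then (j.card : ℝ) else 0) := by
    intro j hj
    have e0 : (0 : ℝ) ≤ j.card := Nat.cast_nonneg _
    have e0' : (0 : ℝ) ≤ s * j.card := mul_nonneg hs.le (Nat.cast_nonneg _)
    have eS : (0 : ℝ) ≤ (S ∩ j).card := Nat.cast_nonneg _
    by_cases hb : d i j ≠ 0 ∧ ¬ Fine G B d s x y i j
    · rw [if_pos hb]
      have := htle j
      linarith
    · rw [if_neg hb]
      simp only [ht]
      split_ifs with c1 c2
      · rw [hinK] at c1
        have := hsplit j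
        linarith
      · by_cases hd : d i j = 0
        · rw [hd]
          simp only [ne_eq, OfNat.ofNat_ne_zero, not_false_eq_true, zero_pow, zero_mul]
          linarith
        · have hF : Fine G B d s x y i j := by
            by_contra hF
            exact hb ⟨hd, hF⟩
          have e1 := hF.1.1
          have e2 := hF.2.2
          have e3 := hcommon j
          linarith
      · by_cases hd : d i j = 0
        · rw [hd]
          simp only [zero_mul]
          linarith
        · have hF : Fine G B d s x y i j := by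
            by_contra hF
            exact hb ⟨hd, hF⟩
          have e1 := hF.1
          have e2 := hF.2.1
          have e3 := hjB j
          have e4 := hnbsplit j x
          have e5 := hnbsplit j y
          have e6 := hnx j
          have e7 := hny j
          have e8 := hjs j hj
          have e9 : d i j * j.card = d i j * (j ∩ B).card + d i j * (j \ B).card := by
            rw [← mul_add, ← e3]
          rw [hinK] at c1
          rw [hinI] at c2
          rcases lt_or_ge ((A ∩ j).card : ℝ) (s * j.card) with c3 | c3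
          · linarith [e1.1, e2.1]
          · have c4 : ((A' ∩ j).card : ℝ) < s * j.card := by
              by_contra c5
              exact c2 ⟨c3, not_lt.1 c5⟩
            linarith [e1.2, e2.2]
  have hsumt : ∑ j ∈ P, t j ≤ k + 5 * s * Fintype.card V := by
    have e1 := sum_le_sum htb
    rw [sum_add_distrib, sum_add_distrib, ct_parts h S, ← mul_sum, pc_total h] at e1
    linarith
  have hnn : ∀ j : Finset V, 0 ≤ t j := by
    intro j
    simp only [ht]
    have e0 := hd0 j
    have e1 : (0 : ℝ) ≤ (j \ B).card := Nat.cast_nonneg _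
    have e2 : (0 : ℝ) ≤ (j ∩ B).card := Nat.cast_nonneg _
    have e3 : (0 : ℝ) ≤ j.card := Nat.cast_nonneg _
    split_ifs
    · exact e3
    · exact add_nonneg (mul_nonneg (pow_nonneg e0 2) e1) (mul_nonneg e0 e2)
    · exact mul_nonneg e0 e3
  refine ⟨P.filter inK, P.filter inI, filter_subset _ _, filter_subset _ _, ?_, ?_, ?_⟩
  · rw [sum_filter, sum_filter, ← sum_add_distrib]
    refine (sum_le_sum (fun j hj => ?_)).trans hsumt
    simp only [ht]
    have e1 := hd0 j
    by_cases c1 : inK j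
    · have c2 : ¬ inI j := by
        intro c2
        rw [hinK] at c1
        rw [hinI] at c2
        linarith [c1.1, c2.1]
      rw [if_pos c1, if_pos c1, if_neg c2, add_zero]
    · rw [if_neg c1, if_neg c1, zero_add]
      split_ifs
      · have : (0 : ℝ) ≤ d i j * ((j ∩ B).card : ℝ) := mul_nonneg e1 (Nat.cast_nonneg _)
        linarith
      · exact mul_nonneg e1 (Nat.cast_nonneg _)
  · rw [sum_filter]
    have e2 : ∀ j ∈ P, d i j * (j.card : ℝ) ≤ t j +
        (if inI j then d i j * (1 - d i j) * ((j \ B).card : ℝ) else 0) := by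
      intro j hj
      simp only [ht]
      have e1 := hd0 j
      have e3 := hd1 j
      have e4 : (0 : ℝ) ≤ (j.card : ℝ) := Nat.cast_nonneg _
      have e5 : (0 : ℝ) ≤ (if inI j then d i j * (1 - d i j) * ((j \ B).card : ℝ) else 0) := by
        split_ifs
        · exact mul_nonneg (mul_nonneg e1 (by linarith)) (Nat.cast_nonneg _)
        · exact le_rfl
      by_cases c1 : inK j
      · rw [if_pos c1]
        nlinarith
      · rw [if_neg c1]
        by_cases c2 : inI j
        · rw [if_pos c2, if_pos c2, hjB j]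
          apply le_of_eq
          ring
        · rw [if_neg c2, if_neg c2, add_zero]
    refine (sum_le_sum e2).trans ?_
    rw [sum_add_distrib]
    linarith
  · intro j hj l hl hdjl
    rw [mem_filter, hinI] at hj
    rw [mem_filter]
    refine ⟨hl, ?_⟩
    rw [hinK]
    constructor
    · by_contra c
      exact ct_sep hs h hε hL2 hf1' hj.1 hl hdjl hj.2.2 (not_lt.1 c)
    · by_contra c
      exact ct_sep hs h hε hL2 hf1 hj.1 hl hdjl hj.2.1 (not_lt.1 c)

theorem cut_types [Fintype V] {G : SimpleGraph V} {ε ε2 : ℝ} {L : ℕ}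
    {P : Finset (Finset V)} {d : Finset V → Finset V → ℝ} {s : ℝ} (hs : 0 < s) (hs1 : s ≤ 1 / 4)
    (h : Clu G ε s ε2 L P d) (hε : 8 * ε ≤ s ^ 3) (hε0 : 0 < ε)
    (hL1 : 1 ≤ s * L) (hL2 : 2 < s ^ 3 * (L : ℝ) ^ 2)
    {B : Finset V} {k : ℕ} {x y : V} (hx : x ∉ B) (hy : y ∉ B) (hxy : x ≠ y)
    (hcut : RCut G k univ B x y ∨ RCut G k univ B y x) {i : Finset V} (hi : i ∈ P)
    (hbad : ∑ j ∈ P, (if d i j ≠ 0 ∧ ¬ Fine G B d s x y i j then (j.card : ℝ) else 0) ≤
        s * Fintype.card V) :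
    ∃ K I : Finset (Finset V), K ⊆ P ∧ I ⊆ P ∧
      ∑ l ∈ K, (l.card : ℝ) + ∑ j ∈ I, (d i j) ^ 2 * ((j \ B).card : ℝ) ≤
        k + 5 * s * Fintype.card V ∧
      ∑ j ∈ P, d i j * (j.card : ℝ) ≤ k + 5 * s * Fintype.card V +
        ∑ j ∈ I, d i j * (1 - d i j) * ((j \ B).card : ℝ) ∧
      ∀ j ∈ I, ∀ l ∈ P, d j l ≠ 0 → l ∈ K := by
  rcases hcut with hc | hc
  · exact cut_types_aux hs hs1 h hε hε0 hL1 hL2 hx hy hxy hc hi hbad
  · refine cut_types_aux hs hs1 h hε hε0 hL1 hL2 hy hx hxy.symm hc hi (le_trans ?_ hbad)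
    refine sum_le_sum (fun j _ => ?_)
    by_cases h1 : d i j ≠ 0 ∧ ¬ Fine G B d s y x i j
    · rw [if_pos h1, if_pos ⟨h1.1, fun hf => h1.2 hf.symm⟩]
    · rw [if_neg h1]
      split_ifs
      · positivity
      · exact le_rfl

end Pool.Agent.LC0bab
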