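import Pool.Agent.Lib_MP_0bab5c_co.Defs

/-! # Cuts: restriction to a subset, and the small side -/

namespace Pool.Agent.LC0bab

open Finset
open scoped Classical

universe u

variable {V : Type u} {G : SimpleGraph V} {k : ℕ} {W : Finset V}

theorem RCut_mono {W' : Finset V} {x y : V} (h : RCut G k W' ∅ x y) (hW : W ⊆ W') (hx : x ∈ W) :
    RCut G k W ∅ x y := by
  obtain ⟨A, _, h2, h3, h4, _, h6⟩ := h
  refine ⟨A ∩ W, inter_subset_right, mem_inter.2 ⟨h2, hx⟩, fun h => h3 (mem_inter.1 h).1,
    fun a ha => h4 a (mem_inter.1 ha).1, disjoint_empty_right _, le_trans (card_le_card ?_) h6⟩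
  intro v hv
  rw [mem_bd] at hv ⊢
  obtain ⟨hv1, hv2, a, ha, hav⟩ := hv
  exact ⟨hW hv1, fun h => hv2 (mem_inter.2 ⟨h, hv1⟩), a, (mem_inter.1 ha).1, hav⟩

theorem RC_mono {W' : Finset V} (h : RC G k W' ∅) (hW : W ⊆ W') : RC G k W ∅ := by
  intro x hx y hy hxy
  rw [sdiff_empty] at hx hy
  rcases h x (by rw [sdiff_empty]; exact hW hx) y (by rw [sdiff_empty]; exact hW hy) hxy with h | h
  · exact Or.inl (RCut_mono h hW hx)
  · exact Or.inr (RCut_mono h hW hy)

/-- Cut with small side. -/
def SCut (G : SimpleGraph V) (k : ℕ) (W : Finset V) (x y : V) : Prop :=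
  ∃ A ⊆ W, x ∈ A ∧ y ∉ A ∧ (∀ a ∈ A, G.Adj a y → a = x) ∧ (bd G W A).card ≤ k ∧
    2 * A.card ≤ W.card

theorem SCut_of_RCut {x y : V} (h : RCut G k W ∅ x y) (hy : y ∈ W) (hxy : x ≠ y) :
    SCut G k W x y ∨ SCut G k W y x := by
  obtain ⟨A, h1, h2, h3, h4, _, h6⟩ := h
  by_cases hA : 2 * A.card ≤ W.card
  · exact Or.inl ⟨A, h1, h2, h3, h4, h6, hA⟩
  right
  refine ⟨insert y (W \ (A ∪ bd G W A)), ?_, mem_insert_self _ _, ?_, ?_, ?_, ?_⟩
  · intro v hv
    rcases mem_insert.1 hv with rfl | hv
    · exact hy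
    · exact (mem_sdiff.1 hv).1
  · intro h
    rcases mem_insert.1 h with h | h
    · exact hxy h
    · exact (mem_sdiff.1 h).2 (mem_union_left _ h2)
  · intro a ha hax
    rcases mem_insert.1 ha with h | h
    · exact h
    · exfalso
      have h' := mem_sdiff.1 h
      apply h'.2
      apply mem_union_right
      rw [mem_bd]
      exact ⟨h'.1, fun h => h'.2 (mem_union_left _ h), x, h2, hax.symm⟩
  · have key : ∀ v ∈ bd G W (insert y (W \ (A ∪ bd G W A))), v ≠ y ∧ (v ∈ bd G W A ∨
        (v = x ∧ G.Adj x y)) := by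
      intro v hv
      rw [mem_bd] at hv
      obtain ⟨hv1, hv2, a, ha, hav⟩ := hv
      have hvy : v ≠ y := fun h => hv2 (by rw [h]; exact mem_insert_self _ _)
      refine ⟨hvy, ?_⟩
      by_cases hvb : v ∈ bd G W A
      · exact Or.inl hvb
      right
      have hvA : v ∈ A := by
        by_contra hvA
        apply hv2
        apply mem_insert_of_mem
        rw [mem_sdiff, mem_union]
        exact ⟨hv1, fun h => h.elim hvA hvb⟩
      have hay : a = y := by
        rcases mem_insert.1 ha with h | h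
        · exact h
        · exfalso
          have h' := mem_sdiff.1 h
          apply h'.2
          apply mem_union_right
          rw [mem_bd]
          exact ⟨h'.1, fun h => h'.2 (mem_union_left _ h), v, hvA, hav.symm⟩
      rw [hay] at hav
      have hvx := h4 v hvA hav.symm
      refine ⟨hvx, ?_⟩
      rw [hvx] at hav
      exact hav.symm
    by_cases hxy' : G.Adj x y
    · have hyb : y ∈ bd G W A := by
        rw [mem_bd]
        exact ⟨hy, h3, x, h2, hxy'⟩
      have hsub : bd G W (insert y (W \ (A ∪ bd G W A))) ⊆ insert x ((bd G W A).erase y) := by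
        intro v hv
        obtain ⟨k1, k2⟩ := key v hv
        rcases k2 with k2 | k2
        · exact mem_insert_of_mem (mem_erase.2 ⟨k1, k2⟩)
        · rw [k2.1]; exact mem_insert_self _ _
      have hc := card_le_card hsub
      have hc2 := card_insert_le x ((bd G W A).erase y)
      have hc3 := card_erase_of_mem hyb
      have hc4 : 0 < (bd G W A).card := card_pos.2 ⟨y, hyb⟩
      omega
    · have hsub : bd G W (insert y (W \ (A ∪ bd G W A))) ⊆ bd G W A := by
        intro v hv
        obtain ⟨_, k2⟩ := key v hv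
        rcases k2 with k2 | k2
        · exact k2
        · exact absurd k2.2 hxy'
      exact (card_le_card hsub).trans h6
  · have hsub : insert y (W \ (A ∪ bd G W A)) ⊆ W \ A := by
      intro v hv
      rcases mem_insert.1 hv with rfl | hv
      · exact mem_sdiff.2 ⟨hy, h3⟩
      · have hv' := mem_sdiff.1 hv
        exact mem_sdiff.2 ⟨hv'.1, fun h => hv'.2 (mem_union_left _ h)⟩
    have hc := card_le_card hsub
    rw [card_sdiff_of_subset h1] at hc
    omega

theorem SCut_of_RC (h : RC G k W ∅) {x y : V} (hx : x ∈ W) (hy : y ∈ W) (hxy : x ≠ y) :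
    SCut G k W x y ∨ SCut G k W y x := by
  rcases h x (by rwa [sdiff_empty]) y (by rwa [sdiff_empty]) hxy with h | h
  · exact SCut_of_RCut h hy hxy
  · exact (SCut_of_RCut h hx hxy.symm).symm

end Pool.Agent.LC0bab
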