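import Mathlib

/-!
# Maximum local connectivity: relative neighbourhoods, boundaries and cuts

Everything is relative to a finite set `W` of vertices of a graph `G` (that is, it describes the
induced graph `G[W]`).
-/

namespace Pool.Agent.LC0bab

open Finset
open scoped Classical

universe u

variable {V : Type u}

/-- Neighbours of `v` inside `W`. -/
noncomputable def nb (G : SimpleGraph V) (W : Finset V) (v : V) : Finset V :=
  W.filter (fun a => G.Adj v a)

/-- Vertices of `W` outside `A` with a neighbour in `A`. -/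
noncomputable def bd (G : SimpleGraph V) (W A : Finset V) : Finset V :=
  (W \ A).filter (fun v => ∃ a ∈ A, G.Adj a v)

/-- Number of ordered pairs `(x,z)` with `x ∈ X`, `z ∈ Z` adjacent. -/
noncomputable def ee (G : SimpleGraph V) (X Z : Finset V) : ℕ :=
  ∑ x ∈ X, (nb G Z x).card

/-- Twice the number of edges inside `X`. -/
noncomputable def e2 (G : SimpleGraph V) (X : Finset V) : ℕ := ee G X X

/-- `x` can be cut from `y` inside `W` by a set `A` with boundary at most `k`, avoiding `B`. -/
def RCut (G : SimpleGraph V) (k : ℕ) (W B : Finset V) (x y : V) : Prop :=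
  ∃ A ⊆ W, x ∈ A ∧ y ∉ A ∧ (∀ a ∈ A, G.Adj a y → a = x) ∧ Disjoint A B ∧ (bd G W A).card ≤ k

/-- Any two vertices of `W \ B` can be cut from each other (in one of the two directions). -/
def RC (G : SimpleGraph V) (k : ℕ) (W B : Finset V) : Prop :=
  ∀ x ∈ W \ B, ∀ y ∈ W \ B, x ≠ y → RCut G k W B x y ∨ RCut G k W B y x

variable {G : SimpleGraph V}

lemma mem_nb {W : Finset V} {v a : V} : a ∈ nb G W v ↔ a ∈ W ∧ G.Adj v a := by
  simp [nb]

lemma mem_bd {W A : Finset V} {v : V} :
    v ∈ bd G W A ↔ v ∈ W ∧ v ∉ A ∧ ∃ a ∈ A, G.Adj a v := by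
  simp [bd, and_assoc]

lemma nb_subset {W : Finset V} {v : V} : nb G W v ⊆ W := filter_subset _ _

lemma nb_mono {W W' : Finset V} (h : W ⊆ W') (v : V) : nb G W v ⊆ nb G W' v :=
  filter_subset_filter _ h

lemma nb_union (W W' : Finset V) (v : V) : nb G (W ∪ W') v = nb G W v ∪ nb G W' v := by
  simp [nb, filter_union]

lemma nb_card_union {W W' : Finset V} (h : Disjoint W W') (v : V) :
    (nb G (W ∪ W') v).card = (nb G W v).card + (nb G W' v).card := by
  rw [nb_union, card_union_of_disjoint]
  exact disjoint_of_subset_left nb_subset (disjoint_of_subset_right nb_subset h)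

lemma nb_card_split {W X : Finset V} (h : X ⊆ W) (v : V) :
    (nb G W v).card = (nb G X v).card + (nb G (W \ X) v).card := by
  rw [← nb_card_union disjoint_sdiff, union_sdiff_of_subset h]

lemma bd_subset {W A : Finset V} : bd G W A ⊆ W := fun _ h => (mem_bd.1 h).1

lemma bd_disj {W A : Finset V} : Disjoint (bd G W A) A := by
  rw [disjoint_left]
  intro v h h'
  exact (mem_bd.1 h).2.1 h'

lemma ee_comm (X Z : Finset V) : ee G X Z = ee G Z X := by
  unfold ee nb
  simp_rw [card_filter]
  rw [sum_comm]
  simp_rw [G.adj_comm]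

lemma ee_union_right {Z Z' : Finset V} (h : Disjoint Z Z') (X : Finset V) :
    ee G X (Z ∪ Z') = ee G X Z + ee G X Z' := by
  unfold ee
  rw [← sum_add_distrib]
  exact sum_congr rfl (fun x _ => nb_card_union h x)

lemma ee_union_left {X X' : Finset V} (h : Disjoint X X') (Z : Finset V) :
    ee G (X ∪ X') Z = ee G X Z + ee G X' Z := by
  unfold ee
  rw [sum_union h]

lemma ee_mono {X X' Z Z' : Finset V} (h : X ⊆ X') (h' : Z ⊆ Z') : ee G X Z ≤ ee G X' Z' := by
  unfold ee
  refine (sum_le_sum (fun x _ => card_le_card (nb_mono h' x))).trans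
    (sum_le_sum_of_subset h)

lemma ee_le_mul (X Z : Finset V) : ee G X Z ≤ X.card * Z.card := by
  unfold ee
  refine (sum_le_card_nsmul _ _ Z.card (fun x _ => card_le_card nb_subset)).trans ?_
  simp

end Pool.Agent.LC0bab
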