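import Pool.Agent.Lib_MP_0bab5c_co.Defs

/-! # Passing to the subtype of the elements of a finite set -/

namespace Pool.Agent.LC0bab

open Finset
open scoped Classical

universe u

variable {V : Type u}

/-- The graph induced on the type of elements of `W`. -/
def sub (G : SimpleGraph V) (W : Finset V) : SimpleGraph {v // v ∈ W} :=
  G.comap Subtype.val

/-- A finite set of vertices of `W` as a finite set of the subtype. -/
noncomputable def pull (W X : Finset V) : Finset {v // v ∈ W} :=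
  univ.filter (fun v => (v : V) ∈ X)

theorem mem_pull {W X : Finset V} {v : {v // v ∈ W}} : v ∈ pull W X ↔ (v : V) ∈ X := by
  simp [pull]

theorem pull_map {W X : Finset V} (hX : X ⊆ W) :
    (pull W X).map (Function.Embedding.subtype _) = X := by
  ext v
  rw [mem_map]
  constructor
  · rintro ⟨a, ha, rfl⟩
    exact mem_pull.1 ha
  · intro hv
    exact ⟨⟨v, hX hv⟩, mem_pull.2 hv, rfl⟩

theorem pull_card {W X : Finset V} (hX : X ⊆ W) : (pull W X).card = X.card := by
  conv_rhs => rw [← pull_map hX]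
  rw [card_map]

theorem pull_self (W : Finset V) : pull W W = univ := by
  ext v
  simp [mem_pull]

theorem nb_pull_eq (G : SimpleGraph V) {W X : Finset V} (v : {v // v ∈ W}) :
    nb (sub G W) (pull W X) v = pull W (nb G X v) := by
  ext a
  simp only [mem_nb, mem_pull, sub, SimpleGraph.comap_adj]

theorem nb_pull (G : SimpleGraph V) {W X : Finset V} (hX : X ⊆ W) (v : {v // v ∈ W}) :
    (nb (sub G W) (pull W X) v).card = (nb G X v).card := by
  rw [nb_pull_eq, pull_card (nb_subset.trans hX)]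

theorem sum_pull {W X : Finset V} (hX : X ⊆ W) (f : V → ℝ) :
    ∑ v ∈ pull W X, f v = ∑ v ∈ X, f v := by
  conv_rhs => rw [← pull_map hX]
  rw [sum_map]
  rfl

theorem e2_pull (G : SimpleGraph V) {W X : Finset V} (hX : X ⊆ W) :
    e2 (sub G W) (pull W X) = e2 G X := by
  have h : ((e2 (sub G W) (pull W X) : ℕ) : ℝ) = (e2 G X : ℕ) := by
    rw [e2, e2, ee, ee]
    push_cast
    rw [← sum_pull hX (fun v => ((nb G X v).card : ℝ))]
    exact sum_congr rfl (fun v _ => by rw [nb_pull G hX])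
  exact_mod_cast h

theorem bd_pull (G : SimpleGraph V) {W A : Finset V} (_hA : A ⊆ W) :
    bd (sub G W) univ (pull W A) = pull W (bd G W A) := by
  ext v
  simp only [mem_bd, mem_pull, mem_univ, true_and]
  constructor
  · rintro ⟨h1, a, ha, hav⟩
    exact ⟨v.2, h1, a, ha, hav⟩
  · rintro ⟨_, h1, a, ha, hav⟩
    exact ⟨h1, ⟨a, _hA ha⟩, ha, hav⟩

theorem rcut_pull {G : SimpleGraph V} {k : ℕ} {W B : Finset V} {x y : {v // v ∈ W}}
    (h : RCut G k W B x y) : RCut (sub G W) k univ (pull W B) x y := by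
  obtain ⟨A, hA, hx, hy, he, hd, hb⟩ := h
  refine ⟨pull W A, subset_univ _, mem_pull.2 hx, fun h => hy (mem_pull.1 h), ?_, ?_, ?_⟩
  · intro a ha hay
    exact Subtype.ext (he a (mem_pull.1 ha) hay)
  · rw [disjoint_left] at hd ⊢
    intro a ha hb'
    exact hd (mem_pull.1 ha) (mem_pull.1 hb')
  · rw [bd_pull G hA, pull_card bd_subset]
    exact hb

theorem RC_iff {V : Type u} {G : SimpleGraph V} {k : ℕ} {W B : Finset V} :
    RC G k W B ↔ ∀ x ∈ W, x ∉ B → ∀ y ∈ W, y ∉ B → x ≠ y → RCut G k W B x y ∨ RCut G k W B y x := by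
  constructor
  · intro h x hx hxB y hy hyB hxy
    exact h x (mem_sdiff.2 ⟨hx, hxB⟩) y (mem_sdiff.2 ⟨hy, hyB⟩) hxy
  · intro h x hx y hy hxy
    exact h x (mem_sdiff.1 hx).1 (mem_sdiff.1 hx).2 y (mem_sdiff.1 hy).1 (mem_sdiff.1 hy).2 hxy

theorem rc_pull {G : SimpleGraph V} {k : ℕ} {W B : Finset V} (h : RC G k W B) :
    RC (sub G W) k univ (pull W B) := by
  rw [RC_iff] at h ⊢
  intro x _ hx y _ hy hxy
  rcases h x x.2 (fun h => hx (mem_pull.2 h)) y y.2 (fun h => hy (mem_pull.2 h))
    (fun h => hxy (Subtype.ext h)) with h1 | h1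
  · exact Or.inl (rcut_pull h1)
  · exact Or.inr (rcut_pull h1)

end Pool.Agent.LC0bab
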