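import Pool.Agent.Lib_MP_0bab5c_co.DenseAbs
import Pool.Agent.Lib_MP_0bab5c_co.Transfer

/-! # The dense theorem, relative form -/

namespace Pool.Agent.LC0bab

open Finset
open scoped Classical

universe u

/-- `dense_abs` with the complement of `B` given by its members. -/
theorem dense_abs' {r η : ℝ} {k : ℕ} (h : ∀ (V : Type u) [Fintype V] (G : SimpleGraph V)
    (B : Finset V), (Fintype.card V : ℝ) ≤ r * k → RC G k univ B →
      ∑ v ∈ univ \ B, ((nb G univ v).card : ℝ) ≤ k * ((univ \ B).card : ℝ) + η * (k : ℝ) ^ 2)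
    (V : Type u) [Fintype V] (G : SimpleGraph V) (B C : Finset V) (hC : ∀ v, v ∈ C ↔ v ∉ B)
    (hn : (Fintype.card V : ℝ) ≤ r * k) (hRC : RC G k univ B) :
    ∑ v ∈ C, ((nb G univ v).card : ℝ) ≤ k * (C.card : ℝ) + η * (k : ℝ) ^ 2 := by
  have e : univ \ B = C := by
    ext v
    rw [mem_sdiff, hC]
    simp
  have h' := h V G B hn hRC
  rw [e] at h'
  exact h'

theorem dense_rel (r η : ℝ) (hη : 0 < η) : ∃ k0 : ℕ, ∀ k : ℕ, k0 ≤ k →
    ∀ (V : Type u) (G : SimpleGraph V) (W B : Finset V), B ⊆ W →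
      (W.card : ℝ) ≤ r * k → RC G k W B →
      ∑ v ∈ W \ B, ((nb G W v).card : ℝ) ≤ k * ((W \ B).card : ℝ) + η * (k : ℝ) ^ 2 := by
  obtain ⟨k0, hk0⟩ := dense_abs.{u} r η hη
  refine ⟨k0, fun k hk V G W B _ hW hRC => ?_⟩
  have hcard : Fintype.card {v // v ∈ W} = W.card := Fintype.card_coe W
  have h := dense_abs' (hk0 k hk) {v // v ∈ W} (sub G W) (pull W B) (pull W (W \ B))
    (fun v => by rw [mem_pull, mem_pull, mem_sdiff]; exact ⟨fun h => h.2, fun h => ⟨v.2, h⟩⟩)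
    (by rw [hcard]; exact hW) (rc_pull hRC)
  rw [pull_card sdiff_subset] at h
  have e2' : ∑ v ∈ pull W (W \ B), ((nb (sub G W) univ v).card : ℝ) =
      ∑ v ∈ pull W (W \ B), ((nb G W v).card : ℝ) := by
    refine sum_congr rfl (fun v _ => ?_)
    rw [← pull_self W, nb_pull G (subset_refl W)]
  rw [e2', sum_pull sdiff_subset (fun v => ((nb G W v).card : ℝ))] at h
  exact h

end Pool.Agent.LC0bab
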