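import Pool.Agent.Lib_MP_0bab5c_co.Tail

/-! # Tail of the degrees -/

namespace Pool.Agent.LC0bab

open Finset
open scoped Classical

universe u

variable {V : Type u} [Fintype V] {G : SimpleGraph V} {ε ε1 ε2 : ℝ} {L : ℕ}
  {P : Finset (Finset V)} {d : Finset V → Finset V → ℝ}

/-- The degree is the sum of the degrees into the parts. -/
theorem vt_deg (h : Clu G ε ε1 ε2 L P d) (v : V) :
    ((nb G univ v).card : ℝ) = ∑ j ∈ P, ((nb G j v).card : ℝ) := by
  have h1 := h.sum_parts (fun a => if G.Adj v a then (1 : ℝ) else 0)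
  unfold nb
  simp only [card_filter]
  push_cast
  exact h1

/-- The parts partition the vertex set. -/
theorem vt_card (h : Clu G ε ε1 ε2 L P d) :
    (Fintype.card V : ℝ) = ∑ j ∈ P, (j.card : ℝ) := by
  have h1 := h.sum_parts (fun _ => (1 : ℝ))
  simpa using h1

/-- Almost every vertex has degree at most the reduced degree of its part, up to `4 q n`. -/
theorem vertex_tail {q : ℝ} (hq0 : 0 < q) (hq1 : q ≤ 1) (hL : 1 ≤ L)
    (h : Clu G (q ^ 6 / 8) (q ^ 2) (4 * q ^ 2) L P d) :
    ((univ.filter (fun v : V => ∃ i ∈ P, v ∈ i ∧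
      ∑ j ∈ P, d i j * (j.card : ℝ) + 4 * q * Fintype.card V < ((nb G univ v).card : ℝ))).card : ℝ)
      ≤ 3 * q * Fintype.card V := by
  choose π hπP hπ using h.cover
  have hπe : ∀ p ∈ P, ∀ v ∈ p, π v = p := by
    intro p hp v hv
    by_contra hne
    exact (disjoint_left.1 (h.disj _ (hπP v) p hp hne)) (hπ v) hv
  set n : ℝ := (Fintype.card V : ℝ) with hn
  have hn0 : 0 ≤ n := Nat.cast_nonneg _
  have hcard : n = ∑ j ∈ P, (j.card : ℝ) := vt_card h
  set Z : V → ℝ := fun v => ∑ j ∈ P, (if d (π v) j = 0 then ((nb G j v).card : ℝ) else 0) with hZ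
  set B : V → ℝ := fun v => ∑ j ∈ P,
    (if d (π v) j ≠ 0 ∧ d (π v) j * (j.card : ℝ) + q ^ 2 * (j.card : ℝ) < ((nb G j v).card : ℝ)
      then (j.card : ℝ) else 0) with hB
  have hZ0 : ∀ v, 0 ≤ Z v := fun v => sum_nonneg (fun j _ => by split_ifs <;> positivity)
  have hB0 : ∀ v, 0 ≤ B v := fun v => sum_nonneg (fun j _ => by split_ifs <;> positivity)
  set S := univ.filter (fun v : V => ∃ i ∈ P, v ∈ i ∧
      ∑ j ∈ P, d i j * (j.card : ℝ) + 4 * q * n < ((nb G univ v).card : ℝ)) with hS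
  have hkey : ∀ v ∈ S, 3 * q * n ≤ Z v + B v := by
    intro v hv
    obtain ⟨i, hi, hvi, hlt⟩ := (mem_filter.1 hv).2
    have hpi : π v = i := hπe i hi v hvi
    have h1 : ((nb G univ v).card : ℝ) ≤
        Z v + ∑ j ∈ P, d i j * (j.card : ℝ) + q ^ 2 * n + B v := by
      rw [vt_deg h v, hcard, mul_sum]
      simp only [hZ, hB, ← sum_add_distrib]
      refine sum_le_sum (fun j hj => ?_)
      rw [hpi]
      have hle : ((nb G j v).card : ℝ) ≤ (j.card : ℝ) := by
        exact_mod_cast card_le_card nb_subset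
      have hj0 : (0 : ℝ) ≤ j.card := Nat.cast_nonneg _
      have hd0 := h.nonneg i j
      have hdj : 0 ≤ d i j * (j.card : ℝ) := mul_nonneg hd0 hj0
      have hqj : 0 ≤ q ^ 2 * (j.card : ℝ) := by positivity
      by_cases hd : d i j = 0
      · rw [if_pos hd, if_neg (fun hh => hh.1 hd)]
        linarith
      · rw [if_neg hd]
        by_cases hb : d i j * (j.card : ℝ) + q ^ 2 * (j.card : ℝ) < ((nb G j v).card : ℝ)
        · rw [if_pos ⟨hd, hb⟩]
          linarith
        · rw [if_neg (fun hh => hb hh.2)]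
          push Not at hb
          linarith
    have h2 : q ^ 2 * n ≤ q * n := by
      have : q ^ 2 ≤ q := by nlinarith
      exact mul_le_mul_of_nonneg_right this hn0
    nlinarith
  have hsumZ : ∑ v : V, Z v ≤ 4 * q ^ 2 * n ^ 2 := by
    refine le_trans (le_of_eq ?_) h.sparse
    rw [h.sum_parts Z]
    refine sum_congr rfl (fun p hp => ?_)
    have h1 : ∀ v ∈ p, Z v = ∑ j ∈ P, (if d p j = 0 then ((nb G j v).card : ℝ) else 0) := by
      intro v hv
      simp only [hZ]
      rw [hπe p hp v hv]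
    rw [sum_congr rfl h1, sum_comm]
    refine sum_congr rfl (fun j _ => ?_)
    split_ifs with hd
    · unfold ee
      push_cast
      rfl
    · simp
  have hsumB : ∑ v : V, B v ≤ q ^ 4 / 8 * n ^ 2 := by
    rw [h.sum_parts B]
    have h1 : ∀ p ∈ P, ∑ v ∈ p, B v ≤ ∑ j ∈ P, q ^ 4 / 8 * ((p.card : ℝ) * (j.card : ℝ)) := by
      intro p hp
      have h2 : ∀ v ∈ p, B v = ∑ j ∈ P,
          (if d p j ≠ 0 ∧ d p j * (j.card : ℝ) + q ^ 2 * (j.card : ℝ) < ((nb G j v).card : ℝ)
            then (j.card : ℝ) else 0) := by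
        intro v hv
        simp only [hB]
        rw [hπe p hp v hv]
      rw [sum_congr rfl h2, sum_comm]
      refine sum_le_sum (fun j hj => ?_)
      by_cases hd : d p j = 0
      · simp only [hd]
        simp only [ne_eq, not_true_eq_false, false_and, if_false, sum_const_zero]
        positivity
      · have hup := up_tail h hL hp hj hd (Finset.Subset.refl j) (s := q ^ 2) (by positivity)
        have h3 : ∑ v ∈ p, (if d p j ≠ 0 ∧ d p j * (j.card : ℝ) + q ^ 2 * (j.card : ℝ) <
            ((nb G j v).card : ℝ) then (j.card : ℝ) else 0) =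
            (j.card : ℝ) * ((p.filter (fun x => d p j * (j.card : ℝ) + q ^ 2 * (j.card : ℝ) <
              ((nb G j x).card : ℝ))).card : ℝ) := by
          rw [← sum_filter, sum_const, nsmul_eq_mul, mul_comm]
          congr 3
          refine filter_congr (fun x _ => ?_)
          exact ⟨fun hh => hh.2, fun hh => ⟨hd, hh⟩⟩
        rw [h3]
        set F : ℝ := ((p.filter (fun x => d p j * (j.card : ℝ) + q ^ 2 * (j.card : ℝ) <
              ((nb G j x).card : ℝ))).card : ℝ) with hF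
        have h4 : F ≤ q ^ 4 / 8 * p.card := by
          have hq2 : 0 < q ^ 2 := by positivity
          have h5 : q ^ 2 * F ≤ q ^ 2 * (q ^ 4 / 8 * p.card) := by
            refine hup.trans (le_of_eq (by ring))
          exact le_of_mul_le_mul_left h5 hq2
        have hj0 : (0 : ℝ) ≤ j.card := Nat.cast_nonneg _
        calc (j.card : ℝ) * F ≤ (j.card : ℝ) * (q ^ 4 / 8 * p.card) :=
              mul_le_mul_of_nonneg_left h4 hj0
          _ = q ^ 4 / 8 * ((p.card : ℝ) * (j.card : ℝ)) := by ring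
    refine (sum_le_sum h1).trans (le_of_eq ?_)
    have h6 : n ^ 2 = ∑ p ∈ P, ∑ j ∈ P, ((p.card : ℝ) * (j.card : ℝ)) := by
      rw [sq, hcard, sum_mul_sum]
    rw [h6, mul_sum]
    refine sum_congr rfl (fun p _ => ?_)
    rw [mul_sum]
  have htot : (S.card : ℝ) * (3 * q * n) ≤ (4 * q ^ 2 + q ^ 4 / 8) * n ^ 2 := by
    calc (S.card : ℝ) * (3 * q * n) = ∑ _v ∈ S, 3 * q * n := by rw [sum_const, nsmul_eq_mul]
      _ ≤ ∑ v ∈ S, (Z v + B v) := sum_le_sum hkey
      _ ≤ ∑ v : V, (Z v + B v) :=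
          sum_le_sum_of_subset_of_nonneg (subset_univ _)
            (fun v _ _ => add_nonneg (hZ0 v) (hB0 v))
      _ = ∑ v : V, Z v + ∑ v : V, B v := sum_add_distrib
      _ ≤ (4 * q ^ 2 + q ^ 4 / 8) * n ^ 2 := by linarith
  rcases hn0.eq_or_lt with h0 | hpos
  · have : S.card ≤ Fintype.card V := card_le_univ S
    have h7 : (S.card : ℝ) ≤ n := by rw [hn]; exact_mod_cast this
    rw [← h0] at h7 ⊢
    linarith
  · have h8 : (4 * q ^ 2 + q ^ 4 / 8) * n ^ 2 ≤ (3 * q * n) * (3 * q * n) := by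
      have : (4 * q ^ 2 + q ^ 4 / 8) ≤ 9 * q ^ 2 := by
        have h10 : q ^ 4 ≤ q ^ 2 := pow_le_pow_of_le_one hq0.le hq1 (by norm_num)
        nlinarith [sq_nonneg q]
      nlinarith [sq_nonneg n]
    have h9 : 0 < 3 * q * n := by positivity
    exact le_of_mul_le_mul_right (htot.trans h8) h9

end Pool.Agent.LC0bab
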