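import Pool.Agent.Lib_MP_0bab5c_co.Clusters
import Pool.Agent.Lib_MP_0bab5c_co.CutTypes
import Pool.Agent.Lib_MP_0bab5c_co.VTail

/-! # The regularity package for graphs with cuts of order at most `k` -/

namespace Pool.Agent.LC0bab

open Finset
open scoped Classical

universe u

/-- What the regularity lemma gives for a graph all of whose pairs outside `B` can be cut. -/
structure Pack {V : Type u} [Fintype V] (G : SimpleGraph V) (k : ℕ) (B : Finset V) (q : ℝ)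
    (P : Finset (Finset V)) (d : Finset V → Finset V → ℝ) (J0 : Finset (Finset V))
    (K I : Finset V → Finset (Finset V)) : Prop where
  sub : J0 ⊆ P
  cover : ∀ v : V, ∃ p ∈ P, v ∈ p
  disj : ∀ p ∈ P, ∀ q ∈ P, p ≠ q → Disjoint p q
  symm : ∀ p q, d p q = d q p
  nonneg : ∀ p q, 0 ≤ d p q
  le_one : ∀ p q, d p q ≤ 1
  subK : ∀ i ∈ J0, K i ⊆ P
  subI : ∀ i ∈ J0, I i ⊆ P
  cost : ∀ i ∈ J0, ∑ l ∈ K i, (l.card : ℝ) + ∑ j ∈ I i, (d i j) ^ 2 * ((j \ B).card : ℝ) ≤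
        k + 5 * q ^ 2 * Fintype.card V
  deg : ∀ i ∈ J0, ∑ j ∈ P, d i j * (j.card : ℝ) ≤ k + 5 * q ^ 2 * Fintype.card V +
        ∑ j ∈ I i, d i j * (1 - d i j) * ((j \ B).card : ℝ)
  sep : ∀ i ∈ J0, ∀ j ∈ I i, ∀ l ∈ P, d j l ≠ 0 → l ∈ K i
  tail : ((univ.filter (fun v : V => v ∉ B ∧ ¬ ∃ i ∈ J0, v ∈ i ∧
      ((nb G univ v).card : ℝ) ≤ ∑ j ∈ P, d i j * (j.card : ℝ) + 4 * q * Fintype.card V)).card : ℝ)
      ≤ 4 * q * Fintype.card V
  sparse : ∑ p ∈ P, ∑ r ∈ P, (if d p r = 0 then (ee G p r : ℝ) else 0) ≤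
    4 * q ^ 2 * (Fintype.card V : ℝ) ^ 2

theorem exists_pack (q : ℝ) (hq0 : 0 < q) (hq1 : q ≤ 1 / 2) :
    ∃ N0 : ℕ, ∀ (V : Type u) [Fintype V] (G : SimpleGraph V) (B : Finset V) (k : ℕ),
      N0 ≤ Fintype.card V → RC G k univ B →
      ∃ (P : Finset (Finset V)) (d : Finset V → Finset V → ℝ) (J0 : Finset (Finset V))
        (K I : Finset V → Finset (Finset V)), Pack G k B q P d J0 K I := by
  -- parameters
  have hs0 : 0 < q ^ 2 := by positivity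
  have hs1 : q ^ 2 ≤ 1 / 4 := by nlinarith
  have hε0 : 0 < q ^ 6 / 8 := by positivity
  have hεs : q ^ 6 / 8 ≤ q ^ 2 := by
    have h4 : q ^ 4 ≤ 1 := pow_le_one₀ hq0.le (by linarith)
    have : q ^ 6 = q ^ 4 * q ^ 2 := by ring
    rw [this]
    nlinarith
  have hε8 : 8 * (q ^ 6 / 8) ≤ (q ^ 2) ^ 3 := by
    have : (q ^ 2) ^ 3 = q ^ 6 := by ring
    rw [this]; linarith
  obtain ⟨L, hLbig⟩ := exists_nat_ge (2 / q ^ 2 + 2 / q ^ 6 + 2)
  have hpos6 : 0 < q ^ 6 := by positivity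
  have hL0 : (2 : ℝ) ≤ L := by
    have h1 : 0 ≤ 2 / q ^ 2 := by positivity
    have h2 : 0 ≤ 2 / q ^ 6 := by positivity
    linarith
  have hL2' : 2 ≤ q ^ 2 * L := by
    have h2 : 0 ≤ 2 / q ^ 6 := by positivity
    have h3 : 2 / q ^ 2 ≤ L := by linarith
    rw [div_le_iff₀ hs0] at h3
    linarith
  have hL6 : 2 < (q ^ 2) ^ 3 * (L : ℝ) ^ 2 := by
    have h1 : 0 ≤ 2 / q ^ 2 := by positivity
    have h3 : 2 / q ^ 6 ≤ L := by linarith
    rw [div_le_iff₀ hpos6] at h3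
    have : (q ^ 2) ^ 3 = q ^ 6 := by ring
    rw [this]
    nlinarith
  have hL1 : 1 ≤ L := by
    have : (1 : ℝ) ≤ L := by linarith
    exact_mod_cast this
  obtain ⟨N0, hN0⟩ := exists_clusters.{u} (q ^ 6 / 8) (q ^ 2) hε0 hεs (by linarith) L
  refine ⟨N0, fun V _ G B k hV hRC => ?_⟩
  obtain ⟨P, d, hC⟩ := hN0 V G hV
  set J0 : Finset (Finset V) := P.filter (fun i => q ^ 2 * (i.card : ℝ) ≤ ((i \ B).card : ℝ))
    with hJ0
  have hdata : ∀ i ∈ J0, ∃ K I : Finset (Finset V), K ⊆ P ∧ I ⊆ P ∧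
      ∑ l ∈ K, (l.card : ℝ) + ∑ j ∈ I, (d i j) ^ 2 * ((j \ B).card : ℝ) ≤
        k + 5 * q ^ 2 * Fintype.card V ∧
      ∑ j ∈ P, d i j * (j.card : ℝ) ≤ k + 5 * q ^ 2 * Fintype.card V +
        ∑ j ∈ I, d i j * (1 - d i j) * ((j \ B).card : ℝ) ∧
      ∀ j ∈ I, ∀ l ∈ P, d j l ≠ 0 → l ∈ K := by
    intro i hi
    rw [hJ0, mem_filter] at hi
    have hsz : (L : ℝ) ≤ i.card := by exact_mod_cast hC.large i hi.1
    have h2 : 2 ≤ (i \ B).card := by
      have : (2 : ℝ) ≤ ((i \ B).card : ℝ) := by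
        have := mul_le_mul_of_nonneg_left hsz hs0.le
        linarith [hi.2]
      exact_mod_cast this
    obtain ⟨x, hx, y, hy, hxy, hbad⟩ := exists_pair hC hL1 hs0 (by linarith) hε8 hε0 B hi.1 hi.2 h2
    have hxB : x ∉ B := (mem_sdiff.1 hx).2
    have hyB : y ∉ B := (mem_sdiff.1 hy).2
    exact cut_types hs0 hs1 hC hε8 hε0 (by linarith) hL6 hxB hyB hxy
      (hRC x (mem_sdiff.2 ⟨mem_univ _, hxB⟩) y (mem_sdiff.2 ⟨mem_univ _, hyB⟩) hxy) hi.1 hbad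
  choose! K I hK hI hcost hdeg hsep using hdata
  refine ⟨P, d, J0, K, I, ?_⟩
  refine ⟨filter_subset _ _, hC.cover, hC.disj, hC.symm, hC.nonneg, hC.le_one, hK, hI, hcost,
    hdeg, hsep, ?_, hC.sparse⟩
  -- tail
  have ht := vertex_tail hq0 (by linarith) hL1 hC
  set Bad1 : Finset V := univ.filter (fun v : V => ∃ i ∈ P, v ∈ i ∧
      ∑ j ∈ P, d i j * (j.card : ℝ) + 4 * q * Fintype.card V < ((nb G univ v).card : ℝ)) with hB1
  set Bad2 : Finset V := (P.filter (fun i => ¬ q ^ 2 * (i.card : ℝ) ≤ ((i \ B).card : ℝ))).biUnion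
    (fun i => i \ B) with hB2
  have hsub : (univ.filter (fun v : V => v ∉ B ∧ ¬ ∃ i ∈ J0, v ∈ i ∧
      ((nb G univ v).card : ℝ) ≤ ∑ j ∈ P, d i j * (j.card : ℝ) + 4 * q * Fintype.card V)) ⊆
      Bad1 ∪ Bad2 := by
    intro v hv
    rw [mem_filter] at hv
    obtain ⟨_, hvB, hv2⟩ := hv
    obtain ⟨i, hi, hvi⟩ := hC.cover v
    rw [mem_union]
    by_cases hi0 : i ∈ J0
    · left
      rw [hB1, mem_filter]
      refine ⟨mem_univ _, i, hi, hvi, ?_⟩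
      by_contra hcon
      exact hv2 ⟨i, hi0, hvi, not_lt.1 hcon⟩
    · right
      rw [hB2, mem_biUnion]
      refine ⟨i, ?_, mem_sdiff.2 ⟨hvi, hvB⟩⟩
      rw [mem_filter]
      refine ⟨hi, fun h => hi0 ?_⟩
      rw [hJ0, mem_filter]
      exact ⟨hi, h⟩
  have hn : (∑ i ∈ P, (i.card : ℝ)) = Fintype.card V := by
    have := hC.sum_parts (fun _ => (1 : ℝ))
    simp only [sum_const, card_univ, nsmul_eq_mul, mul_one] at this
    exact this.symm
  have hBad2 : (Bad2.card : ℝ) ≤ q ^ 2 * Fintype.card V := by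
    have h1 : (Bad2.card : ℝ) ≤
        ∑ i ∈ P.filter (fun i => ¬ q ^ 2 * (i.card : ℝ) ≤ ((i \ B).card : ℝ)),
          ((i \ B).card : ℝ) := by
      exact_mod_cast card_biUnion_le
    refine h1.trans ?_
    rw [← hn, mul_sum]
    refine (sum_le_sum (fun i hi => ?_)).trans
      (sum_le_sum_of_subset_of_nonneg (filter_subset _ _) (fun i _ _ => by positivity))
    exact (not_le.1 (mem_filter.1 hi).2).le
  have hcard : ((univ.filter (fun v : V => v ∉ B ∧ ¬ ∃ i ∈ J0, v ∈ i ∧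
      ((nb G univ v).card : ℝ) ≤ ∑ j ∈ P, d i j * (j.card : ℝ) + 4 * q * Fintype.card V)).card : ℝ)
      ≤ (Bad1.card : ℝ) + Bad2.card := by
    exact_mod_cast (card_le_card hsub).trans (card_union_le _ _)
  have hnn : (0 : ℝ) ≤ Fintype.card V := Nat.cast_nonneg _
  have hq2 : q ^ 2 * (Fintype.card V : ℝ) ≤ q * Fintype.card V := by
    refine mul_le_mul_of_nonneg_right ?_ hnn
    nlinarith
  linarith

end Pool.Agent.LC0bab
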