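import Pool.Agent.Lib_MP_0bab5c_co.ELemma
import Pool.Agent.Lib_MP_0bab5c_co.Package

/-! # The dense theorem, absolute form -/

namespace Pool.Agent.LC0bab

open Finset
open scoped Classical

universe u

/-- The parts split the complement of `B`. -/
lemma da_parts {V : Type u} [Fintype V] {P : Finset (Finset V)}
    (hc : ∀ v : V, ∃ p ∈ P, v ∈ p) (hd : ∀ p ∈ P, ∀ q ∈ P, p ≠ q → Disjoint p q)
    (B : Finset V) : ∑ p ∈ P, ((p \ B).card : ℝ) = ((univ \ B).card : ℝ) := by
  have hb : (univ \ B : Finset V) = P.biUnion (fun p => p \ B) := by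
    ext v
    simp only [mem_sdiff, mem_univ, true_and, mem_biUnion]
    constructor
    · intro hv
      obtain ⟨p, hp, hvp⟩ := hc v
      exact ⟨p, hp, hvp, hv⟩
    · rintro ⟨p, _, _, hv⟩
      exact hv
  rw [hb, card_biUnion]
  · push_cast
    rfl
  · intro p hp q hq hpq
    exact disjoint_of_subset_left sdiff_subset
      (disjoint_of_subset_right sdiff_subset (hd p hp q hq hpq))

/-- The bound from the package. -/
lemma da_pack {V : Type u} [Fintype V] {G : SimpleGraph V} {k : ℕ} {B : Finset V} {q : ℝ}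
    (hq : 0 < q) {P : Finset (Finset V)} {d : Finset V → Finset V → ℝ} {J0 : Finset (Finset V)}
    {K I : Finset V → Finset (Finset V)} (h : Pack G k B q P d J0 K I) :
    ∑ v ∈ univ \ B, ((nb G univ v).card : ℝ) ≤ k * ((univ \ B).card : ℝ) +
      (5 * q ^ 2 + 8 * q) * (Fintype.card V : ℝ) ^ 2 := by
  set n : ℝ := (Fintype.card V : ℝ) with hn
  have hn0 : 0 ≤ n := Nat.cast_nonneg _
  set D : Finset V → ℝ := fun i => ∑ j ∈ P, d i j * (j.card : ℝ) with hD
  have hD0 : ∀ i, 0 ≤ D i := fun i =>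
    sum_nonneg (fun j _ => mul_nonneg (h.nonneg i j) (Nat.cast_nonneg _))
  have hparts := da_parts h.cover h.disj B
  have hle : ((univ \ B : Finset V).card : ℝ) ≤ n := by
    have : (univ \ B : Finset V).card ≤ Fintype.card V := card_le_univ _
    rw [hn]
    exact_mod_cast this
  have hcore := weighted_core P J0 h.sub d h.symm h.nonneg h.le_one
    (fun j => (j.card : ℝ)) (fun j => ((j \ B).card : ℝ)) (fun j => Nat.cast_nonneg _)
    (fun j => by exact_mod_cast card_le_card (sdiff_subset : j \ B ⊆ j)) K I h.subI h.subK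
    (k + 5 * q ^ 2 * n) (by positivity) h.deg h.sep
    (fun i hi => by
      have e1 := h.cost i hi
      have e2 : 0 ≤ ∑ j ∈ I i, (d i j) ^ 2 * ((j \ B).card : ℝ) :=
        sum_nonneg (fun j _ => by positivity)
      linarith)
  rw [hparts] at hcore
  have hsub : ∑ i ∈ J0, ((i \ B).card : ℝ) ≤ n := by
    refine le_trans ?_ (hparts.le.trans hle)
    exact sum_le_sum_of_subset_of_nonneg h.sub (fun _ _ _ => Nat.cast_nonneg _)
  set bad : Finset V := univ.filter (fun v : V => v ∉ B ∧ ¬ ∃ i ∈ J0, v ∈ i ∧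
      ((nb G univ v).card : ℝ) ≤ ∑ j ∈ P, d i j * (j.card : ℝ) + 4 * q * Fintype.card V) with hbad
  have hbadc : (bad.card : ℝ) ≤ 4 * q * n := h.tail
  have hpt : ∀ v ∈ univ \ B, ((nb G univ v).card : ℝ) ≤
      (∑ i ∈ J0, if v ∈ i then D i + 4 * q * n else 0) + (if v ∈ bad then n else 0) := by
    intro v hv
    rw [mem_sdiff] at hv
    have hterm : ∀ i : Finset V, 0 ≤ (if v ∈ i then D i + 4 * q * n else 0) := by
      intro i
      split_ifs
      · have := hD0 i
        positivity
      · exact le_rfl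
    by_cases hg : ∃ i ∈ J0, v ∈ i ∧
      ((nb G univ v).card : ℝ) ≤ ∑ j ∈ P, d i j * (j.card : ℝ) + 4 * q * Fintype.card V
    · obtain ⟨i, hi, hvi, hle'⟩ := hg
      have e1 : (if v ∈ i then D i + 4 * q * n else 0) ≤
          ∑ i ∈ J0, (if v ∈ i then D i + 4 * q * n else 0) :=
        single_le_sum (f := fun i => if v ∈ i then D i + 4 * q * n else 0)
          (fun j _ => hterm j) hi
      rw [if_pos hvi] at e1
      have e2 : (0 : ℝ) ≤ (if v ∈ bad then n else 0) := by split_ifs <;> linarith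
      linarith
    · have hvb : v ∈ bad := by
        rw [hbad, mem_filter]
        exact ⟨mem_univ _, hv.2, hg⟩
      rw [if_pos hvb]
      have e1 : ((nb G univ v).card : ℝ) ≤ n := by
        have : (nb G univ v).card ≤ Fintype.card V := card_le_univ _
        rw [hn]
        exact_mod_cast this
      have e2 := sum_nonneg (fun i (_ : i ∈ J0) => hterm i)
      linarith
  refine (sum_le_sum hpt).trans ?_
  rw [sum_add_distrib, sum_comm]
  have e1 : ∀ i ∈ J0, ∑ v ∈ univ \ B, (if v ∈ i then D i + 4 * q * n else 0) =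
      ((i \ B).card : ℝ) * D i + 4 * q * n * ((i \ B).card : ℝ) := by
    intro i _
    rw [← sum_filter, sum_const, nsmul_eq_mul]
    have : (univ \ B).filter (fun v => v ∈ i) = i \ B := by
      ext v
      simp only [mem_filter, mem_sdiff, mem_univ, true_and]
      tauto
    rw [this]
    ring
  have e2 : ∑ v ∈ univ \ B, (if v ∈ bad then n else 0) ≤ 4 * q * n * n := by
    rw [← sum_filter, sum_const, nsmul_eq_mul]
    apply mul_le_mul_of_nonneg_right _ hn0
    refine le_trans ?_ hbadc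
    have : ((univ \ B).filter (fun v => v ∈ bad)).card ≤ bad.card := by
      apply card_le_card
      intro v hv
      exact (mem_filter.1 hv).2
    exact_mod_cast this
  rw [sum_congr rfl e1, sum_add_distrib, ← mul_sum]
  have e3 : 4 * q * n * ∑ i ∈ J0, ((i \ B).card : ℝ) ≤ 4 * q * n * n :=
    mul_le_mul_of_nonneg_left hsub (by positivity)
  have e4 : 5 * q ^ 2 * n * ((univ \ B : Finset V).card : ℝ) ≤ 5 * q ^ 2 * n * n :=
    mul_le_mul_of_nonneg_left hle (by positivity)
  nlinarith

/-- The average degree outside `B` is at most `(1+o(1)) k`. -/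
theorem dense_abs (r η : ℝ) (hη : 0 < η) : ∃ k0 : ℕ, ∀ k : ℕ, k0 ≤ k →
    ∀ (V : Type u) [Fintype V] (G : SimpleGraph V) (B : Finset V),
      (Fintype.card V : ℝ) ≤ r * k → RC G k univ B →
      ∑ v ∈ univ \ B, ((nb G univ v).card : ℝ) ≤ k * ((univ \ B).card : ℝ) + η * (k : ℝ) ^ 2 := by
  set r' : ℝ := |r| + 1 with hr'
  have hr0 : 1 ≤ r' := by
    have := abs_nonneg r
    linarith
  have hrr : r ≤ r' := by
    have := le_abs_self r
    linarith
  set q : ℝ := min (1 / 2) (η / (13 * r' ^ 2)) with hq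
  have hq0 : 0 < q := lt_min (by norm_num) (by positivity)
  have hq1 : q ≤ 1 / 2 := min_le_left _ _
  have hq2 : 13 * q * r' ^ 2 ≤ η := by
    have : q ≤ η / (13 * r' ^ 2) := min_le_right _ _
    rw [le_div_iff₀ (by positivity)] at this
    linarith
  obtain ⟨N0, hN0⟩ := exists_pack.{u} q hq0 hq1
  have hsη : 0 < √η := Real.sqrt_pos.2 hη
  refine ⟨⌈(N0 : ℝ) / √η⌉₊, fun k hk V _ G B hcard hRC => ?_⟩
  have hk' : (N0 : ℝ) / √η ≤ k := (Nat.le_ceil _).trans (by exact_mod_cast hk)
  rw [div_le_iff₀ hsη] at hk'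
  have hkn : (0 : ℝ) ≤ k := Nat.cast_nonneg _
  have hn0 : (0 : ℝ) ≤ (Fintype.card V : ℝ) := Nat.cast_nonneg _
  have hdeg : ∀ v : V, ((nb G univ v).card : ℝ) ≤ Fintype.card V := by
    intro v
    have : (nb G univ v).card ≤ Fintype.card V := card_le_univ _
    exact_mod_cast this
  rcases le_or_gt (Fintype.card V : ℝ) (k * √η) with hsmall | hbig
  · have e1 : ∑ v ∈ univ \ B, ((nb G univ v).card : ℝ) ≤
        ((univ \ B : Finset V).card : ℝ) * Fintype.card V := by
      refine (sum_le_sum (fun v _ => hdeg v)).trans (le_of_eq ?_)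
      rw [sum_const, nsmul_eq_mul]
    have e2 : ((univ \ B : Finset V).card : ℝ) ≤ Fintype.card V := by
      have : (univ \ B : Finset V).card ≤ Fintype.card V := card_le_univ _
      exact_mod_cast this
    have e3 : (Fintype.card V : ℝ) * Fintype.card V ≤ (k * √η) * (k * √η) :=
      mul_le_mul hsmall hsmall hn0 (by positivity)
    have e4 : (k * √η) * (k * √η) = η * (k : ℝ) ^ 2 := by
      have := Real.mul_self_sqrt hη.le
      nlinarith
    have e5 : ((univ \ B : Finset V).card : ℝ) * Fintype.card V ≤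
        (Fintype.card V : ℝ) * Fintype.card V := mul_le_mul_of_nonneg_right e2 hn0
    have e6 : (0 : ℝ) ≤ k * ((univ \ B : Finset V).card : ℝ) := by positivity
    linarith
  · have hN : N0 ≤ Fintype.card V := by
      have : (N0 : ℝ) ≤ Fintype.card V := hk'.trans hbig.le
      exact_mod_cast this
    obtain ⟨P, d, J0, K, I, hP⟩ := hN0 V G B k hN hRC
    have e1 := da_pack hq0 hP
    have e2 : (Fintype.card V : ℝ) ≤ r' * k :=
      hcard.trans (mul_le_mul_of_nonneg_right hrr hkn)
    have e3 : (Fintype.card V : ℝ) ^ 2 ≤ (r' * k) ^ 2 := pow_le_pow_left₀ hn0 e2 2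
    have e4 : 5 * q ^ 2 + 8 * q ≤ 13 * q := by nlinarith
    have e5 : (5 * q ^ 2 + 8 * q) * (Fintype.card V : ℝ) ^ 2 ≤ 13 * q * (r' * k) ^ 2 :=
      mul_le_mul e4 e3 (by positivity) (by positivity)
    have e6 : 13 * q * (r' * k) ^ 2 ≤ η * (k : ℝ) ^ 2 := by
      have := mul_le_mul_of_nonneg_right hq2 (sq_nonneg (k : ℝ))
      calc _ = 13 * q * r' ^ 2 * (k : ℝ) ^ 2 := by ring
        _ ≤ _ := this
    linarith

end Pool.Agent.LC0bab
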