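import Mathlib

/-! # The discharging inequality -/

namespace Pool.Agent.LC0bab

open Finset
open scoped Classical

universe u

/-- The pointwise inequality. -/
lemma discharge_pt (k η Y D : ℝ) (hk : 1000 ≤ k) (hη0 : 0 ≤ η) (hη : η ≤ 1 / 1000)
    (hY0 : 0 ≤ Y) (hYD : Y ≤ D) (hD1 : 3 / 4 * k ≤ D) (hD2 : D ≤ 7 / 5 * k) :
    4 / 5 * Y - (Y ^ 2 - Y) / (2 * (1 + η) * k) - Y * (D - k) / k ≤ 149 / 100 * k - D := by
  have hk0 : 0 < k := by linarith
  set y : ℝ := Y / k with hy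
  set e : ℝ := D / k - 1 with he
  have hYy : Y = k * y := by rw [hy]; field_simp
  have hDe : D = k * (1 + e) := by rw [he]; field_simp; ring
  have hy0 : 0 ≤ y := by positivity
  have hye : y ≤ 1 + e := by
    have : k * y ≤ k * (1 + e) := by rw [← hYy, ← hDe]; exact hYD
    exact le_of_mul_le_mul_left this hk0
  have he2 : e ≤ 2 / 5 := by
    have : k * (1 + e) ≤ k * (7 / 5) := by rw [← hDe]; linarith
    have := le_of_mul_le_mul_left this hk0
    linarith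
  have he1 : -1 / 4 ≤ e := by
    have : k * (3 / 4) ≤ k * (1 + e) := by rw [← hDe]; linarith
    have := le_of_mul_le_mul_left this hk0
    linarith
  have hy2 : y ≤ 7 / 5 := by linarith
  -- main inequality
  have hE : 1 / 100 ≤ 49 / 100 - e - 4 / 5 * y + y * e + y ^ 2 / 2 := by
    rcases le_total y 1 with h1 | h1
    · nlinarith [mul_nonneg (sub_nonneg.2 he2) (sub_nonneg.2 h1), sq_nonneg (y - 2 / 5)]
    · nlinarith [mul_nonneg (sub_nonneg.2 (show y - 1 ≤ e by linarith)) (sub_nonneg.2 h1),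
        sq_nonneg (y - 1)]
  have h1η : 0 < 1 + η := by linarith
  have hq : y ^ 2 / 2 - 1 / 500 ≤ (Y ^ 2 - Y) / (2 * (1 + η) * k) / k := by
    have e1 : (Y ^ 2 - Y) / (2 * (1 + η) * k) / k = (y ^ 2 - y / k) / (2 * (1 + η)) := by
      rw [hYy]; field_simp
    rw [e1, le_div_iff₀ (by linarith)]
    have h2 : y / k ≤ 7 / 5 / 1000 := div_le_div₀ (by norm_num) hy2 (by norm_num) hk
    have h3 : η * y ^ 2 ≤ 1 / 1000 * (7 / 5) ^ 2 :=
      mul_le_mul hη (pow_le_pow_left₀ hy0 hy2 2) (by positivity) (by norm_num)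
    nlinarith
  have hfin : (4 / 5 * Y - (Y ^ 2 - Y) / (2 * (1 + η) * k) - Y * (D - k) / k) / k ≤
      (149 / 100 * k - D) / k := by
    have e2 : (4 / 5 * Y - (Y ^ 2 - Y) / (2 * (1 + η) * k) - Y * (D - k) / k) / k =
        4 / 5 * y - (Y ^ 2 - Y) / (2 * (1 + η) * k) / k - y * e := by
      have : Y * (D - k) / k / k = y * e := by rw [hYy, hDe]; field_simp; ring
      rw [sub_div, sub_div, this]
      have : 4 / 5 * Y / k = 4 / 5 * y := by rw [hYy]; field_simp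
      rw [this]
    have e3 : (149 / 100 * k - D) / k = 49 / 100 - e := by rw [hDe]; field_simp; ring
    rw [e2, e3]
    linarith
  exact (div_le_div_iff_of_pos_right hk0).1 hfin

/-- Double counting of ordered pairs. -/
lemma discharge_dc {V : Type u} (SH L : Finset V) (T : V → Finset V)
    (hT : ∀ y ∈ SH, T y ⊆ L) :
    ∑ y ∈ SH, ∑ z ∈ SH.filter (fun z => z ≠ y ∧ (T y ∩ T z).Nonempty), ((T y ∩ T z).card : ℝ) =
      ∑ v ∈ L, (((SH.filter (fun y => v ∈ T y)).card : ℝ) ^ 2 -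
        ((SH.filter (fun y => v ∈ T y)).card : ℝ)) := by
  set c : V → V → ℝ := fun y v => if v ∈ T y then 1 else 0 with hc
  have hY : ∀ v, ((SH.filter (fun y => v ∈ T y)).card : ℝ) = ∑ y ∈ SH, c y v := by
    intro v
    rw [card_filter]
    push_cast
    rfl
  have hcard : ∀ y ∈ SH, ∀ z ∈ SH, ((T y ∩ T z).card : ℝ) = ∑ v ∈ L, c y v * c z v := by
    intro y hy z _
    have h1 : T y ∩ T z = L.filter (fun v => v ∈ T y ∧ v ∈ T z) := by
      ext v
      simp only [mem_inter, mem_filter]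
      exact ⟨fun h => ⟨hT y hy h.1, h⟩, fun h => h.2⟩
    rw [h1, card_filter]
    push_cast
    refine sum_congr rfl (fun v _ => ?_)
    simp only [hc]
    by_cases h2 : v ∈ T y <;> by_cases h3 : v ∈ T z <;> simp [h2, h3]
  have hin : ∀ y ∈ SH, ∑ z ∈ SH.filter (fun z => z ≠ y ∧ (T y ∩ T z).Nonempty),
      ((T y ∩ T z).card : ℝ) = ∑ z ∈ SH, ∑ v ∈ L, c y v * c z v - ∑ v ∈ L, c y v * c y v := by
    intro y hy
    have h1 : ∑ z ∈ SH.filter (fun z => z ≠ y ∧ (T y ∩ T z).Nonempty), ((T y ∩ T z).card : ℝ) =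
        ∑ z ∈ SH.filter (fun z => z ≠ y), ((T y ∩ T z).card : ℝ) := by
      apply sum_subset
      · intro z hz
        rw [mem_filter] at hz ⊢
        exact ⟨hz.1, hz.2.1⟩
      · intro z hz hz'
        rw [mem_filter] at hz hz'
        have h2 : ¬ (T y ∩ T z).Nonempty := fun h => hz' ⟨hz.1, hz.2, h⟩
        rw [not_nonempty_iff_eq_empty] at h2
        rw [h2]; simp
    rw [h1, filter_ne' SH y]
    rw [← hcard y hy y hy]
    have h3 : ∑ z ∈ SH, ∑ v ∈ L, c y v * c z v = ∑ z ∈ SH, ((T y ∩ T z).card : ℝ) :=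
      sum_congr rfl (fun z hz => (hcard y hy z hz).symm)
    rw [h3, ← add_sum_erase SH _ hy]
    ring
  rw [sum_congr rfl hin, sum_sub_distrib]
  have h4 : ∑ y ∈ SH, ∑ z ∈ SH, ∑ v ∈ L, c y v * c z v
      = ∑ v ∈ L, (∑ y ∈ SH, c y v) ^ 2 := by
    have : ∀ y ∈ SH, ∑ z ∈ SH, ∑ v ∈ L, c y v * c z v = ∑ v ∈ L, ∑ z ∈ SH, c y v * c z v :=
      fun y _ => sum_comm
    rw [sum_congr rfl this, sum_comm]
    refine sum_congr rfl (fun v _ => ?_)
    rw [sq, sum_mul_sum]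
  have h5 : ∑ y ∈ SH, ∑ v ∈ L, c y v * c y v = ∑ v ∈ L, ∑ y ∈ SH, c y v := by
    rw [sum_comm]
    refine sum_congr rfl (fun v _ => sum_congr rfl (fun y _ => ?_))
    simp only [hc]
    split_ifs <;> norm_num
  rw [h4, h5, ← sum_sub_distrib]
  refine sum_congr rfl (fun v _ => ?_)
  rw [hY]

/-- Exchange of the order of summation. -/
lemma discharge_swap {V : Type u} (SH L : Finset V) (T : V → Finset V)
    (hT : ∀ y ∈ SH, T y ⊆ L) (f : V → ℝ) :
    ∑ y ∈ SH, ∑ v ∈ T y, f v = ∑ v ∈ L, ((SH.filter (fun y => v ∈ T y)).card : ℝ) * f v := by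
  have h1 : ∀ y ∈ SH, ∑ v ∈ T y, f v = ∑ v ∈ L, if v ∈ T y then f v else 0 := by
    intro y hy
    rw [← sum_filter]
    congr 1
    ext v
    simp only [mem_filter]
    exact ⟨fun h => ⟨hT y hy h, h⟩, fun h => h.2⟩
  rw [sum_congr rfl h1, sum_comm]
  refine sum_congr rfl (fun v _ => ?_)
  rw [← sum_filter, sum_const, nsmul_eq_mul]

/-- Heavy vertices `SH` are paid by light vertices `L`; the heavy vertex `y` is paid by the
vertices of `T y`. -/
theorem discharge {V : Type u} (SH L : Finset V) (T : V → Finset V) (deg r : V → ℝ)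
    (k η : ℝ) (hk : 1000 ≤ k) (hη0 : 0 ≤ η) (hη : η ≤ 1 / 1000)
    (hT : ∀ y ∈ SH, T y ⊆ L)
    (h1 : ∀ y ∈ SH, deg y ≤ ((T y).card : ℝ) + η * k + r y)
    (h1a : ∀ y ∈ SH, 0 ≤ r y ∧ r y ≤ k)
    (h1b : ∀ y ∈ SH, 7 / 5 * k ≤ deg y)
    (h2 : ∀ y ∈ SH, ((SH.filter (fun z => z ≠ y ∧ (T y ∩ T z).Nonempty)).card : ℝ) ≤
      (1 + η) * k)
    (h3 : ∀ y ∈ SH, ∀ z ∈ SH, z ≠ y → (T y ∩ T z).Nonempty →
      ((T y ∩ T z).card : ℝ) ≤ k - r y ∨ ((T y ∩ T z).card : ℝ) ≤ k - r z)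
    (h4 : ∀ y ∈ SH, ∑ v ∈ T y, (deg v - k) ≤
      1 / 2 * k ^ 2 - 1 / 4 * k * ((T y).card : ℝ) + 3 / 2 * η * k ^ 2)
    (h5 : ∀ v ∈ L, 3 / 4 * k ≤ deg v ∧ deg v ≤ 7 / 5 * k)
    (h6 : ∀ v ∈ L, ((SH.filter (fun y => v ∈ T y)).card : ℝ) ≤ deg v) :
    ∑ y ∈ SH, deg y + ∑ v ∈ L, deg v ≤ 149 / 100 * k * (SH.card + L.card) := by
  have hk0 : 0 < k := by linarith
  have h1η : 0 < 1 + η := by linarith
  set Y : V → ℝ := fun v => ((SH.filter (fun y => v ∈ T y)).card : ℝ) with hY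
  set N : V → Finset V := fun y => SH.filter (fun z => z ≠ y ∧ (T y ∩ T z).Nonempty) with hN
  -- (1)
  have hdc := discharge_dc SH L T hT
  have hpair : ∑ v ∈ L, (Y v ^ 2 - Y v) ≤ 2 * (1 + η) * k * ∑ y ∈ SH, (k - r y) := by
    have hsym : ∑ y ∈ SH, ∑ z ∈ N y, (k - r z) = ∑ y ∈ SH, ∑ z ∈ N y, (k - r y) := by
      have e1 : ∀ y ∈ SH, ∑ z ∈ N y, (k - r z) =
          ∑ z ∈ SH, if z ≠ y ∧ (T y ∩ T z).Nonempty then k - r z else 0 := fun y _ => by
        rw [← sum_filter]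
      have e2 : ∀ y ∈ SH, ∑ z ∈ N y, (k - r y) =
          ∑ z ∈ SH, if z ≠ y ∧ (T y ∩ T z).Nonempty then k - r y else 0 := fun y _ => by
        rw [← sum_filter]
      rw [sum_congr rfl e1, sum_congr rfl e2, sum_comm]
      refine sum_congr rfl (fun z _ => sum_congr rfl (fun y _ => ?_))
      have : (z ≠ y ∧ (T y ∩ T z).Nonempty) ↔ (y ≠ z ∧ (T z ∩ T y).Nonempty) := by
        rw [inter_comm (T y) (T z)]
        exact ⟨fun h => ⟨h.1.symm, h.2⟩, fun h => ⟨h.1.symm, h.2⟩⟩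
      by_cases h : z ≠ y ∧ (T y ∩ T z).Nonempty
      · rw [if_pos h, if_pos (this.1 h)]
      · rw [if_neg h, if_neg (fun h' => h (this.2 h'))]
    have e3 : ∑ y ∈ SH, ∑ z ∈ N y, ((T y ∩ T z).card : ℝ) ≤
        ∑ y ∈ SH, ∑ z ∈ N y, ((k - r y) + (k - r z)) := by
      refine sum_le_sum (fun y hy => sum_le_sum (fun z hz => ?_))
      rw [hN, mem_filter] at hz
      have a1 := h1a y hy
      have a2 := h1a z hz.1
      rcases h3 y hy z hz.1 hz.2.1 hz.2.2 with h | h <;> linarith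
    have e4 : ∑ y ∈ SH, ∑ z ∈ N y, ((k - r y) + (k - r z)) =
        2 * ∑ y ∈ SH, ∑ z ∈ N y, (k - r y) := by
      have : ∀ y ∈ SH, ∑ z ∈ N y, ((k - r y) + (k - r z)) =
          ∑ z ∈ N y, (k - r y) + ∑ z ∈ N y, (k - r z) := fun y _ => sum_add_distrib
      rw [sum_congr rfl this, sum_add_distrib, hsym]
      ring
    have e5 : ∑ y ∈ SH, ∑ z ∈ N y, (k - r y) ≤ ∑ y ∈ SH, (1 + η) * k * (k - r y) := by
      refine sum_le_sum (fun y hy => ?_)
      rw [sum_const, nsmul_eq_mul]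
      exact mul_le_mul_of_nonneg_right (h2 y hy) (by linarith [(h1a y hy).2])
    rw [← hdc]
    rw [← mul_sum] at e5
    calc _ ≤ _ := e3
      _ = _ := e4
      _ ≤ 2 * ((1 + η) * k * ∑ y ∈ SH, (k - r y)) := by linarith
      _ = _ := by ring
  -- (2)
  have hy2 : ∀ y ∈ SH, deg y - 149 / 100 * k ≤
      ∑ v ∈ T y, (4 / 5 : ℝ) - (k - r y) - (∑ v ∈ T y, (deg v - k)) / k := by
    intro y hy
    have a1 := h1 y hy
    have a2 := h1a y hy
    have a3 := h1b y hy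
    have a4 := h4 y hy
    set t : ℝ := ((T y).card : ℝ) with ht
    have a5 : (∑ v ∈ T y, (deg v - k)) / k ≤ 1 / 2 * k - 1 / 4 * t + 3 / 2 * η * k := by
      rw [div_le_iff₀ hk0]
      refine a4.trans (le_of_eq ?_)
      ring
    have a6 : ∑ v ∈ T y, (4 / 5 : ℝ) = 4 / 5 * t := by
      rw [sum_const, nsmul_eq_mul]; ring
    rw [a6]
    have a7 : η * k ≤ 1 / 1000 * k := mul_le_mul_of_nonneg_right hη hk0.le
    linarith
  have hsum := sum_le_sum hy2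
  rw [sum_sub_distrib, sum_sub_distrib, sum_sub_distrib, ← sum_div,
    discharge_swap SH L T hT (fun _ => (4 / 5 : ℝ)), discharge_swap SH L T hT (fun v => deg v - k),
    sum_const, nsmul_eq_mul] at hsum
  have hkr : (∑ v ∈ L, (Y v ^ 2 - Y v)) / (2 * (1 + η) * k) ≤ ∑ y ∈ SH, (k - r y) := by
    rw [div_le_iff₀ (by positivity)]
    linarith
  rw [sum_div] at hkr
  have hpt : ∑ v ∈ L, (4 / 5 * Y v - (Y v ^ 2 - Y v) / (2 * (1 + η) * k) -
      Y v * (deg v - k) / k) ≤ ∑ v ∈ L, (149 / 100 * k - deg v) := by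
    refine sum_le_sum (fun v hv => ?_)
    exact discharge_pt k η (Y v) (deg v) hk hη0 hη (by positivity) (h6 v hv) (h5 v hv).1
      (h5 v hv).2
  rw [sum_sub_distrib, sum_sub_distrib, sum_sub_distrib, sum_const, nsmul_eq_mul,
    ← sum_div, ← mul_sum] at hpt
  have e6 : ∑ v ∈ L, Y v * (4 / 5 : ℝ) = 4 / 5 * ∑ v ∈ L, Y v := by
    rw [← sum_mul]; ring
  have e7 : ∑ v ∈ L, ((SH.filter (fun y => v ∈ T y)).card : ℝ) * (4 / 5 : ℝ) =
    4 / 5 * ∑ v ∈ L, Y v := e6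
  have e8 : ∑ v ∈ L, ((SH.filter (fun y => v ∈ T y)).card : ℝ) * (deg v - k) =
    ∑ v ∈ L, Y v * (deg v - k) := rfl
  rw [e7, e8] at hsum
  have e9 : ∑ v ∈ L, (Y v ^ 2 - Y v) / (2 * (1 + η) * k) = (∑ v ∈ L, (Y v ^ 2 - Y v)) / (2 * (1 + η) * k) :=
    (sum_div _ _ _).symm
  have e10 : ∑ v ∈ L, Y v * (deg v - k) / k = (∑ v ∈ L, Y v * (deg v - k)) / k :=
    (sum_div _ _ _).symm
  linarith

end Pool.Agent.LC0bab
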