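import Mathlib

/-! # A weighted counting lemma (heavy parts are paid by light parts) -/

namespace Pool.Agent.LC0bab

open Finset

/-- `D i = ∑ d i j w j`.  If every `i ∈ J0` has `D i ≤ c + ∑_{j ∈ I i} d(1-d) u j`, all reduced
neighbours of every `j ∈ I i` lie in `K i`, and `K i` has weight at most `c`, then
`∑_{i ∈ J0} u i * D i ≤ c * ∑_{i ∈ J} u i`. -/
theorem weighted_core {ι : Type*} [DecidableEq ι] (J J0 : Finset ι) (hJ0 : J0 ⊆ J)
    (d : ι → ι → ℝ) (hsymm : ∀ i j, d i j = d j i) (h0 : ∀ i j, 0 ≤ d i j)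
    (h1 : ∀ i j, d i j ≤ 1) (w u : ι → ℝ) (hu0 : ∀ i, 0 ≤ u i) (huw : ∀ i, u i ≤ w i)
    (K I : ι → Finset ι) (hI : ∀ i ∈ J0, I i ⊆ J) (hK : ∀ i ∈ J0, K i ⊆ J) (c : ℝ) (hc : 0 ≤ c)
    (hD : ∀ i ∈ J0, ∑ j ∈ J, d i j * w j ≤ c + ∑ j ∈ I i, d i j * (1 - d i j) * u j)
    (hN : ∀ i ∈ J0, ∀ j ∈ I i, ∀ l ∈ J, d j l ≠ 0 → l ∈ K i)
    (hKc : ∀ i ∈ J0, ∑ l ∈ K i, w l ≤ c) :
    ∑ i ∈ J0, u i * ∑ j ∈ J, d i j * w j ≤ c * ∑ i ∈ J, u i := by
  classical
  set D : ι → ℝ := fun i => ∑ j ∈ J, d i j * w j with hDdef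
  have hw0 : ∀ i, 0 ≤ w i := fun i => (hu0 i).trans (huw i)
  set Hv : Finset ι := J0.filter (fun i => c < D i) with hHv
  -- payment received by `j`
  set Pay : ι → ℝ := fun j => ∑ i ∈ Hv.filter (fun i => j ∈ I i), u i * (d i j * (1 - d i j))
    with hPay
  have hPay0 : ∀ j, 0 ≤ Pay j := fun j => sum_nonneg (fun i _ =>
    mul_nonneg (hu0 i) (mul_nonneg (h0 i j) (by linarith [h1 i j])))
  have key : ∀ j ∈ J, (∃ i ∈ Hv, j ∈ I i) → D j + Pay j ≤ c := by
    rintro j hj ⟨i, hi, hji⟩
    have hi0 : i ∈ J0 := (mem_filter.1 hi).1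
    have e1 : Pay j ≤ ∑ l ∈ J, w l * (d j l * (1 - d j l)) := by
      have : Pay j ≤ ∑ l ∈ Hv.filter (fun i => j ∈ I i), w l * (d j l * (1 - d j l)) := by
        refine sum_le_sum (fun l _ => ?_)
        rw [hsymm l j]
        exact mul_le_mul_of_nonneg_right (huw l)
          (mul_nonneg (h0 j l) (by linarith [h1 j l]))
      refine this.trans (sum_le_sum_of_subset_of_nonneg ?_ (fun l _ _ =>
        mul_nonneg (hw0 l) (mul_nonneg (h0 j l) (by linarith [h1 j l]))))
      exact (filter_subset _ _).trans ((filter_subset _ _).trans hJ0)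
    have e2 : D j + Pay j ≤ ∑ l ∈ J, w l * (d j l * (2 - d j l)) := by
      have : D j + ∑ l ∈ J, w l * (d j l * (1 - d j l)) = ∑ l ∈ J, w l * (d j l * (2 - d j l)) := by
        rw [hDdef]
        simp only
        rw [← sum_add_distrib]
        exact sum_congr rfl (fun l _ => by ring)
      linarith
    have e3 : ∑ l ∈ J, w l * (d j l * (2 - d j l)) ≤ ∑ l ∈ K i, w l := by
      rw [← sum_filter_add_sum_filter_not J (fun l => l ∈ K i)]
      have z : ∑ l ∈ J.filter (fun l => l ∉ K i), w l * (d j l * (2 - d j l)) = 0 := by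
        refine sum_eq_zero (fun l hl => ?_)
        rw [mem_filter] at hl
        have : d j l = 0 := by
          by_contra hne
          exact hl.2 (hN i hi0 j hji l hl.1 hne)
        rw [this]; ring
      rw [z, add_zero]
      have hf : J.filter (fun l => l ∈ K i) = K i := by
        ext l
        simp only [mem_filter, and_iff_right_iff_imp]
        exact fun h => hK i hi0 h
      rw [hf]
      refine sum_le_sum (fun l _ => ?_)
      have : d j l * (2 - d j l) ≤ 1 := by nlinarith [sq_nonneg (1 - d j l)]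
      nlinarith [hw0 l]
    linarith [hKc i hi0]
  -- heavy parts are not in any `I i`
  have hheavy : ∀ j ∈ Hv, Pay j = 0 := by
    intro j hj
    rw [mem_filter] at hj
    have : ¬ ∃ i ∈ Hv, j ∈ I i := by
      intro h
      have := key j (hJ0 hj.1) h
      linarith [hPay0 j]
    refine sum_eq_zero (fun i hi => ?_)
    rw [mem_filter] at hi
    exact absurd ⟨i, hi.1, hi.2⟩ this
  have hPayle : ∀ j ∈ J, 0 ≤ c → Pay j ≤ c := by
    intro j hj hc
    by_cases h : ∃ i ∈ Hv, j ∈ I i
    · have := key j hj h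
      have : 0 ≤ D j := sum_nonneg (fun l _ => mul_nonneg (h0 j l) (hw0 l))
      linarith [key j hj h]
    · have : Pay j = 0 := by
        refine sum_eq_zero (fun i hi => ?_)
        rw [mem_filter] at hi
        exact absurd ⟨i, hi.1, hi.2⟩ h
      rw [this]; exact hc
  -- sum over heavy parts
  have s1 : ∑ i ∈ Hv, u i * D i ≤ ∑ i ∈ Hv, u i * c + ∑ j ∈ J, u j * Pay j := by
    have a1 : ∑ i ∈ Hv, u i * D i ≤
        ∑ i ∈ Hv, (u i * c + ∑ j ∈ I i, u i * (d i j * (1 - d i j)) * u j) := by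
      refine sum_le_sum (fun i hi => ?_)
      have := hD i (mem_filter.1 hi).1
      have h2 := mul_le_mul_of_nonneg_left this (hu0 i)
      refine h2.trans (le_of_eq ?_)
      rw [mul_add, mul_sum]
      congr 1
      exact sum_congr rfl (fun j _ => by ring)
    rw [sum_add_distrib] at a1
    refine a1.trans (le_of_eq ?_)
    congr 1
    have a2 : ∀ i ∈ Hv, ∑ j ∈ I i, u i * (d i j * (1 - d i j)) * u j =
        ∑ j ∈ J, if j ∈ I i then u i * (d i j * (1 - d i j)) * u j else 0 := by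
      intro i hi
      rw [← sum_filter]
      congr 1
      ext j
      simp only [mem_filter]
      exact ⟨fun h => ⟨hI i (mem_filter.1 hi).1 h, h⟩, fun h => h.2⟩
    rw [sum_congr rfl a2, sum_comm]
    refine sum_congr rfl (fun j _ => ?_)
    have hp : Pay j = ∑ i ∈ Hv, if j ∈ I i then u i * (d i j * (1 - d i j)) else 0 := by
      rw [hPay]
      simp only
      rw [sum_filter]
    rw [hp, mul_sum]
    refine sum_congr rfl (fun i _ => ?_)
    split_ifs
    · ring
    · ring
  have s2 : ∑ i ∈ J0, u i * D i = ∑ i ∈ Hv, u i * D i +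
      ∑ i ∈ J0.filter (fun i => ¬ c < D i), u i * D i :=
    (sum_filter_add_sum_filter_not J0 _ _).symm
  have s3 : ∑ j ∈ J, u j * Pay j + ∑ i ∈ Hv, u i * c +
      ∑ i ∈ J0.filter (fun i => ¬ c < D i), u i * D i ≤ ∑ j ∈ J, u j * c := by
    have b1 : ∑ i ∈ Hv, u i * c = ∑ j ∈ J, if j ∈ Hv then u j * c else 0 := by
      rw [← sum_filter]
      congr 1
      ext j
      simp only [mem_filter]
      exact ⟨fun h => ⟨hJ0 (mem_filter.1 h).1, h⟩, fun h => h.2⟩
    have b2 : ∑ i ∈ J0.filter (fun i => ¬ c < D i), u i * D i =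
        ∑ j ∈ J, if j ∈ J0.filter (fun i => ¬ c < D i) then u j * D j else 0 := by
      rw [← sum_filter]
      congr 1
      ext j
      simp only [mem_filter]
      exact ⟨fun h => ⟨hJ0 h.1, h⟩, fun h => h.2⟩
    rw [b1, b2, ← sum_add_distrib, ← sum_add_distrib]
    refine sum_le_sum (fun j hj => ?_)
    by_cases h1' : j ∈ Hv
    · have h2' : j ∉ J0.filter (fun i => ¬ c < D i) := by
        rw [mem_filter]
        rintro ⟨_, h⟩
        exact h (mem_filter.1 h1').2
      rw [if_pos h1', if_neg h2', hheavy j h1']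
      simp
    · rw [if_neg h1']
      by_cases h2' : j ∈ J0.filter (fun i => ¬ c < D i)
      · rw [if_pos h2']
        have hDj : D j ≤ c := not_lt.1 (mem_filter.1 h2').2
        have : D j + Pay j ≤ c := by
          by_cases h : ∃ i ∈ Hv, j ∈ I i
          · exact key j hj h
          · have : Pay j = 0 := by
              refine sum_eq_zero (fun i hi => ?_)
              rw [mem_filter] at hi
              exact absurd ⟨i, hi.1, hi.2⟩ h
            rw [this]; linarith
        nlinarith [hu0 j]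
      · rw [if_neg h2']
        have := mul_le_mul_of_nonneg_left (hPayle j hj hc) (hu0 j)
        linarith
  rw [mul_sum]
  have s4 : ∑ i ∈ J, c * u i = ∑ j ∈ J, u j * c := sum_congr rfl (fun _ _ => mul_comm _ _)
  rw [s4, s2]
  linarith

end Pool.Agent.LC0bab
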