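import Pool.Agent.Lib_MP_0bab5c_co.HeavyAbs
import Pool.Agent.Lib_MP_0bab5c_co.Transfer

/-! # Few heavy vertices, relative form -/

namespace Pool.Agent.LC0bab

open Finset
open scoped Classical

universe u

/-- `heavy_abs` with the complement of `B` given by its members. -/
theorem heavy_abs' {r η : ℝ} {k : ℕ} (h : ∀ (V : Type u) [Fintype V] (G : SimpleGraph V)
    (B : Finset V), (Fintype.card V : ℝ) ≤ r * k → RC G k univ B → RC G k univ ∅ →
      (∀ X : Finset V, Disjoint X B →
        3 / 2 * (k : ℝ) * X.card ≤ (e2 G univ : ℝ) - e2 G (univ \ X)) →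
      (((univ \ B).filter (fun v => 7 / 5 * (k : ℝ) ≤ ((nb G univ v).card : ℝ))).card : ℝ) ≤
        η * k)
    (V : Type u) [Fintype V] (G : SimpleGraph V) (B C : Finset V)
    (hC : ∀ v, v ∈ C ↔ v ∉ B ∧ 7 / 5 * (k : ℝ) ≤ ((nb G univ v).card : ℝ))
    (hn : (Fintype.card V : ℝ) ≤ r * k) (hRC : RC G k univ B) (hRC0 : RC G k univ ∅)
    (hX : ∀ X D : Finset V, Disjoint X B → (∀ v, v ∈ D ↔ v ∉ X) →
        3 / 2 * (k : ℝ) * X.card ≤ (e2 G univ : ℝ) - e2 G D) :
    (C.card : ℝ) ≤ η * k := by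
  have e : (univ \ B).filter (fun v => 7 / 5 * (k : ℝ) ≤ ((nb G univ v).card : ℝ)) = C := by
    ext v
    rw [mem_filter, mem_sdiff, hC]
    simp
  have h' := h V G B hn hRC hRC0 (fun X hXB => hX X (univ \ X) hXB (fun v => by simp))
  rw [e] at h'
  exact h'

theorem heavy_rel (r η : ℝ) (hη : 0 < η) : ∃ k0 : ℕ, ∀ k : ℕ, k0 ≤ k →
    ∀ (V : Type u) (G : SimpleGraph V) (W B : Finset V), B ⊆ W →
      (W.card : ℝ) ≤ r * k → RC G k W B → RC G k W ∅ →
      (∀ X ⊆ W \ B, 3 / 2 * (k : ℝ) * X.card ≤ (e2 G W : ℝ) - e2 G (W \ X)) →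
      (((W \ B).filter (fun v => 7 / 5 * (k : ℝ) ≤ ((nb G W v).card : ℝ))).card : ℝ) ≤
        η * k := by
  obtain ⟨k0, hk0⟩ := heavy_abs.{u} r η hη
  refine ⟨k0, fun k hk V G W B _ hW hRC hRC0 hX => ?_⟩
  have hcard : Fintype.card {v // v ∈ W} = W.card := Fintype.card_coe W
  have h0 : pull W (∅ : Finset V) = ∅ := by ext v; simp [mem_pull]
  have hrc0 : RC (sub G W) k univ ∅ := by
    have := rc_pull hRC0
    rwa [h0] at this
  have hdeg : ∀ v : {v // v ∈ W}, (nb (sub G W) univ v).card = (nb G W v).card := by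
    intro v
    rw [← pull_self W, nb_pull G (subset_refl W)]
  have h := heavy_abs' (hk0 k hk) {v // v ∈ W} (sub G W) (pull W B)
    (pull W ((W \ B).filter (fun v => 7 / 5 * (k : ℝ) ≤ ((nb G W v).card : ℝ))))
    (fun v => by
      rw [mem_pull, mem_pull, mem_filter, mem_sdiff, hdeg]
      exact ⟨fun h => ⟨h.1.2, h.2⟩, fun h => ⟨⟨v.2, h.1⟩, h.2⟩⟩)
    (by rw [hcard]; exact hW) (rc_pull hRC) hrc0 (by
      intro X' D' hX' hD'
      set X : Finset V := X'.map (Function.Embedding.subtype _) with hXdef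
      have hXW : X ⊆ W := by
        intro v hv
        rw [hXdef, mem_map] at hv
        obtain ⟨a, _, rfl⟩ := hv
        exact a.2
      have hpX : pull W X = X' := by
        ext v
        rw [mem_pull, hXdef, mem_map]
        constructor
        · rintro ⟨a, ha, hav⟩
          have : a = v := Subtype.ext hav
          rwa [← this]
        · intro hv
          exact ⟨v, hv, rfl⟩
      have hXB : X ⊆ W \ B := by
        intro v hv
        rw [mem_sdiff]
        refine ⟨hXW hv, fun hvB => ?_⟩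
        have hv' : (⟨v, hXW hv⟩ : {v // v ∈ W}) ∈ X' := by
          rw [← hpX, mem_pull]; exact hv
        exact (disjoint_left.1 hX') hv' (mem_pull.2 hvB)
      have hDD : D' = pull W (W \ X) := by
        ext v
        rw [hD', mem_pull, mem_sdiff, ← hpX, mem_pull]
        exact ⟨fun h => ⟨v.2, h⟩, fun h => h.2⟩
      have e := hX X hXB
      have c1 : X'.card = X.card := by rw [hXdef, card_map]
      have c2 : e2 (sub G W) univ = e2 G W := by
        rw [← pull_self W, e2_pull G (subset_refl W)]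
      have c3 : e2 (sub G W) D' = e2 G (W \ X) := by
        rw [hDD, e2_pull G (W := W) (sdiff_subset : W \ X ⊆ W)]
      rw [c1, c2, c3]
      exact e)
  rw [pull_card ((filter_subset _ _).trans sdiff_subset)] at h
  exact h

end Pool.Agent.LC0bab
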