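import Pool.Agent.Lib_MP_0bab5c_co.Package
import Pool.Agent.Lib_MP_0bab5c_co.Dense
import Pool.Agent.Lib_MP_0bab5c_co.Cuts

/-! # Few heavy vertices, absolute form -/

namespace Pool.Agent.LC0bab

open Finset
open scoped Classical

universe u

section aux

variable {V : Type u} {G : SimpleGraph V}

lemma ee_union_left_le (X X' Z : Finset V) : ee G (X ∪ X') Z ≤ ee G X Z + ee G X' Z := by
  unfold ee
  rw [← sum_union_inter]
  exact Nat.le_add_right _ _

lemma ee_union_right_le (X Z Z' : Finset V) : ee G X (Z ∪ Z') ≤ ee G X Z + ee G X Z' := by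
  rw [ee_comm X, ee_comm X, ee_comm X]
  exact ee_union_left_le _ _ _

lemma ee_biUnion_left_le {ι : Type*} (I : Finset ι) (f : ι → Finset V) (Z : Finset V) :
    ee G (I.biUnion f) Z ≤ ∑ i ∈ I, ee G (f i) Z := by
  induction I using Finset.induction_on with
  | empty => simp [ee]
  | insert a s ha ih =>
    rw [biUnion_insert, sum_insert ha]
    exact (ee_union_left_le _ _ _).trans (by omega)

lemma ee_biUnion_right_le {ι : Type*} (X : Finset V) (I : Finset ι) (f : ι → Finset V) :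
    ee G X (I.biUnion f) ≤ ∑ i ∈ I, ee G X (f i) := by
  rw [ee_comm]
  refine (ee_biUnion_left_le _ _ _).trans (le_of_eq ?_)
  exact sum_congr rfl (fun i _ => ee_comm _ _)

/-- The edges at `X` compared with the edges inside `X ∪ Y`. -/
lemma e2_touch [Fintype V] (X Y : Finset V) :
    e2 G univ ≤ e2 G (univ \ X) + e2 G (X ∪ Y) + 2 * ee G X (univ \ (X ∪ Y)) := by
  have h1 : e2 G univ = ee G X univ + ee G (univ \ X) univ := by
    unfold e2
    rw [← ee_union_left disjoint_sdiff, union_sdiff_of_subset (subset_univ _)]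
  have h2 : ee G (univ \ X) univ = ee G (univ \ X) X + e2 G (univ \ X) := by
    unfold e2
    rw [← ee_union_right disjoint_sdiff, union_sdiff_of_subset (subset_univ _)]
  have h3 : ee G X univ = ee G X (X ∪ Y) + ee G X (univ \ (X ∪ Y)) := by
    rw [← ee_union_right disjoint_sdiff, union_sdiff_of_subset (subset_univ _)]
  have h4 : ee G X (univ \ X) ≤ ee G X ((X ∪ Y) \ X) + ee G X (univ \ (X ∪ Y)) := by
    refine le_trans (ee_mono (subset_refl _) ?_) (ee_union_right_le _ _ _)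
    intro v hv
    simp only [mem_sdiff, mem_univ, true_and, mem_union] at hv ⊢
    tauto
  have h5 : ee G (univ \ X) X = ee G X (univ \ X) := ee_comm _ _
  have h6 : e2 G (X ∪ Y) = ee G X (X ∪ Y) + ee G ((X ∪ Y) \ X) (X ∪ Y) := by
    unfold e2
    rw [← ee_union_left disjoint_sdiff, union_sdiff_of_subset subset_union_left]
  have h7 : ee G X ((X ∪ Y) \ X) ≤ ee G ((X ∪ Y) \ X) (X ∪ Y) := by
    rw [ee_comm]
    exact ee_mono (subset_refl _) subset_union_left
  omega

lemma quad_ineq (d : ℝ) : d * (1 - d) ≤ 37 / 100 * (1 / 2 + d ^ 2) := by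
  nlinarith [sq_nonneg (d - 50 / 137)]

end aux

/-- The estimate for one part of a package. -/
lemma heavy_part {V : Type u} [Fintype V] {G : SimpleGraph V} {k : ℕ} {B : Finset V} {q : ℝ}
    {P : Finset (Finset V)} {d : Finset V → Finset V → ℝ} {J0 : Finset (Finset V)}
    {K I : Finset V → Finset (Finset V)} (hP : Pack G k B q P d J0 K I) (ε : ℝ)
    (hk : 0 < k)
    (hdense : ∀ W : Finset V, (e2 G W : ℝ) ≤ k * (W.card : ℝ) + ε * (k : ℝ) ^ 2)
    (hX : ∀ X : Finset V, Disjoint X B →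
        3 / 2 * (k : ℝ) * X.card ≤ (e2 G univ : ℝ) - e2 G (univ \ X))
    {i : Finset V} (hi : i ∈ J0) :
    ∑ j ∈ P, d i j * (j.card : ℝ) ≤ 137 / 100 * (k + 5 * q ^ 2 * Fintype.card V) +
      37 / 100 * (ε * k + 8 * q ^ 2 * (Fintype.card V : ℝ) ^ 2 / k) := by
  have hk' : (0 : ℝ) < k := by exact_mod_cast hk
  set n : ℝ := ((Fintype.card V : ℕ) : ℝ) with hn
  set X : Finset V := (I i).biUnion (fun j => j \ B) with hXdef
  set Y : Finset V := (K i).biUnion id with hYdef
  have hXB : Disjoint X B := by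
    rw [hXdef, disjoint_biUnion_left]
    intro j _
    exact sdiff_disjoint
  have hXcard : (X.card : ℝ) = ∑ j ∈ I i, ((j \ B).card : ℝ) := by
    rw [hXdef, card_biUnion]
    · push_cast
      rfl
    · intro a ha b hb hab
      exact disjoint_of_subset_left sdiff_subset (disjoint_of_subset_right sdiff_subset
        (hP.disj a (hP.subI i hi ha) b (hP.subI i hi hb) hab))
  have hYcard : (Y.card : ℝ) ≤ ∑ l ∈ K i, (l.card : ℝ) := by
    have : Y.card ≤ ∑ l ∈ K i, (id l).card := card_biUnion_le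
    exact_mod_cast this
  have hrest : (ee G X (univ \ (X ∪ Y)) : ℝ) ≤ 4 * q ^ 2 * n ^ 2 := by
    refine le_trans ?_ hP.sparse
    have hsub : univ \ (X ∪ Y) ⊆ (P \ K i).biUnion id := by
      intro v hv
      obtain ⟨p, hp, hvp⟩ := hP.cover v
      rw [mem_biUnion]
      refine ⟨p, mem_sdiff.2 ⟨hp, ?_⟩, hvp⟩
      intro hpK
      have : v ∈ Y := by
        rw [hYdef, mem_biUnion]
        exact ⟨p, hpK, hvp⟩
      simp only [mem_sdiff, mem_univ, true_and, mem_union, not_or] at hv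
      exact hv.2 this
    have h1 : ee G X (univ \ (X ∪ Y)) ≤ ∑ j ∈ I i, ∑ l ∈ P \ K i, ee G j l := by
      refine (ee_mono (subset_refl _) hsub).trans ?_
      refine (ee_biUnion_left_le _ _ _).trans ?_
      refine sum_le_sum (fun j _ => ?_)
      refine (ee_biUnion_right_le _ _ _).trans ?_
      exact sum_le_sum (fun l _ => ee_mono sdiff_subset (subset_refl _))
    have h2 : (ee G X (univ \ (X ∪ Y)) : ℝ) ≤ ∑ j ∈ I i, ∑ l ∈ P \ K i, (ee G j l : ℝ) := by
      exact_mod_cast h1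
    refine h2.trans ?_
    have h3 : ∀ j ∈ I i, ∑ l ∈ P \ K i, (ee G j l : ℝ) ≤
        ∑ l ∈ P, (if d j l = 0 then (ee G j l : ℝ) else 0) := by
      intro j hj
      have h4 : ∑ l ∈ P \ K i, (ee G j l : ℝ) =
          ∑ l ∈ P \ K i, (if d j l = 0 then (ee G j l : ℝ) else 0) := by
        refine sum_congr rfl (fun l hl => ?_)
        rw [mem_sdiff] at hl
        have h0 : d j l = 0 := by
          by_contra hne
          exact hl.2 (hP.sep i hi j hj l hl.1 hne)
        rw [if_pos h0]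
      rw [h4]
      refine sum_le_sum_of_subset_of_nonneg sdiff_subset (fun l _ _ => ?_)
      split_ifs
      · exact Nat.cast_nonneg _
      · exact le_refl _
    refine (sum_le_sum h3).trans ?_
    refine sum_le_sum_of_subset_of_nonneg (hP.subI i hi) (fun j _ _ => sum_nonneg (fun l _ => ?_))
    split_ifs
    · exact Nat.cast_nonneg _
    · exact le_refl _
  have htouch : (e2 G univ : ℝ) ≤ e2 G (univ \ X) + e2 G (X ∪ Y) +
      2 * ee G X (univ \ (X ∪ Y)) := by
    exact_mod_cast e2_touch X Y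
  have hXY : ((X ∪ Y).card : ℝ) ≤ X.card + Y.card := by
    exact_mod_cast card_union_le X Y
  have hd := hdense (X ∪ Y)
  have hx := hX X hXB
  have hmain : 3 / 2 * (k : ℝ) * X.card ≤ k * ((X.card : ℝ) + Y.card) + ε * (k : ℝ) ^ 2 +
      8 * q ^ 2 * n ^ 2 := by
    have : (k : ℝ) * ((X ∪ Y).card : ℝ) ≤ k * ((X.card : ℝ) + Y.card) :=
      mul_le_mul_of_nonneg_left hXY hk'.le
    linarith
  have hhalf : 1 / 2 * (X.card : ℝ) ≤ Y.card + (ε * k + 8 * q ^ 2 * n ^ 2 / k) := by
    have h1 : (k : ℝ) * (1 / 2 * (X.card : ℝ)) ≤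
        k * (Y.card + (ε * k + 8 * q ^ 2 * n ^ 2 / k)) := by
      have h2 : (k : ℝ) * (8 * q ^ 2 * n ^ 2 / k) = 8 * q ^ 2 * n ^ 2 := by
        field_simp
      nlinarith
    exact le_of_mul_le_mul_left h1 hk'
  have hcost := hP.cost i hi
  have hsum : ∑ j ∈ I i, (1 / 2 + (d i j) ^ 2) * ((j \ B).card : ℝ) ≤
      k + 5 * q ^ 2 * n + (ε * k + 8 * q ^ 2 * n ^ 2 / k) := by
    have h1 : ∑ j ∈ I i, (1 / 2 + (d i j) ^ 2) * ((j \ B).card : ℝ) =
        1 / 2 * (X.card : ℝ) + ∑ j ∈ I i, (d i j) ^ 2 * ((j \ B).card : ℝ) := by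
      rw [hXcard, mul_sum, ← sum_add_distrib]
      exact sum_congr rfl (fun j _ => by ring)
    rw [h1]
    linarith
  have hdd : ∑ j ∈ I i, d i j * (1 - d i j) * ((j \ B).card : ℝ) ≤
      37 / 100 * (k + 5 * q ^ 2 * n + (ε * k + 8 * q ^ 2 * n ^ 2 / k)) := by
    refine le_trans ?_ (mul_le_mul_of_nonneg_left hsum (by norm_num))
    rw [mul_sum]
    refine sum_le_sum (fun j _ => ?_)
    have := mul_le_mul_of_nonneg_right (quad_ineq (d i j))
      (Nat.cast_nonneg (α := ℝ) (j \ B).card)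
    linarith
  have hdeg := hP.deg i hi
  linarith

/-- If moreover every set outside `B` is incident with many edges, there are few vertices of
degree at least `1.4 k` outside `B`. -/
theorem heavy_abs (r η : ℝ) (hη : 0 < η) : ∃ k0 : ℕ, ∀ k : ℕ, k0 ≤ k →
    ∀ (V : Type u) [Fintype V] (G : SimpleGraph V) (B : Finset V),
      (Fintype.card V : ℝ) ≤ r * k → RC G k univ B → RC G k univ ∅ →
      (∀ X : Finset V, Disjoint X B →
        3 / 2 * (k : ℝ) * X.card ≤ (e2 G univ : ℝ) - e2 G (univ \ X)) →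
      (((univ \ B).filter (fun v => 7 / 5 * (k : ℝ) ≤ ((nb G univ v).card : ℝ))).card : ℝ) ≤
        η * k := by
  set R : ℝ := max r 1 with hR
  have hR1 : 1 ≤ R := le_max_right _ _
  have hrR : r ≤ R := le_max_left _ _
  set η1 : ℝ := min η 1 with hη1
  have hη1p : 0 < η1 := lt_min hη one_pos
  have hη1η : η1 ≤ η := min_le_left _ _
  have hη11 : η1 ≤ 1 := min_le_right _ _
  set q : ℝ := η1 / (1000 * R) with hq
  have hRp : 0 < R := by linarith
  have hqp : 0 < q := by positivity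
  have hqR : q * R = η1 / 1000 := by
    rw [hq]
    field_simp
  have hqR1 : q * R ≤ 1 / 1000 := by
    rw [hqR]
    linarith
  have hq1 : q ≤ 1 / 1000 := by nlinarith
  obtain ⟨k1, hk1⟩ := dense_rel.{u} R (1 / 100) (by norm_num)
  obtain ⟨N0, hN0⟩ := exists_pack.{u} q hqp (by linarith)
  refine ⟨max (max k1 1) (⌈(N0 : ℝ) / η⌉₊ + 1), ?_⟩
  intro k hk V _ G B hcard hRC hRC0 hX
  have hkk1 : k1 ≤ k := le_trans (le_trans (le_max_left _ _) (le_max_left _ _)) hk
  have hk1' : 1 ≤ k := le_trans (le_trans (le_max_right _ _) (le_max_left _ _)) hk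
  have hkN : ⌈(N0 : ℝ) / η⌉₊ + 1 ≤ k := le_trans (le_max_right _ _) hk
  have hkp : (0 : ℝ) < k := by exact_mod_cast hk1'
  have hkN' : (N0 : ℝ) ≤ η * k := by
    have h1 : (N0 : ℝ) / η ≤ ⌈(N0 : ℝ) / η⌉₊ := Nat.le_ceil _
    have h2 : ((⌈(N0 : ℝ) / η⌉₊ : ℕ) : ℝ) ≤ k := by exact_mod_cast (by omega)
    have h3 : (N0 : ℝ) / η ≤ k := h1.trans h2
    rw [div_le_iff₀ hη] at h3
    linarith
  set n : ℝ := ((Fintype.card V : ℕ) : ℝ) with hn
  have hnR : n ≤ R * k := hcard.trans (mul_le_mul_of_nonneg_right hrR hkp.le)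
  have hn0 : 0 ≤ n := Nat.cast_nonneg _
  by_cases hsmall : n ≤ η * k
  · refine le_trans ?_ hsmall
    rw [hn]
    exact_mod_cast card_le_univ _
  · rw [not_le] at hsmall
    have hN : N0 ≤ Fintype.card V := by
      have : (N0 : ℝ) ≤ ((Fintype.card V : ℕ) : ℝ) := hkN'.trans hsmall.le
      exact_mod_cast this
    obtain ⟨P, d, J0, K, I, hP⟩ := hN0 V G B k hN hRC
    have hdense : ∀ W : Finset V, (e2 G W : ℝ) ≤ k * (W.card : ℝ) + 1 / 100 * (k : ℝ) ^ 2 := by
      intro W
      have hW : (W.card : ℝ) ≤ ((Fintype.card V : ℕ) : ℝ) := by exact_mod_cast card_le_univ W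
      have h1 := hk1 k hkk1 V G W ∅ (empty_subset _)
        (le_trans hW hnR) (RC_mono hRC0 (subset_univ _))
      rw [sdiff_empty] at h1
      refine le_trans (le_of_eq ?_) h1
      unfold e2 ee
      push_cast
      rfl
    have hkey : ∀ i ∈ J0, ∑ j ∈ P, d i j * (j.card : ℝ) + 4 * q * n < 7 / 5 * k := by
      intro i hi
      have h1 := heavy_part hP (1 / 100) hk1' hdense hX hi
      rw [← hn] at h1
      have hqn : q * n ≤ 1 / 1000 * k := by
        calc q * n ≤ q * (R * k) := mul_le_mul_of_nonneg_left hnR hqp.le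
          _ = (q * R) * k := by ring
          _ ≤ 1 / 1000 * k := mul_le_mul_of_nonneg_right hqR1 hkp.le
      have hqn0 : 0 ≤ q * n := mul_nonneg hqp.le hn0
      have h2 : q ^ 2 * n ≤ 1 / 1000 * k := by
        calc q ^ 2 * n = q * (q * n) := by ring
          _ ≤ 1 * (q * n) := mul_le_mul_of_nonneg_right (by linarith) hqn0
          _ ≤ 1 / 1000 * k := by linarith
      have h3 : 8 * q ^ 2 * n ^ 2 / k ≤ 8 / 1000 * k := by
        rw [div_le_iff₀ hkp]
        have h4 : (q * n) ^ 2 ≤ (1 / 1000 * k) ^ 2 := by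
          exact pow_le_pow_left₀ hqn0 hqn 2
        nlinarith
      nlinarith
    have htail := hP.tail
    rw [← hn] at htail
    have hsub : ((univ \ B).filter (fun v => 7 / 5 * (k : ℝ) ≤ ((nb G univ v).card : ℝ))) ⊆
        (univ.filter (fun v : V => v ∉ B ∧ ¬ ∃ i ∈ J0, v ∈ i ∧
      ((nb G univ v).card : ℝ) ≤ ∑ j ∈ P, d i j * (j.card : ℝ) + 4 * q * n)) := by
      intro v hv
      simp only [mem_filter, mem_sdiff, mem_univ, true_and] at hv ⊢
      refine ⟨hv.1, ?_⟩
      rintro ⟨i, hi, _, hle⟩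
      have := hkey i hi
      linarith [hv.2]
    have hfin : (((univ \ B).filter (fun v => 7 / 5 * (k : ℝ) ≤
        ((nb G univ v).card : ℝ))).card : ℝ) ≤ 4 * q * n := by
      refine le_trans ?_ htail
      exact_mod_cast card_le_card hsub
    refine hfin.trans ?_
    calc 4 * q * n ≤ 4 * q * (R * k) :=
          mul_le_mul_of_nonneg_left hnR (by positivity)
      _ = 4 * (q * R) * k := by ring
      _ = 4 * (η1 / 1000) * k := by rw [hqR]
      _ ≤ η * k := mul_le_mul_of_nonneg_right (by linarith) hkp.le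

end Pool.Agent.LC0bab
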