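import Mathlib

/-!
# Local connectivity and the extremal function

These are the definitions of the problem: the local connectivity `kappa G x y`, the maximum local
connectivity `kappaBar G` and `f n k`, the largest number of edges of a graph of order `n` whose
maximum local connectivity equals `k`.
-/

namespace Pool.Agent.LC0bab

/-- `S` separates `x` from `y` in `G`: it contains neither of them and meets every walk
from `x` to `y`. -/
def Sep {V : Type*} (G : SimpleGraph V) (x y : V) (S : Finset V) : Prop :=
  x ∉ S ∧ y ∉ S ∧ ∀ w : G.Walk x y, ∃ v ∈ w.support, v ∈ S

/-- The least size of a set separating `x` from `y` (used for non-adjacent `x`, `y`). -/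
noncomputable def sepNum {V : Type*} (G : SimpleGraph V) (x y : V) : ℕ :=
  sInf {m | ∃ S : Finset V, Sep G x y S ∧ S.card = m}

open Classical in
/-- The local connectivity of `x` and `y`. -/
noncomputable def kappa {V : Type*} (G : SimpleGraph V) (x y : V) : ℕ :=
  if G.Adj x y then sepNum (G.deleteEdges {s(x, y)}) x y + 1 else sepNum G x y

/-- The maximum local connectivity. -/
noncomputable def kappaBar {V : Type*} (G : SimpleGraph V) : ℕ :=
  sSup {m | ∃ x y, x ≠ y ∧ kappa G x y = m}

/-- The largest number of edges of a graph of order `n` with maximum local connectivity `k`. -/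
noncomputable def f (n k : ℕ) : ℕ :=
  sSup {e | ∃ (V : Type) (_ : Fintype V) (G : SimpleGraph V),
    Fintype.card V = n ∧ kappaBar G = k ∧ G.edgeSet.ncard = e}

end Pool.Agent.LC0bab
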