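import Pool.Agent.Lib_MP_0bab5c_co.KDefs
import Pool.Agent.Lib_MP_0bab5c_co.Defs

/-! # From local connectivity to cuts -/

namespace Pool.Agent.LC0bab

open Finset
open scoped Classical

universe u

variable {V : Type u} [Fintype V] {G : SimpleGraph V} {k : ℕ}

theorem kappa_le_kappaBar {x y : V} (hxy : x ≠ y) : kappa G x y ≤ kappaBar G := by
  unfold kappaBar
  apply le_csSup
  · have hfin : (Set.range (fun p : V × V => kappa G p.1 p.2)).Finite := Set.finite_range _
    refine hfin.bddAbove.mono ?_
    rintro m ⟨a, b, _, h⟩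
    exact ⟨(a, b), h⟩
  · exact ⟨x, y, hxy, rfl⟩

/-- For vertices that are not adjacent a smallest separating set exists. -/
theorem kappa_exists_sep (H : SimpleGraph V) {x y : V} (hxy : x ≠ y) (hadj : ¬ H.Adj x y) :
    ∃ S : Finset V, Sep H x y S ∧ S.card = sepNum H x y := by
  have hne : {m | ∃ S : Finset V, Sep H x y S ∧ S.card = m}.Nonempty := by
    refine ⟨_, (univ : Finset V) \ {x, y}, ⟨?_, ?_, ?_⟩, rfl⟩
    · simp
    · simp
    · intro w
      by_contra hcon
      push Not at hcon
      have hsup : ∀ v ∈ w.support, v = x ∨ v = y := by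
        intro v hv
        have := hcon v hv
        simp only [mem_sdiff, mem_univ, true_and, mem_insert, mem_singleton, not_not] at this
        exact this
      cases w with
      | nil => exact hxy rfl
      | cons h p =>
        rename_i v
        have hv : v = x ∨ v = y := by
          apply hsup
          rw [SimpleGraph.Walk.support_cons]
          exact List.mem_cons_of_mem _ p.start_mem_support
        rcases hv with rfl | rfl
        · exact H.loopless.irrefl _ h
        · exact hadj h
  exact Nat.sInf_mem hne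

/-- The set of vertices reachable from `x` outside `S`. -/
noncomputable def kappaReach (H : SimpleGraph V) (x : V) (S : Finset V) : Finset V :=
  univ.filter (fun v => ∃ w : H.Walk x v, ∀ u ∈ w.support, u ∉ S)

theorem kappa_mem_reach {H : SimpleGraph V} {x v : V} {S : Finset V} :
    v ∈ kappaReach H x S ↔ ∃ w : H.Walk x v, ∀ u ∈ w.support, u ∉ S := by
  simp [kappaReach]

theorem kappa_reach_step {H : SimpleGraph V} {x a v : V} {S : Finset V}
    (ha : a ∈ kappaReach H x S) (hadj : H.Adj a v) (hv : v ∉ S) : v ∈ kappaReach H x S := by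
  rw [kappa_mem_reach] at ha ⊢
  obtain ⟨w, hw⟩ := ha
  refine ⟨w.concat hadj, fun u hu => ?_⟩
  rw [SimpleGraph.Walk.support_concat, List.mem_append,
    List.mem_singleton] at hu
  rcases hu with hu | rfl
  · exact hw u hu
  · exact hv

theorem kappa_reach_self {H : SimpleGraph V} {x y : V} {S : Finset V} (h : Sep H x y S) :
    x ∈ kappaReach H x S := by
  rw [kappa_mem_reach]
  refine ⟨SimpleGraph.Walk.nil, fun u hu => ?_⟩
  rw [SimpleGraph.Walk.support_nil, List.mem_singleton] at hu
  rw [hu]
  exact h.1

theorem kappa_reach_not {H : SimpleGraph V} {x y : V} {S : Finset V} (h : Sep H x y S) :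
    y ∉ kappaReach H x S := by
  rw [kappa_mem_reach]
  rintro ⟨w, hw⟩
  obtain ⟨v, hv, hvS⟩ := h.2.2 w
  exact hw v hv hvS

/-- A pair with local connectivity at most `k` can be cut. -/
theorem rcut_of_kappa {x y : V} (hxy : x ≠ y) (h : kappa G x y ≤ k) :
    RCut G k univ ∅ x y := by
  by_cases hadj : G.Adj x y
  · unfold kappa at h
    rw [if_pos hadj] at h
    set H := G.deleteEdges {s(x, y)} with hH
    have hHadj : ∀ a b : V, H.Adj a b ↔ G.Adj a b ∧ s(a, b) ≠ s(x, y) := by
      intro a b
      rw [hH, SimpleGraph.deleteEdges_adj, Set.mem_singleton_iff]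
    have hnot : ¬ H.Adj x y := by
      rw [hHadj]
      rintro ⟨_, h2⟩
      exact h2 rfl
    obtain ⟨S, hS, hcard⟩ := kappa_exists_sep H hxy hnot
    refine ⟨kappaReach H x S, subset_univ _, kappa_reach_self hS, kappa_reach_not hS, ?_,
      disjoint_empty_right _, ?_⟩
    · intro a ha hay
      by_contra hax
      apply kappa_reach_not hS
      refine kappa_reach_step ha ((hHadj a y).2 ⟨hay, ?_⟩) hS.2.1
      intro heq
      rw [Sym2.eq_iff] at heq
      rcases heq with ⟨h1, _⟩ | ⟨h1, h2⟩
      · exact hax h1
      · exact hxy h2.symm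
    · have hsub : bd G univ (kappaReach H x S) ⊆ insert y S := by
        intro v hv
        rw [mem_bd] at hv
        obtain ⟨_, hvA, a, haA, hav⟩ := hv
        rw [mem_insert]
        by_contra hcon
        push Not at hcon
        apply hvA
        refine kappa_reach_step haA ((hHadj a v).2 ⟨hav, ?_⟩) hcon.2
        intro heq
        rw [Sym2.eq_iff] at heq
        rcases heq with ⟨_, h2⟩ | ⟨_, h2⟩
        · exact hcon.1 h2
        · rw [h2] at hvA
          exact hvA (kappa_reach_self hS)
      have h1 := card_le_card hsub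
      have h2 := card_insert_le y S
      omega
  · unfold kappa at h
    rw [if_neg hadj] at h
    obtain ⟨S, hS, hcard⟩ := kappa_exists_sep G hxy hadj
    refine ⟨kappaReach G x S, subset_univ _, kappa_reach_self hS, kappa_reach_not hS, ?_,
      disjoint_empty_right _, ?_⟩
    · intro a ha hay
      exact absurd (kappa_reach_step ha hay hS.2.1) (kappa_reach_not hS)
    · have hsub : bd G univ (kappaReach G x S) ⊆ S := by
        intro v hv
        rw [mem_bd] at hv
        obtain ⟨_, hvA, a, haA, hav⟩ := hv
        by_contra hcon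
        exact hvA (kappa_reach_step haA hav hcon)
      have h1 := card_le_card hsub
      omega

theorem rc_of_kappaBar (h : kappaBar G ≤ k) : RC G k univ ∅ := by
  intro x _ y _ hxy
  exact Or.inl (rcut_of_kappa hxy ((kappa_le_kappaBar hxy).trans h))

theorem e2_univ : e2 G univ = 2 * G.edgeSet.ncard := by
  have h1 : e2 G univ = ∑ v : V, G.degree v := by
    unfold e2 ee
    apply sum_congr rfl
    intro v _
    rw [← SimpleGraph.card_neighborFinset_eq_degree, SimpleGraph.neighborFinset_eq_filter]
    rfl
  rw [h1, SimpleGraph.sum_degrees_eq_twice_card_edges, ← SimpleGraph.coe_edgeFinset,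
    Set.ncard_coe_finset]

/-- To bound `f n k` it suffices to bound the number of edges of all graphs with cuts. -/
theorem f_le {n : ℕ} {c : ℝ} (hc : 0 ≤ c)
    (h : ∀ (V : Type) [Fintype V] (G : SimpleGraph V), Fintype.card V = n → RC G k univ ∅ →
      (e2 G univ : ℝ) ≤ 2 * c) : (f n k : ℝ) ≤ c := by
  have hf : f n k ≤ ⌊c⌋₊ := by
    unfold f
    rcases Set.eq_empty_or_nonempty {e | ∃ (V : Type) (_ : Fintype V) (G : SimpleGraph V),
      Fintype.card V = n ∧ kappaBar G = k ∧ G.edgeSet.ncard = e} with h0 | hne
    · rw [h0]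
      simp
    · apply csSup_le hne
      rintro e ⟨V, hV, G, hn, hk, he⟩
      apply Nat.le_floor
      have h1 := h V G hn (rc_of_kappaBar hk.le)
      rw [e2_univ, he] at h1
      push_cast at h1
      linarith
  have h1 : (f n k : ℝ) ≤ (⌊c⌋₊ : ℝ) := by exact_mod_cast hf
  exact h1.trans (Nat.floor_le hc)

end Pool.Agent.LC0bab
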