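import Pool.Agent.Lib_MP_0bab5c_co.Circ

/-! # The lower bound `(k-1) n / 2` -/

namespace Pool.Agent.LC0bab

open Finset
open scoped Classical

section

variable {n j : ℕ}

lemma circ_not_adj (hn : 2 * j + 2 ≤ n) :
    ¬ (circ n j).Adj (0 : ZMod n) ((j + 1 : ℕ) : ZMod n) := by
  rintro ⟨_, i, hi, h | h⟩
  · rw [zero_add] at h
    have := natCast_inj (by omega) (by omega) h
    omega
  · have h2 : (((j + 1 + i : ℕ)) : ZMod n) = ((0 : ℕ) : ZMod n) := by
      push_cast at h ⊢
      rw [← h]
    have := natCast_inj (by omega) (by omega) h2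
    omega

lemma zero_ne_cast (hn : 2 * j + 2 ≤ n) : (0 : ZMod n) ≠ ((j + 1 : ℕ) : ZMod n) := by
  intro h
  have : ((0 : ℕ) : ZMod n) = ((j + 1 : ℕ) : ZMod n) := by rw [Nat.cast_zero]; exact h
  have := natCast_inj (by omega) (by omega) this
  omega

lemma circ_sepNum [NeZero n] (hn : 2 * j + 2 ≤ n) :
    2 * j ≤ sepNum (circ n j) (0 : ZMod n) ((j + 1 : ℕ) : ZMod n) := by
  obtain ⟨S, hS, hc⟩ := kappa_exists_sep (circ n j) (zero_ne_cast hn) (circ_not_adj hn)
  rw [← hc]
  exact circ_sep (by omega) (by omega) hS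

lemma low_even [NeZero n] (hn : 2 * j + 2 ≤ n) : j * n ≤ f n (2 * j) := by
  have hk : kappaBar (circ n j) = 2 * j := by
    apply kappaBar_eq
    · intro x y hxy
      exact (kappa_le_deg hxy).trans (circ_deg (by omega) x).le
    · refine ⟨0, ((j + 1 : ℕ) : ZMod n), zero_ne_cast hn, ?_⟩
      unfold kappa
      rw [if_neg (circ_not_adj hn)]
      exact circ_sepNum hn
  refine le_f (circ n j) (ZMod.card n) hk ?_
  have h := circ_e2 (n := n) (j := j) (by omega)
  rw [e2_univ] at h
  have : 2 * (j * n) = 2 * (circ n j).edgeSet.ncard := by rw [h]; ring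
  omega

/-- The circulant graph with one more edge. -/
def circ' (n j : ℕ) : SimpleGraph (ZMod n) :=
  circ n j ⊔ SimpleGraph.fromEdgeSet {s((0 : ZMod n), ((j + 1 : ℕ) : ZMod n))}

lemma circ'_adj {a b : ZMod n} : (circ' n j).Adj a b ↔ (circ n j).Adj a b ∨
    (s(a, b) = s((0 : ZMod n), ((j + 1 : ℕ) : ZMod n)) ∧ a ≠ b) := by
  rw [circ', SimpleGraph.sup_adj, SimpleGraph.fromEdgeSet_adj, Set.mem_singleton_iff]

lemma circ'_delete (hn : 2 * j + 2 ≤ n) :
    (circ' n j).deleteEdges {s((0 : ZMod n), ((j + 1 : ℕ) : ZMod n))} = circ n j := by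
  ext a b
  rw [SimpleGraph.deleteEdges_adj, circ'_adj, Set.mem_singleton_iff]
  constructor
  · rintro ⟨h | h, h2⟩
    · exact h
    · exact absurd h.1 h2
  · intro h
    refine ⟨Or.inl h, fun heq => ?_⟩
    rw [Sym2.eq_iff] at heq
    rcases heq with ⟨h1, h2⟩ | ⟨h1, h2⟩
    · rw [h1, h2] at h
      exact circ_not_adj hn h
    · rw [h1, h2] at h
      exact circ_not_adj hn h.symm

lemma low_odd [NeZero n] (hn : 2 * j + 2 ≤ n) : j * n ≤ f n (2 * j + 1) := by
  have hk : kappaBar (circ' n j) = 2 * j + 1 := by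
    apply kappaBar_eq
    · intro x y hxy
      refine (kappa_le_deg hxy).trans ?_
      have hsub : univ.filter ((circ' n j).Adj x) ⊆
          insert (if x = 0 then ((j + 1 : ℕ) : ZMod n) else 0)
            (univ.filter ((circ n j).Adj x)) := by
        intro b hb
        rw [mem_filter, circ'_adj] at hb
        rw [mem_insert, mem_filter]
        rcases hb.2 with h | ⟨h, hne⟩
        · exact Or.inr ⟨mem_univ _, h⟩
        · left
          rw [Sym2.eq_iff] at h
          rcases h with ⟨h1, h2⟩ | ⟨h1, h2⟩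
          · rw [if_pos h1, h2]
          · rw [if_neg, h2]
            intro h3
            exact hne (h3.trans h2.symm)
      refine (card_le_card hsub).trans ((card_insert_le _ _).trans ?_)
      rw [circ_deg (by omega) x]
    · refine ⟨0, ((j + 1 : ℕ) : ZMod n), zero_ne_cast hn, ?_⟩
      unfold kappa
      rw [if_pos (circ'_adj.2 (Or.inr ⟨rfl, zero_ne_cast hn⟩)), circ'_delete hn]
      have := circ_sepNum (n := n) (j := j) hn
      omega
  refine le_f (circ' n j) (ZMod.card n) hk ?_
  have h := circ_e2 (n := n) (j := j) (by omega)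
  rw [e2_univ] at h
  have h2 : (circ n j).edgeSet.ncard ≤ (circ' n j).edgeSet.ncard := by
    apply Set.ncard_le_ncard _ (Set.toFinite _)
    intro e he
    induction e using Sym2.ind with
    | _ a b =>
      rw [SimpleGraph.mem_edgeSet] at he ⊢
      exact circ'_adj.2 (Or.inl he)
  have : 2 * (j * n) = 2 * (circ n j).edgeSet.ncard := by rw [h]; ring
  omega

end

theorem low_bound {n k : ℕ} (hn : k + 2 ≤ n) : (k - 1) * n ≤ 2 * f n k := by
  have : NeZero n := ⟨by omega⟩
  obtain ⟨j, hj | hj⟩ := Nat.even_or_odd' k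
  · subst hj
    have := low_even (n := n) (j := j) (by omega)
    have h2 : (2 * j - 1) * n ≤ 2 * j * n := Nat.mul_le_mul_right _ (by omega)
    have h3 : 2 * j * n = 2 * (j * n) := by ring
    omega
  · subst hj
    have := low_odd (n := n) (j := j) (by omega)
    have h3 : (2 * j + 1 - 1) * n = 2 * (j * n) := by
      rw [Nat.add_sub_cancel]; ring
    omega

end Pool.Agent.LC0bab
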