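import Pool.Agent.Lib_MP_0bab5c_co.Kappa

/-! # Local connectivity is at most the degree; lower bounds for `f` -/

namespace Pool.Agent.LC0bab

open Finset
open scoped Classical

universe u

variable {V : Type u} {G : SimpleGraph V}

lemma sepNum_le {x y : V} {S : Finset V} (h : Sep G x y S) : sepNum G x y ≤ S.card :=
  Nat.sInf_le ⟨S, h, rfl⟩

lemma sep_walk (A : Set V) (S : Finset V)
    (hS : ∀ a ∈ A, ∀ b, G.Adj a b → b ∉ A → b ∈ S) :
    ∀ {x y : V} (w : G.Walk x y), x ∈ A → y ∉ A → ∃ v ∈ w.support, v ∈ S := by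
  intro x y w
  induction w with
  | nil => intro h1 h2; exact absurd h1 h2
  | cons hadj p ih =>
    rename_i a b c
    intro ha hc
    by_cases hb : b ∈ A
    · obtain ⟨v, hv, hs⟩ := ih hb hc
      exact ⟨v, by simp [hv], hs⟩
    · exact ⟨b, by simp, hS a ha b hadj hb⟩

lemma sep_of_region (A : Set V) {x y : V} (hx : x ∈ A) (hy : y ∉ A) (S : Finset V)
    (hS : ∀ a ∈ A, ∀ b, G.Adj a b → b ∉ A → b ∈ S) (hxS : x ∉ S) (hyS : y ∉ S) :
    Sep G x y S :=
  ⟨hxS, hyS, fun w => sep_walk A S hS w hx hy⟩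

lemma sep_nbhd [Fintype V] {x y : V} (hxy : x ≠ y) :
    Sep (G.deleteEdges {s(x, y)}) x y ((univ.filter (G.Adj x)).erase y) := by
  refine sep_of_region {x} rfl (by simpa using hxy.symm) _ ?_ ?_ ?_
  · intro a ha b hab hb
    rw [Set.mem_singleton_iff] at ha
    subst ha
    rw [SimpleGraph.deleteEdges_adj] at hab
    rw [mem_erase]
    refine ⟨?_, by simp [hab.1]⟩
    rintro rfl
    exact hab.2 rfl
  · simp
  · simp

lemma kappa_le_deg [Fintype V] {x y : V} (hxy : x ≠ y) :
    kappa G x y ≤ (univ.filter (G.Adj x)).card := by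
  unfold kappa
  by_cases h : G.Adj x y
  · rw [if_pos h]
    have hm : y ∈ univ.filter (G.Adj x) := by simp [h]
    have h2 := sepNum_le (sep_nbhd (G := G) hxy)
    rw [card_erase_of_mem hm] at h2
    have h3 : 0 < (univ.filter (G.Adj x)).card := card_pos.mpr ⟨y, hm⟩
    omega
  · rw [if_neg h]
    apply sepNum_le
    refine sep_of_region {x} rfl (by simpa using hxy.symm) _ ?_ (by simp) (by simpa using h)
    intro a ha b hab hb
    rw [Set.mem_singleton_iff] at ha
    subst ha
    simp [hab]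

lemma kappaBar_eq {k : ℕ} (hle : ∀ x y : V, x ≠ y → kappa G x y ≤ k)
    (hge : ∃ x y : V, x ≠ y ∧ k ≤ kappa G x y) : kappaBar G = k := by
  obtain ⟨x, y, hxy, hk⟩ := hge
  have heq : kappa G x y = k := le_antisymm (hle x y hxy) hk
  apply le_antisymm
  · refine csSup_le ⟨kappa G x y, x, y, hxy, rfl⟩ ?_
    rintro m ⟨a, b, hab, rfl⟩
    exact hle a b hab
  · apply le_csSup
    · refine ⟨k, ?_⟩
      rintro m ⟨a, b, hab, rfl⟩
      exact hle a b hab
    · exact ⟨x, y, hxy, heq⟩

lemma le_f {V : Type} [Fintype V] (G : SimpleGraph V) {n k e : ℕ} (hn : Fintype.card V = n)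
    (hk : kappaBar G = k) (he : e ≤ G.edgeSet.ncard) : e ≤ f n k := by
  refine le_trans he ?_
  apply le_csSup
  · refine ⟨(n + 1).choose 2, ?_⟩
    rintro m ⟨W, inst, H, hW, -, rfl⟩
    classical
    calc H.edgeSet.ncard ≤ (Set.univ : Set (Sym2 W)).ncard :=
          Set.ncard_le_ncard (Set.subset_univ _) (Set.toFinite _)
      _ = Fintype.card (Sym2 W) := by rw [Set.ncard_univ, Nat.card_eq_fintype_card]
      _ = (n + 1).choose 2 := by rw [Sym2.card, hW]
  · exact ⟨V, _, G, hn, hk, rfl⟩

/-- A walk along an arc with fewer than `j` blocked vertices. -/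
lemma arc_walk (S : Finset V) (g : ℕ → V) (y j : ℕ)
    (hg : ∀ m m', m < m' → m' ≤ m + j → m' ≤ y → G.Adj (g m) (g m'))
    (hinj : ∀ m m', m ≤ y → m' ≤ y → g m = g m' → m = m')
    (h0 : g 0 ∉ S)
    (hc : (S.filter (fun v => ∃ m, 0 < m ∧ m < y ∧ g m = v)).card < j) :
    ∀ m, m ≤ y → g m ∉ S → ∃ w : G.Walk (g 0) (g m), ∀ v ∈ w.support, v ∉ S := by
  intro m
  induction m using Nat.strong_induction_on with
  | _ m ih =>
    intro hm hmS
    by_cases hm0 : m = 0
    · subst hm0
      refine ⟨SimpleGraph.Walk.nil, fun v hv => ?_⟩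
      rw [SimpleGraph.Walk.support_nil, List.mem_singleton] at hv
      rw [hv]; exact h0
    -- the previous unblocked vertex
    have hne : ((range m).filter (fun i => g i ∉ S)).Nonempty :=
      ⟨0, by rw [mem_filter, mem_range]; exact ⟨Nat.pos_of_ne_zero hm0, h0⟩⟩
    set p := ((range m).filter (fun i => g i ∉ S)).max' hne with hp
    have hpm := Finset.max'_mem _ hne
    rw [← hp, mem_filter, mem_range] at hpm
    obtain ⟨w, hw⟩ := ih p hpm.1 (by omega) hpm.2
    have hbl : ∀ i, p < i → i < m → g i ∈ S := by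
      intro i h1 h2
      by_contra hcon
      have : i ≤ p := Finset.le_max' _ i (by rw [mem_filter, mem_range]; exact ⟨h2, hcon⟩)
      omega
    have hgap : m ≤ p + j := by
      have hsub : (Ioo p m).image g ⊆ S.filter (fun v => ∃ m, 0 < m ∧ m < y ∧ g m = v) := by
        intro v hv
        rw [mem_image] at hv
        obtain ⟨i, hi, rfl⟩ := hv
        rw [mem_Ioo] at hi
        rw [mem_filter]
        exact ⟨hbl i hi.1 hi.2, i, by omega, by omega, rfl⟩
      have h1 := card_le_card hsub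
      rw [card_image_of_injOn, Nat.card_Ioo] at h1
      · omega
      · intro a ha b hb hab
        rw [mem_coe, mem_Ioo] at ha hb
        exact hinj a b (by omega) (by omega) hab
    refine ⟨w.concat (hg p m hpm.1 hgap hm), fun u hu => ?_⟩
    rw [SimpleGraph.Walk.support_concat, List.mem_append,
      List.mem_singleton] at hu
    rcases hu with hu | rfl
    · exact hw u hu
    · exact hmS

end Pool.Agent.LC0bab
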