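import Pool.Agent.Lib_MP_0bab5c_co.Regions
import Pool.Agent.Lib_MP_0bab5c_co.Cuts

/-! # A minimal dense set, and its small regions -/

namespace Pool.Agent.LC0bab

open Finset
open scoped Classical

universe u

variable {V : Type u} {G : SimpleGraph V} {k : ℕ} {W : Finset V}

/-- `W` is minimal with `|W| ≥ 4k` and more than `(3/4) k (|W| - k)` edges. -/
structure MW (G : SimpleGraph V) (k : ℕ) (W : Finset V) : Prop where
  kpos : 0 < k
  big : 300 * k ≤ W.card
  ex : 3 / 2 * (k : ℝ) * (W.card - k) < e2 G W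
  min : ∀ W' ⊂ W, 4 * k ≤ W'.card → (e2 G W' : ℝ) ≤ 3 / 2 * (k : ℝ) * (W'.card - k)
  rc : RC G k W ∅

theorem MW.small (h : MW G k W) {Q : Finset V} (hQ : Q ⊆ W) (hne : Q.Nonempty)
    (hbd : (bd G W Q).card ≤ k) (hhalf : 2 * Q.card ≤ W.card) :
    (Q ∪ bd G W Q).card < 4 * k := by
  by_contra hcon
  have hcon : 4 * k ≤ (Q ∪ bd G W Q).card := not_lt.1 hcon
  have hk := h.kpos
  have hbig := h.big
  have hcard : (Q ∪ bd G W Q).card = Q.card + (bd G W Q).card :=
    card_union_of_disjoint bd_disj.symm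
  have hsub : Q ∪ bd G W Q ⊆ W := union_subset hQ bd_subset
  have hss : Q ∪ bd G W Q ⊂ W := by
    refine hsub.ssubset_of_ne ?_
    intro he
    rw [he] at hcard
    omega
  have hd : (W \ Q).card = W.card - Q.card := card_sdiff_of_subset hQ
  have hss2 : W \ Q ⊂ W := by
    refine sdiff_subset.ssubset_of_ne ?_
    intro he
    rw [he] at hd
    have := hne.card_pos
    omega
  have hqw : Q.card ≤ W.card := card_le_card hQ
  have h1 := h.min _ hss hcon
  have h2 := h.min _ hss2 (by omega)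
  have h3 : (e2 G W : ℝ) ≤ e2 G (Q ∪ bd G W Q) + e2 G (W \ Q) := by
    exact_mod_cast e2_sep hQ
  have h4 := h.ex
  have hcR : ((Q ∪ bd G W Q).card : ℝ) = Q.card + (bd G W Q).card := by
    exact_mod_cast hcard
  have hdR : ((W \ Q).card : ℝ) = W.card - Q.card := by
    rw [hd, Nat.cast_sub hqw]
  have hbR : ((bd G W Q).card : ℝ) ≤ k := by exact_mod_cast hbd
  have hkR : (0 : ℝ) < k := by exact_mod_cast hk
  rw [hcR] at h1
  rw [hdR] at h2
  nlinarith [mul_nonneg hkR.le (sub_nonneg.2 hbR)]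

theorem MW.inc (h : MW G k W) {X : Finset V} (hX : X ⊆ W) (hs : X.card + 4 * k ≤ W.card) :
    3 / 2 * (k : ℝ) * X.card ≤ (e2 G W : ℝ) - e2 G (W \ X) := by
  rcases X.eq_empty_or_nonempty with rfl | hne
  · simp
  · have hd : (W \ X).card = W.card - X.card := card_sdiff_of_subset hX
    have hpos := hne.card_pos
    have hss : W \ X ⊂ W := by
      refine sdiff_subset.ssubset_of_ne ?_
      intro he
      rw [he] at hd
      omega
    have h1 := h.min _ hss (by omega)
    have h2 := h.ex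
    have hdR : ((W \ X).card : ℝ) = W.card - X.card := by
      rw [hd, Nat.cast_sub (card_le_card hX)]
    rw [hdR] at h1
    nlinarith

theorem MW.mindeg (h : MW G k W) {v : V} (hv : v ∈ W) :
    3 / 4 * (k : ℝ) ≤ (nb G W v).card := by
  have hk := h.kpos
  have hbig := h.big
  have h1 := h.inc (X := {v}) (singleton_subset_iff.2 hv) (by
    rw [card_singleton]
    omega)
  rw [e2_single hv, card_singleton] at h1
  push_cast at h1
  linarith

/-- A captured vertex lies in a small set with small boundary. -/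
def Cap (G : SimpleGraph V) (k : ℕ) (W : Finset V) (y : V) : Prop :=
  ∃ A ⊆ W, y ∈ A ∧ (bd G W A).card ≤ k ∧ 2 * A.card ≤ W.card

theorem MW.cap (h : MW G k W) {x y : V} (hx : x ∈ W) (hy : y ∈ W) (hxy : x ≠ y) :
    Cap G k W x ∨ Cap G k W y := by
  rcases SCut_of_RC h.rc hx hy hxy with ⟨A, h1, h2, _, _, h5, h6⟩ | ⟨A, h1, h2, _, _, h5, h6⟩
  · exact Or.inl ⟨A, h1, h2, h5, h6⟩
  · exact Or.inr ⟨A, h1, h2, h5, h6⟩

/-- The region of a captured vertex. -/
structure Reg (G : SimpleGraph V) (k : ℕ) (W : Finset V) (y : V) (Q : Finset V) : Prop where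
  sub : Q ⊆ W
  mem : y ∈ Q
  bdle : (bd G W Q).card ≤ k
  small : (Q ∪ bd G W Q).card < 4 * k
  good : ∀ A ⊆ W, A.card ≤ 4 * k → (bd G W Q).card ≤ (bd G W (A ∪ Q)).card

theorem MW.exists_reg (h : MW G k W) {y : V} (hy : Cap G k W y) : ∃ Q, Reg G k W y Q := by
  obtain ⟨A, hA, hyA, hbdA, hhalf⟩ := hy
  have hk := h.kpos
  have hbig := h.big
  have hAs := h.small hA ⟨y, hyA⟩ hbdA hhalf
  have hA4 : A.card < 4 * k := (card_le_card subset_union_left).trans_lt hAs
  set F : Finset (Finset V) := W.powerset.filter (fun Q => y ∈ Q ∧ Q.card ≤ 8 * k) with hF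
  have hAF : A ∈ F := by
    rw [hF, mem_filter, mem_powerset]
    exact ⟨hA, hyA, by omega⟩
  obtain ⟨Q, hQF, hQmin⟩ := exists_min_image F (fun Q => (bd G W Q).card) ⟨A, hAF⟩
  rw [hF, mem_filter, mem_powerset] at hQF
  obtain ⟨hQW, hyQ, hQ8⟩ := hQF
  have hbdQ : (bd G W Q).card ≤ k := (hQmin A hAF).trans hbdA
  have hQs : (Q ∪ bd G W Q).card < 4 * k := h.small hQW ⟨y, hyQ⟩ hbdQ (by omega)
  have hQ4 : Q.card < 4 * k := (card_le_card subset_union_left).trans_lt hQs
  refine ⟨Q, hQW, hyQ, hbdQ, hQs, ?_⟩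
  intro B hB hB4
  apply hQmin
  rw [hF, mem_filter, mem_powerset]
  refine ⟨union_subset hB hQW, mem_union_right _ hyQ, ?_⟩
  have := card_union_le B Q
  omega

/-- Uncrossing a cut with a region. -/
theorem MW.uncross (h : MW G k W) {y : V} {Q : Finset V} (hQ : Reg G k W y Q) {A : Finset V}
    (hA : A ⊆ W) (hne : A.Nonempty) (hbd : (bd G W A).card ≤ k) (hhalf : 2 * A.card ≤ W.card) :
    (bd G W (A ∩ Q)).card ≤ k := by
  have hAs := h.small hA hne hbd hhalf
  have hA4 : A.card < 4 * k := (card_le_card subset_union_left).trans_lt hAs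
  have h1 := bd_submod (G := G) hA hQ.sub
  have h2 := hQ.good A hA hA4.le
  omega

theorem MW.reg_rc (h : MW G k W) {y : V} {Q : Finset V} (hQ : Reg G k W y Q) :
    RC G k (Q ∪ bd G W Q) (bd G W Q) := by
  have key : ∀ x z : V, x ∈ Q → z ∈ Q → SCut G k W x z →
      RCut G k (Q ∪ bd G W Q) (bd G W Q) x z := by
    rintro x z hx hz ⟨A, hA, hxA, hzA, hadj, hbd, hhalf⟩
    refine ⟨A ∩ Q, inter_subset_right.trans subset_union_left, mem_inter.2 ⟨hxA, hx⟩,
      fun hm => hzA (mem_inter.1 hm).1, fun a ha haz => hadj a (mem_inter.1 ha).1 haz, ?_, ?_⟩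
    · exact disjoint_of_subset_left inter_subset_right bd_disj.symm
    · rw [bd_local hQ.sub inter_subset_right]
      exact h.uncross hQ hA ⟨x, hxA⟩ hbd hhalf
  intro x hx z hz hxz
  have hx' : x ∈ Q := by
    rw [mem_sdiff, mem_union] at hx
    exact hx.1.resolve_right hx.2
  have hz' : z ∈ Q := by
    rw [mem_sdiff, mem_union] at hz
    exact hz.1.resolve_right hz.2
  rcases SCut_of_RC h.rc (hQ.sub hx') (hQ.sub hz') hxz with hc | hc
  · exact Or.inl (key x z hx' hz' hc)
  · exact Or.inr (key z x hz' hx' hc)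

end Pool.Agent.LC0bab
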