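import Pool.Agent.Lib_MP_0bab5c_co.Dense
import Pool.Agent.Lib_MP_0bab5c_co.Heavy
import Pool.Agent.Lib_MP_0bab5c_co.Minimal
import Pool.Agent.Lib_MP_0bab5c_co.Discharge

/-! # There is no minimal dense set -/

namespace Pool.Agent.LC0bab

open Finset
open scoped Classical

universe u

section

variable {V : Type u} {G : SimpleGraph V} {k : ℕ} {W : Finset V}

lemma Reg.lt {y : V} {Q : Finset V} (hQ : Reg G k W y Q) : Q.card < 4 * k :=
  lt_of_le_of_lt (card_le_card subset_union_left) hQ.small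

lemma MW.half (h : MW G k W) {y : V} {Q : Finset V} (hQ : Reg G k W y Q) :
    2 * Q.card ≤ W.card := by
  have := hQ.lt
  have := h.big
  omega

lemma MW.add4 (h : MW G k W) {y : V} {Q : Finset V} (hQ : Reg G k W y Q) {X : Finset V}
    (hX : X ⊆ Q) : X.card + 4 * k ≤ W.card := by
  have := hQ.lt
  have := h.big
  have := card_le_card hX
  omega

lemma MW.cap_of_mem (h : MW G k W) {y : V} {Q : Finset V} (hQ : Reg G k W y Q) {v : V}
    (hv : v ∈ Q) : Cap G k W v :=
  ⟨Q, hQ.sub, hv, hQ.bdle, h.half hQ⟩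

lemma Reg.deg_split {y : V} {Q : Finset V} (hQ : Reg G k W y Q) {v : V} (hv : v ∈ Q) :
    (nb G W v).card = (nb G Q v).card + (nb G (bd G W Q) v).card := by
  rw [← nb_local hQ.sub hv, nb_card_union]
  exact bd_disj.symm

lemma Reg.sdiff {y : V} {Q : Finset V} (_hQ : Reg G k W y Q) :
    (Q ∪ bd G W Q) \ bd G W Q = Q := by
  rw [union_sdiff_right]
  exact sdiff_eq_self_of_disjoint bd_disj.symm

/-- Size of a region. -/
lemma MW.reg_size (h : MW G k W) {η : ℝ}
    (HD : ∀ (W' B : Finset V), B ⊆ W' → (W'.card : ℝ) ≤ 4 * k → RC G k W' B →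
      ∑ v ∈ W' \ B, ((nb G W' v).card : ℝ) ≤ k * ((W' \ B).card : ℝ) + η * (k : ℝ) ^ 2)
    {y : V} {Q : Finset V} (hQ : Reg G k W y Q) :
    (Q.card : ℝ) ≤ 2 * (1 + η) * k := by
  have hk : (0 : ℝ) < k := by exact_mod_cast h.kpos
  have h4 : ((Q ∪ bd G W Q).card : ℝ) ≤ 4 * k := by exact_mod_cast hQ.small.le
  have hsub : Q ∪ bd G W Q ⊆ W := union_subset hQ.sub bd_subset
  have e1 := HD (Q ∪ bd G W Q) ∅ (empty_subset _) h4 (RC_mono h.rc hsub)
  rw [sdiff_empty] at e1
  have e2' : (e2 G (Q ∪ bd G W Q) : ℝ) = ∑ v ∈ Q ∪ bd G W Q, ((nb G (Q ∪ bd G W Q) v).card : ℝ) := by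
    rw [e2, ee]; push_cast; rfl
  have e3 := h.inc hQ.sub (h.add4 hQ (subset_refl Q))
  rw [← e2_local (X := Q) hQ.sub (subset_refl _)] at e3
  have e4 : (0 : ℝ) ≤ e2 G ((Q ∪ bd G W Q) \ Q) := Nat.cast_nonneg _
  have e5 : ((Q ∪ bd G W Q).card : ℝ) ≤ Q.card + k := by
    have h1 : (Q ∪ bd G W Q).card ≤ Q.card + (bd G W Q).card := card_union_le _ _
    have := hQ.bdle
    exact_mod_cast h1.trans (by omega)
  have e6 : 3 / 2 * (k : ℝ) * Q.card ≤ k * (Q.card + k) + η * (k : ℝ) ^ 2 := by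
    nlinarith [mul_le_mul_of_nonneg_left e5 hk.le]
  have e7 : (k : ℝ) * (Q.card : ℝ) ≤ k * (2 * (1 + η) * k) := by nlinarith
  exact le_of_mul_le_mul_left e7 hk

/-- The average degree in a region is at most `(1 + o(1)) k`. -/
lemma MW.reg_sum (h : MW G k W) {η : ℝ}
    (HD : ∀ (W' B : Finset V), B ⊆ W' → (W'.card : ℝ) ≤ 4 * k → RC G k W' B →
      ∑ v ∈ W' \ B, ((nb G W' v).card : ℝ) ≤ k * ((W' \ B).card : ℝ) + η * (k : ℝ) ^ 2)
    {y : V} {Q : Finset V} (hQ : Reg G k W y Q) :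
    ∑ v ∈ Q, (((nb G W v).card : ℝ) - k) ≤ η * (k : ℝ) ^ 2 := by
  have h4 : ((Q ∪ bd G W Q).card : ℝ) ≤ 4 * k := by exact_mod_cast hQ.small.le
  have e1 := HD (Q ∪ bd G W Q) (bd G W Q) subset_union_right h4 (h.reg_rc hQ)
  rw [hQ.sdiff] at e1
  have e2' : ∑ v ∈ Q, ((nb G (Q ∪ bd G W Q) v).card : ℝ) = ∑ v ∈ Q, ((nb G W v).card : ℝ) :=
    sum_congr rfl (fun v hv => by rw [nb_local hQ.sub hv])
  rw [e2'] at e1
  rw [sum_sub_distrib, sum_const, nsmul_eq_mul]
  linarith

/-- Few heavy vertices in a region. -/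
lemma MW.reg_heavy (h : MW G k W) {η : ℝ}
    (HH : ∀ (W' B : Finset V), B ⊆ W' → (W'.card : ℝ) ≤ 4 * k → RC G k W' B → RC G k W' ∅ →
      (∀ X ⊆ W' \ B, 3 / 2 * (k : ℝ) * X.card ≤ (e2 G W' : ℝ) - e2 G (W' \ X)) →
      (((W' \ B).filter (fun v => 7 / 5 * (k : ℝ) ≤ ((nb G W' v).card : ℝ))).card : ℝ) ≤
        η * k)
    {y : V} {Q : Finset V} (hQ : Reg G k W y Q) :
    ((Q.filter (fun v => 7 / 5 * (k : ℝ) ≤ ((nb G W v).card : ℝ))).card : ℝ) ≤ η * k := by
  have h4 : ((Q ∪ bd G W Q).card : ℝ) ≤ 4 * k := by exact_mod_cast hQ.small.le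
  have hsub : Q ∪ bd G W Q ⊆ W := union_subset hQ.sub bd_subset
  have e1 := HH (Q ∪ bd G W Q) (bd G W Q) subset_union_right h4 (h.reg_rc hQ)
    (RC_mono h.rc hsub) (by
      intro X hX
      rw [hQ.sdiff] at hX
      rw [e2_local hQ.sub hX]
      exact h.inc (hX.trans hQ.sub) (h.add4 hQ hX))
  rw [hQ.sdiff] at e1
  refine le_trans (le_of_eq ?_) e1
  congr 2
  refine filter_congr (fun v hv => ?_)
  rw [nb_local hQ.sub hv]

/-- The pair inequality, one direction. -/
lemma MW.pair_aux (h : MW G k W) {SH : Finset V} {y z : V} {Q Q' : Finset V}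
    (hQ : Reg G k W y Q) (hcut : SCut G k W y z) :
    ((nb G Q y \ SH) ∩ (nb G Q' z \ SH)).card + (nb G (bd G W Q) y).card ≤ k := by
  obtain ⟨A, hA, hy, hz, hedge, hbd, hhalf⟩ := hcut
  have hu := h.uncross hQ hA ⟨y, hy⟩ hbd hhalf
  refine le_trans ?_ hu
  rw [← card_union_of_disjoint]
  · refine card_le_card ?_
    intro v hv
    rw [mem_union] at hv
    rw [mem_bd]
    rcases hv with hv | hv
    · rw [mem_inter, mem_sdiff, mem_sdiff, mem_nb, mem_nb] at hv
      obtain ⟨⟨⟨hvQ, hyv⟩, _⟩, ⟨_, hzv⟩, _⟩ := hv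
      refine ⟨hQ.sub hvQ, ?_, ⟨y, mem_inter.2 ⟨hy, hQ.mem⟩, hyv⟩⟩
      intro hvA
      have := hedge v (mem_inter.1 hvA).1 hzv.symm
      subst this
      exact G.loopless.irrefl _ hyv
    · rw [mem_nb, mem_bd] at hv
      obtain ⟨⟨hvW, hvQ, _⟩, hyv⟩ := hv
      exact ⟨hvW, fun hvA => hvQ (mem_inter.1 hvA).2, ⟨y, mem_inter.2 ⟨hy, hQ.mem⟩, hyv⟩⟩
  · rw [disjoint_left]
    intro v hv hv'
    rw [mem_inter, mem_sdiff, mem_nb] at hv
    rw [mem_nb, mem_bd] at hv'
    exact hv'.1.2.1 hv.1.1.1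

end

/-- There is no minimal dense set when `k` is large. -/
theorem no_MW : ∃ k0 : ℕ, ∀ k : ℕ, k0 ≤ k → ∀ (V : Type u) (G : SimpleGraph V) (W : Finset V),
    ¬ MW G k W := by
  obtain ⟨k1, hk1⟩ := dense_rel.{u} 4 (1 / 1000) (by norm_num)
  obtain ⟨k2, hk2⟩ := heavy_rel.{u} 4 (1 / 1000) (by norm_num)
  refine ⟨max (max k1 k2) 1000, fun k hk V G W h => ?_⟩
  have hkk1 : k1 ≤ k := le_trans (le_max_left _ _) (le_trans (le_max_left _ _) hk)
  have hkk2 : k2 ≤ k := le_trans (le_max_right _ _) (le_trans (le_max_left _ _) hk)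
  have hk1000 : (1000 : ℝ) ≤ k := by exact_mod_cast le_trans (le_max_right _ _) hk
  have hkpos : (0 : ℝ) < k := by linarith
  have HD := hk1 k hkk1 V G
  have HH := hk2 k hkk2 V G
  set deg : V → ℝ := fun v => ((nb G W v).card : ℝ) with hdeg
  set SH : Finset V := W.filter (fun v => Cap G k W v ∧ 7 / 5 * (k : ℝ) ≤ deg v) with hSH
  set L : Finset V := W.filter (fun v => Cap G k W v ∧ ¬ 7 / 5 * (k : ℝ) ≤ deg v) with hL
  set U : Finset V := W.filter (fun v => ¬ Cap G k W v) with hU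
  have hex : ∀ y, y ∈ SH → ∃ Q, Reg G k W y Q := fun y hy =>
    h.exists_reg (mem_filter.1 hy).2.1
  set Qf : V → Finset V := fun y => if hy : ∃ Q, Reg G k W y Q then hy.choose else ∅ with hQf
  have hReg : ∀ y ∈ SH, Reg G k W y (Qf y) := by
    intro y hy
    have := hex y hy
    rw [hQf]
    simp only
    rw [dif_pos this]
    exact this.choose_spec
  set T : V → Finset V := fun y => nb G (Qf y) y \ SH with hT
  set r : V → ℝ := fun y => ((nb G (bd G W (Qf y)) y).card : ℝ) with hr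
  have main := discharge SH L T deg r k (1 / 1000) hk1000 (by norm_num) (by norm_num)
    ?_ ?_ ?_ ?_ ?_ ?_ ?_ ?_ ?_
  · -- conclusion
    have hUcard : U.card ≤ 1 := by
      rw [card_le_one]
      intro a ha b hb
      by_contra hab
      rw [mem_filter] at ha hb
      rcases h.cap ha.1 hb.1 hab with h1 | h1
      · exact ha.2 h1
      · exact hb.2 h1
    have hsplit : (e2 G W : ℝ) = ∑ y ∈ SH, deg y + ∑ v ∈ L, deg v + ∑ v ∈ U, deg v := by
      have e1 : (e2 G W : ℝ) = ∑ v ∈ W, deg v := by rw [e2, ee]; push_cast; rfl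
      rw [e1, ← sum_filter_add_sum_filter_not W (fun v => Cap G k W v)]
      congr 1
      rw [← sum_filter_add_sum_filter_not (W.filter (fun v => Cap G k W v))
        (fun v => 7 / 5 * (k : ℝ) ≤ deg v), filter_filter, filter_filter]
    have hUsum : ∑ v ∈ U, deg v ≤ W.card := by
      calc ∑ v ∈ U, deg v ≤ ∑ v ∈ U, (W.card : ℝ) := sum_le_sum (fun v _ => by
            have h0 : (nb G W v).card ≤ W.card := card_le_card nb_subset
            show ((nb G W v).card : ℝ) ≤ W.card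
            exact_mod_cast h0)
        _ = U.card * (W.card : ℝ) := by rw [sum_const, nsmul_eq_mul]
        _ ≤ 1 * (W.card : ℝ) := by
            refine mul_le_mul_of_nonneg_right ?_ (Nat.cast_nonneg _)
            exact_mod_cast hUcard
        _ = W.card := one_mul _
    have hcards : (SH.card : ℝ) + L.card ≤ W.card := by
      have hd : Disjoint SH L := by
        rw [disjoint_left]
        intro v hv hv'
        exact (mem_filter.1 hv').2.2 (mem_filter.1 hv).2.2
      have : (SH ∪ L).card ≤ W.card := card_le_card (union_subset (filter_subset _ _)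
        (filter_subset _ _))
      rw [card_union_of_disjoint hd] at this
      exact_mod_cast this
    have hexx := h.ex
    have hbig : (300 : ℝ) * k ≤ W.card := by exact_mod_cast h.big
    have hm : 149 / 100 * (k : ℝ) * (SH.card + L.card) ≤ 149 / 100 * (k : ℝ) * W.card :=
      mul_le_mul_of_nonneg_left hcards (by positivity)
    have hfin : 3 / 2 * (k : ℝ) * (W.card - k) < 149 / 100 * (k : ℝ) * W.card + W.card := by
      linarith
    nlinarith [mul_le_mul_of_nonneg_left hbig (by linarith : (0 : ℝ) ≤ k / 100 - 1),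
      mul_le_mul_of_nonneg_left hk1000 hkpos.le]
  · -- T y ⊆ L
    intro y hy v hv
    rw [hT] at hv
    simp only [mem_sdiff, mem_nb] at hv
    have hvW : v ∈ W := (hReg y hy).sub hv.1.1
    have hcap := h.cap_of_mem (hReg y hy) hv.1.1
    rw [hL, mem_filter]
    refine ⟨hvW, hcap, fun h7 => hv.2 ?_⟩
    rw [hSH, mem_filter]
    exact ⟨hvW, hcap, h7⟩
  · -- h1
    intro y hy
    have hq := hReg y hy
    have e1 := hq.deg_split hq.mem
    have e2' : (nb G (Qf y) y).card ≤ (T y).card +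
        ((Qf y).filter (fun v => 7 / 5 * (k : ℝ) ≤ ((nb G W v).card : ℝ))).card := by
      rw [← card_sdiff_add_card_inter (nb G (Qf y) y) SH]
      refine Nat.add_le_add_left (card_le_card ?_) _
      intro v hv
      rw [mem_inter, mem_nb] at hv
      rw [mem_filter]
      exact ⟨hv.1.1, (mem_filter.1 hv.2).2.2⟩
    have e3 := h.reg_heavy HH hq
    have e4 : (deg y) = ((nb G (Qf y) y).card : ℝ) + r y := by
      rw [hdeg, hr]; simp only; exact_mod_cast e1
    have e5 : ((nb G (Qf y) y).card : ℝ) ≤ ((T y).card : ℝ) +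
        ((Qf y).filter (fun v => 7 / 5 * (k : ℝ) ≤ ((nb G W v).card : ℝ))).card := by
      exact_mod_cast e2'
    rw [e4]
    linarith
  · -- h1a
    intro y hy
    refine ⟨Nat.cast_nonneg _, ?_⟩
    rw [hr]
    simp only
    exact_mod_cast (card_le_card nb_subset).trans (hReg y hy).bdle
  · intro y hy
    exact (mem_filter.1 hy).2.2
  · -- h2
    intro y hy
    have hq := hReg y hy
    have e3 := h.reg_heavy HH hq
    have e1 : (SH.filter (fun z => z ≠ y ∧ (T y ∩ T z).Nonempty)).card ≤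
        (bd G W (Qf y)).card +
          ((Qf y).filter (fun v => 7 / 5 * (k : ℝ) ≤ ((nb G W v).card : ℝ))).card := by
      refine le_trans (card_le_card ?_) (card_union_le _ _)
      intro z hz
      rw [mem_filter] at hz
      obtain ⟨hzS, _, v, hv⟩ := hz
      rw [mem_inter] at hv
      have hv1 : v ∈ Qf y := by
        have := hv.1
        rw [hT] at this
        simp only [mem_sdiff, mem_nb] at this
        exact this.1.1
      have hv2 : G.Adj z v := by
        have := hv.2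
        rw [hT] at this
        simp only [mem_sdiff, mem_nb] at this
        exact this.1.2
      have hzW : z ∈ W := (mem_filter.1 hzS).1
      rw [mem_union]
      by_cases hzQ : z ∈ Qf y
      · right
        rw [mem_filter]
        exact ⟨hzQ, (mem_filter.1 hzS).2.2⟩
      · left
        rw [mem_bd]
        exact ⟨hzW, hzQ, v, hv1, hv2.symm⟩
    have e2' : ((SH.filter (fun z => z ≠ y ∧ (T y ∩ T z).Nonempty)).card : ℝ) ≤
        ((bd G W (Qf y)).card : ℝ) +
          ((Qf y).filter (fun v => 7 / 5 * (k : ℝ) ≤ ((nb G W v).card : ℝ))).card := by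
      exact_mod_cast e1
    have e4 : ((bd G W (Qf y)).card : ℝ) ≤ k := by exact_mod_cast hq.bdle
    linarith
  · -- h3
    intro y hy z hz hzy _
    have hyW : y ∈ W := (mem_filter.1 hy).1
    have hzW : z ∈ W := (mem_filter.1 hz).1
    rcases SCut_of_RC h.rc hyW hzW (Ne.symm hzy) with hc | hc
    · left
      have := h.pair_aux (SH := SH) (Q' := Qf z) (hReg y hy) hc
      have e : (((nb G (Qf y) y \ SH) ∩ (nb G (Qf z) z \ SH)).card : ℝ) +
        (nb G (bd G W (Qf y)) y).card ≤ k := by exact_mod_cast this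
      show (((nb G (Qf y) y \ SH) ∩ (nb G (Qf z) z \ SH)).card : ℝ) ≤
        k - (nb G (bd G W (Qf y)) y).card
      linarith
    · right
      have := h.pair_aux (SH := SH) (Q' := Qf y) (hReg z hz) hc
      have e : (((nb G (Qf z) z \ SH) ∩ (nb G (Qf y) y \ SH)).card : ℝ) +
        (nb G (bd G W (Qf z)) z).card ≤ k := by exact_mod_cast this
      show (((nb G (Qf y) y \ SH) ∩ (nb G (Qf z) z \ SH)).card : ℝ) ≤
        k - (nb G (bd G W (Qf z)) z).card
      rw [inter_comm]
      linarith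
  · -- h4
    intro y hy
    have hq := hReg y hy
    have hTQ : T y ⊆ Qf y := by
      intro v hv
      rw [hT] at hv
      simp only [mem_sdiff, mem_nb] at hv
      exact hv.1.1
    have e1 := h.reg_sum HD hq
    have e2' := h.reg_size HD hq
    have e3 : ∑ v ∈ Qf y, (deg v - k) = ∑ v ∈ Qf y \ T y, (deg v - k) + ∑ v ∈ T y, (deg v - k) :=
      (sum_sdiff hTQ).symm
    have e4 : -(1 / 4 * (k : ℝ)) * ((Qf y \ T y).card : ℝ) ≤ ∑ v ∈ Qf y \ T y, (deg v - k) := by
      have : ∑ v ∈ Qf y \ T y, (-(1 / 4 * (k : ℝ))) ≤ ∑ v ∈ Qf y \ T y, (deg v - k) := by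
        refine sum_le_sum (fun v hv => ?_)
        have := h.mindeg (hq.sub (mem_sdiff.1 hv).1)
        rw [hdeg]
        simp only
        linarith
      rw [sum_const, nsmul_eq_mul] at this
      linarith
    have e5 : ((Qf y \ T y).card : ℝ) = (Qf y).card - (T y).card := by
      rw [card_sdiff_of_subset hTQ, Nat.cast_sub (card_le_card hTQ)]
    have e6 : ∑ v ∈ Qf y, (deg v - k) ≤ 1 / 1000 * (k : ℝ) ^ 2 := e1
    rw [e5] at e4
    nlinarith [mul_le_mul_of_nonneg_left e2' hkpos.le]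
  · -- h5
    intro v hv
    rw [mem_filter] at hv
    refine ⟨h.mindeg hv.1, ?_⟩
    exact (not_le.1 hv.2.2).le
  · -- h6
    intro v hv
    have e1 : (SH.filter (fun y => v ∈ T y)).card ≤ (nb G W v).card := by
      refine card_le_card ?_
      intro y hy
      rw [mem_filter] at hy
      rw [mem_nb]
      refine ⟨(mem_filter.1 hy.1).1, ?_⟩
      have := hy.2
      rw [hT] at this
      simp only [mem_sdiff, mem_nb] at this
      exact this.1.2.symm
    show ((SH.filter (fun y => v ∈ T y)).card : ℝ) ≤ ((nb G W v).card : ℝ)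
    exact_mod_cast e1

end Pool.Agent.LC0bab
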