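import Pool.Agent.Lib_MP_0bab5c_co.Tail

/-! # A typical pair in a part -/

namespace Pool.Agent.LC0bab

open Finset
open scoped Classical

universe u

variable {V : Type u}

/-- The part `j` is fine for the pair `(x,y)` of vertices of the part `i`. -/
def Fine (G : SimpleGraph V) (B : Finset V) (d : Finset V → Finset V → ℝ) (s : ℝ) (x y : V)
    (i j : Finset V) : Prop :=
  (d i j * (j ∩ B).card - s * j.card ≤ ((nb G (j ∩ B) x).card : ℝ) ∧
    d i j * (j ∩ B).card - s * j.card ≤ ((nb G (j ∩ B) y).card : ℝ)) ∧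
  (d i j * (j \ B).card - s * j.card ≤ ((nb G (j \ B) x).card : ℝ) ∧
    d i j * (j \ B).card - s * j.card ≤ ((nb G (j \ B) y).card : ℝ)) ∧
  (d i j) ^ 2 * (j \ B).card - 2 * s * j.card ≤
    (((nb G (j \ B) x) ∩ (nb G (j \ B) y)).card : ℝ)

theorem Fine.symm {G : SimpleGraph V} {B : Finset V} {d : Finset V → Finset V → ℝ} {s : ℝ}
    {x y : V} {i j : Finset V} (h : Fine G B d s x y i j) : Fine G B d s y x i j := by
  obtain ⟨⟨h1, h2⟩, ⟨h3, h4⟩, h5⟩ := h
  exact ⟨⟨h2, h1⟩, ⟨h4, h3⟩, by rwa [inter_comm]⟩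

/-- The parts have total size `|V|`. -/
lemma pc_total [Fintype V] {G : SimpleGraph V} {ε ε1 ε2 : ℝ} {L : ℕ}
    {P : Finset (Finset V)} {d : Finset V → Finset V → ℝ} (h : Clu G ε ε1 ε2 L P d) :
    ∑ j ∈ P, (j.card : ℝ) = Fintype.card V := by
  have h1 := h.sum_parts (fun _ => (1 : ℝ))
  simp only [sum_const, nsmul_eq_mul, mul_one, card_univ] at h1
  exact h1.symm

/-- Averaging of failing masses. -/
lemma pc_avg [Fintype V] {G : SimpleGraph V} {ε ε1 ε2 : ℝ} {L : ℕ}
    {P : Finset (Finset V)} {d : Finset V → Finset V → ℝ} (h : Clu G ε ε1 ε2 L P d)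
    {i A : Finset V} (hA : A ⊆ i) (Q : Finset V → V → Prop) (c : ℝ) (hc : 0 ≤ c)
    (hQ : ∀ j ∈ P, d i j ≠ 0 → ((i.filter (fun x => Q j x)).card : ℝ) ≤ c) :
    ∑ x ∈ A, ∑ j ∈ P, (if d i j ≠ 0 ∧ Q j x then (j.card : ℝ) else 0) ≤
      c * Fintype.card V := by
  rw [sum_comm, ← pc_total h, mul_sum]
  refine sum_le_sum (fun j hj => ?_)
  by_cases hd : d i j = 0
  · rw [sum_eq_zero]
    · positivity
    · intro x _
      rw [if_neg (fun h' => h'.1 hd)]
  · rw [← sum_filter, sum_const, nsmul_eq_mul]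
    apply mul_le_mul_of_nonneg_right _ (by positivity)
    refine le_trans ?_ (hQ j hj hd)
    have : (A.filter (fun x => d i j ≠ 0 ∧ Q j x)).card ≤ (i.filter (fun x => Q j x)).card := by
      apply card_le_card
      intro x hx
      rw [mem_filter] at hx ⊢
      exact ⟨hA hx.1, hx.2.2⟩
    exact_mod_cast this

/-- The low tail as a bound for the number of bad vertices. -/
lemma pc_low [Fintype V] {G : SimpleGraph V} {ε ε1 ε2 : ℝ} {L : ℕ}
    {P : Finset (Finset V)} {d : Finset V → Finset V → ℝ} (h : Clu G ε ε1 ε2 L P d)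
    (hL : 1 ≤ L) {i j : Finset V} (hi : i ∈ P) (hj : j ∈ P) (hd : d i j ≠ 0)
    {Z : Finset V} (hZ : Z ⊆ j) {s : ℝ} (hs : 0 < s) :
    ((i.filter (fun x => ((nb G Z x).card : ℝ) < d i j * Z.card - s * j.card)).card : ℝ) ≤
      ε / s * i.card := by
  have h1 := low_tail h hL hi hj hd hZ hs
  rw [div_mul_eq_mul_div, le_div_iff₀ hs]
  linarith

theorem exists_pair [Fintype V] {G : SimpleGraph V} {ε ε1 ε2 : ℝ} {L : ℕ}
    {P : Finset (Finset V)} {d : Finset V → Finset V → ℝ} (h : Clu G ε ε1 ε2 L P d)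
    (hL : 1 ≤ L) {s : ℝ} (hs : 0 < s) (hs1 : s ≤ 1) (hε : 8 * ε ≤ s ^ 3) (hε0 : 0 < ε)
    (B : Finset V) {i : Finset V} (hi : i ∈ P) (hB : s * i.card ≤ ((i \ B).card : ℝ))
    (h2 : 2 ≤ (i \ B).card) :
    ∃ x ∈ i \ B, ∃ y ∈ i \ B, x ≠ y ∧
      ∑ j ∈ P, (if d i j ≠ 0 ∧ ¬ Fine G B d s x y i j then (j.card : ℝ) else 0) ≤
        s * Fintype.card V := by
  have hn0 : (0 : ℝ) ≤ Fintype.card V := by positivity
  have hi0 : (0 : ℝ) ≤ i.card := by positivity
  have hiB2 : (2 : ℝ) ≤ ((i \ B).card : ℝ) := by exact_mod_cast h2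
  have hiB : (0 : ℝ) < ((i \ B).card : ℝ) := by linarith
  -- choice of `x`
  obtain ⟨F1, hF1⟩ : ∃ F1 : Finset V → V → Prop, ∀ j x, F1 j x ↔
    (((nb G (j ∩ B) x).card : ℝ) < d i j * (j ∩ B).card - s * j.card ∨
      ((nb G (j \ B) x).card : ℝ) < d i j * (j \ B).card - s * j.card) :=
    ⟨_, fun _ _ => Iff.rfl⟩
  have hF1c : ∀ j ∈ P, d i j ≠ 0 → ((i.filter (fun x => F1 j x)).card : ℝ) ≤
      2 * ε / s * i.card := by
    intro j hj hd
    have e1 := pc_low h hL hi hj hd (inter_subset_left : j ∩ B ⊆ j) hs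
    have e2 := pc_low h hL hi hj hd (sdiff_subset : j \ B ⊆ j) hs
    have e3 : (i.filter (fun x => F1 j x)).card ≤
        (i.filter (fun x => ((nb G (j ∩ B) x).card : ℝ) < d i j * (j ∩ B).card - s * j.card)).card +
        (i.filter (fun x => ((nb G (j \ B) x).card : ℝ) <
          d i j * (j \ B).card - s * j.card)).card := by
      refine le_trans (card_le_card ?_) (card_union_le _ _)
      intro v hv
      rw [mem_filter, hF1] at hv
      rw [mem_union, mem_filter, mem_filter]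
      tauto
    have e4 : ((i.filter (fun x => F1 j x)).card : ℝ) ≤
        ((i.filter (fun x => ((nb G (j ∩ B) x).card : ℝ) <
          d i j * (j ∩ B).card - s * j.card)).card : ℝ) +
        ((i.filter (fun x => ((nb G (j \ B) x).card : ℝ) <
          d i j * (j \ B).card - s * j.card)).card : ℝ) := by exact_mod_cast e3
    have e5 : 2 * ε / s * i.card = ε / s * i.card + ε / s * i.card := by ring
    linarith
  have hsum1 := pc_avg h (sdiff_subset : i \ B ⊆ i) F1 (2 * ε / s * i.card) (by positivity) hF1c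
  have hne : (i \ B).Nonempty := card_pos.1 (by omega)
  obtain ⟨x, hx, hxf⟩ : ∃ x ∈ i \ B, ∑ j ∈ P, (if d i j ≠ 0 ∧ F1 j x then (j.card : ℝ) else 0) ≤
      2 * ε / s ^ 2 * Fintype.card V := by
    apply exists_le_of_sum_le hne
    refine hsum1.trans ?_
    rw [sum_const, nsmul_eq_mul]
    have e1 : 2 * ε / s * i.card * Fintype.card V =
        2 * ε / s ^ 2 * (s * i.card) * Fintype.card V := by
      field_simp
    rw [e1]
    have e2 : 2 * ε / s ^ 2 * (s * i.card) ≤ 2 * ε / s ^ 2 * ((i \ B).card : ℝ) :=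
      mul_le_mul_of_nonneg_left hB (by positivity)
    calc _ ≤ 2 * ε / s ^ 2 * ((i \ B).card : ℝ) * Fintype.card V :=
          mul_le_mul_of_nonneg_right e2 hn0
      _ = _ := by ring
  -- choice of `y`
  obtain ⟨F2, hF2⟩ : ∃ F2 : Finset V → V → Prop, ∀ j y, F2 j y ↔
    (F1 j y ∨ ((nb G (nb G (j \ B) x) y).card : ℝ) <
      d i j * (nb G (j \ B) x).card - s * j.card) :=
    ⟨_, fun _ _ => Iff.rfl⟩
  have hF2c : ∀ j ∈ P, d i j ≠ 0 → ((i.filter (fun y => F2 j y)).card : ℝ) ≤
      3 * ε / s * i.card := by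
    intro j hj hd
    have e1 := hF1c j hj hd
    have e2 := pc_low h hL hi hj hd ((nb_subset.trans sdiff_subset) : nb G (j \ B) x ⊆ j) hs
    have e3 : (i.filter (fun y => F2 j y)).card ≤ (i.filter (fun y => F1 j y)).card +
        (i.filter (fun y => ((nb G (nb G (j \ B) x) y).card : ℝ) <
          d i j * (nb G (j \ B) x).card - s * j.card)).card := by
      refine le_trans (card_le_card ?_) (card_union_le _ _)
      intro v hv
      rw [mem_filter, hF2] at hv
      rw [mem_union, mem_filter, mem_filter]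
      tauto
    have e4 : ((i.filter (fun y => F2 j y)).card : ℝ) ≤
        ((i.filter (fun y => F1 j y)).card : ℝ) +
        ((i.filter (fun y => ((nb G (nb G (j \ B) x) y).card : ℝ) <
          d i j * (nb G (j \ B) x).card - s * j.card)).card : ℝ) := by exact_mod_cast e3
    have e5 : 3 * ε / s * i.card = 2 * ε / s * i.card + ε / s * i.card := by ring
    linarith
  have hsum2 := pc_avg h ((erase_subset x (i \ B)).trans sdiff_subset) F2
    (3 * ε / s * i.card) (by positivity) hF2c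
  have hcard : (((i \ B).erase x).card : ℝ) = ((i \ B).card : ℝ) - 1 := by
    rw [card_erase_of_mem hx, Nat.cast_sub (by omega)]
    norm_num
  have hne2 : ((i \ B).erase x).Nonempty := by
    apply card_pos.1
    rw [card_erase_of_mem hx]
    omega
  obtain ⟨y, hy, hyf⟩ : ∃ y ∈ (i \ B).erase x,
      ∑ j ∈ P, (if d i j ≠ 0 ∧ F2 j y then (j.card : ℝ) else 0) ≤
        6 * ε / s ^ 2 * Fintype.card V := by
    apply exists_le_of_sum_le hne2
    refine hsum2.trans ?_
    rw [sum_const, nsmul_eq_mul, hcard]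
    have e1 : 3 * ε / s * i.card * Fintype.card V =
        3 * ε / s ^ 2 * (s * i.card) * Fintype.card V := by
      field_simp
    rw [e1]
    have e2 : 3 * ε / s ^ 2 * (s * i.card) ≤
        3 * ε / s ^ 2 * (2 * (((i \ B).card : ℝ) - 1)) :=
      mul_le_mul_of_nonneg_left (by linarith) (by positivity)
    calc _ ≤ 3 * ε / s ^ 2 * (2 * (((i \ B).card : ℝ) - 1)) * Fintype.card V :=
          mul_le_mul_of_nonneg_right e2 hn0
      _ = _ := by ring
  rw [mem_erase] at hy
  refine ⟨x, hx, y, hy.2, hy.1.symm, ?_⟩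
  have hterm : ∀ j ∈ P, (if d i j ≠ 0 ∧ ¬ Fine G B d s x y i j then (j.card : ℝ) else 0) ≤
      (if d i j ≠ 0 ∧ F1 j x then (j.card : ℝ) else 0) +
      (if d i j ≠ 0 ∧ F2 j y then (j.card : ℝ) else 0) := by
    intro j hj
    have n1 : (0 : ℝ) ≤ (if d i j ≠ 0 ∧ F1 j x then (j.card : ℝ) else 0) := by
      split_ifs <;> positivity
    have n2 : (0 : ℝ) ≤ (if d i j ≠ 0 ∧ F2 j y then (j.card : ℝ) else 0) := by
      split_ifs <;> positivity
    by_cases hb : d i j ≠ 0 ∧ ¬ Fine G B d s x y i j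
    · rw [if_pos hb]
      by_cases c1 : F1 j x
      · rw [if_pos ⟨hb.1, c1⟩]; linarith
      · by_cases c2 : F2 j y
        · rw [if_pos (⟨hb.1, c2⟩ : d i j ≠ 0 ∧ F2 j y)]; linarith
        · exfalso
          apply hb.2
          rw [hF1, not_or, not_lt, not_lt] at c1
          rw [hF2, hF1, not_or, not_or, not_lt, not_lt, not_lt] at c2
          refine ⟨⟨c1.1, c2.1.1⟩, ⟨c1.2, c2.1.2⟩, ?_⟩
          have e1 : nb G (j \ B) x ∩ nb G (j \ B) y = nb G (nb G (j \ B) x) y := by
            ext v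
            simp only [mem_inter, mem_nb]
            tauto
          rw [e1]
          have e2 := c2.2
          have e3 := c1.2
          have e4 := h.nonneg i j
          have e5 := h.le_one i j
          have e6 := mul_le_mul_of_nonneg_left e3 e4
          have e7 : d i j * (s * j.card) ≤ s * j.card := by
            have : (0 : ℝ) ≤ s * j.card := by positivity
            nlinarith
          nlinarith
    · rw [if_neg hb]; linarith
  refine (sum_le_sum hterm).trans ?_
  rw [sum_add_distrib]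
  have e8 : 2 * ε / s ^ 2 * Fintype.card V + 6 * ε / s ^ 2 * Fintype.card V ≤
      s * Fintype.card V := by
    have : 2 * ε / s ^ 2 + 6 * ε / s ^ 2 ≤ s := by
      rw [← add_div, div_le_iff₀ (by positivity)]
      nlinarith
    calc _ = (2 * ε / s ^ 2 + 6 * ε / s ^ 2) * Fintype.card V := by ring
      _ ≤ _ := mul_le_mul_of_nonneg_right this hn0
  linarith

end Pool.Agent.LC0bab
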