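import Pool.Agent.Lib_MP_0bab5c_co.Defs

/-! # Boundaries and separations -/

namespace Pool.Agent.LC0bab

open Finset
open scoped Classical

universe u

variable {V : Type u} {G : SimpleGraph V} {k : ℕ} {W : Finset V}

/-- Submodularity of the boundary. -/
theorem bd_submod {A C : Finset V} (hA : A ⊆ W) (hC : C ⊆ W) :
    (bd G W (A ∩ C)).card + (bd G W (A ∪ C)).card ≤ (bd G W A).card + (bd G W C).card := by
  have h1 : bd G W (A ∩ C) ∪ bd G W (A ∪ C) ⊆ bd G W A ∪ bd G W C := by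
    intro v hv
    rw [mem_union] at hv ⊢
    rcases hv with hv | hv
    · obtain ⟨hW, hn, a, ha, hadj⟩ := mem_bd.1 hv
      rw [mem_inter] at hn ha
      by_cases hvA : v ∈ A
      · exact Or.inr (mem_bd.2 ⟨hW, fun hvC => hn ⟨hvA, hvC⟩, a, ha.2, hadj⟩)
      · exact Or.inl (mem_bd.2 ⟨hW, hvA, a, ha.1, hadj⟩)
    · obtain ⟨hW, hn, a, ha, hadj⟩ := mem_bd.1 hv
      rw [mem_union, not_or] at hn
      rcases mem_union.1 ha with ha | ha
      · exact Or.inl (mem_bd.2 ⟨hW, hn.1, a, ha, hadj⟩)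
      · exact Or.inr (mem_bd.2 ⟨hW, hn.2, a, ha, hadj⟩)
  have h2 : bd G W (A ∩ C) ∩ bd G W (A ∪ C) ⊆ bd G W A ∩ bd G W C := by
    intro v hv
    rw [mem_inter] at hv ⊢
    obtain ⟨hW, -, a, ha, hadj⟩ := mem_bd.1 hv.1
    obtain ⟨-, hn, -⟩ := mem_bd.1 hv.2
    rw [mem_union, not_or] at hn
    rw [mem_inter] at ha
    exact ⟨mem_bd.2 ⟨hW, hn.1, a, ha.1, hadj⟩, mem_bd.2 ⟨hW, hn.2, a, ha.2, hadj⟩⟩
  rw [← card_union_add_card_inter (bd G W (A ∩ C)), ← card_union_add_card_inter (bd G W A)]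
  exact Nat.add_le_add (card_le_card h1) (card_le_card h2)

/-- The boundary does not change when we pass to `Q ∪ bd Q`. -/
theorem bd_local {Q A : Finset V} (hQ : Q ⊆ W) (hA : A ⊆ Q) :
    bd G (Q ∪ bd G W Q) A = bd G W A := by
  ext v
  rw [mem_bd, mem_bd]
  constructor
  · rintro ⟨h1, h2, h3⟩
    exact ⟨union_subset hQ bd_subset h1, h2, h3⟩
  · rintro ⟨h1, h2, a, ha, hadj⟩
    refine ⟨?_, h2, a, ha, hadj⟩
    by_cases hvQ : v ∈ Q
    · exact mem_union_left _ hvQ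
    · exact mem_union_right _ (mem_bd.2 ⟨h1, hvQ, a, hA ha, hadj⟩)

theorem nb_local {Q : Finset V} (hQ : Q ⊆ W) {v : V} (hv : v ∈ Q) :
    nb G (Q ∪ bd G W Q) v = nb G W v := by
  ext a
  rw [mem_nb, mem_nb]
  constructor
  · rintro ⟨h1, h2⟩
    exact ⟨union_subset hQ bd_subset h1, h2⟩
  · rintro ⟨h1, h2⟩
    refine ⟨?_, h2⟩
    by_cases haQ : a ∈ Q
    · exact mem_union_left _ haQ
    · exact mem_union_right _ (mem_bd.2 ⟨h1, haQ, v, hv, h2⟩)

theorem e2_del {X Z : Finset V} (h : X ⊆ Z) :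
    e2 G Z + ee G X X = e2 G (Z \ X) + 2 * ee G X Z := by
  have hZ : X ∪ (Z \ X) = Z := union_sdiff_of_subset h
  have h1 : ee G Z Z = ee G X Z + ee G (Z \ X) Z := by
    have := ee_union_left (G := G) (disjoint_sdiff (s := X) (t := Z)) Z
    rwa [hZ] at this
  have h2 : ee G (Z \ X) Z = ee G (Z \ X) X + ee G (Z \ X) (Z \ X) := by
    have := ee_union_right (G := G) (disjoint_sdiff (s := X) (t := Z)) (Z \ X)
    rwa [hZ] at this
  have h3 : ee G X Z = ee G X X + ee G X (Z \ X) := by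
    have := ee_union_right (G := G) (disjoint_sdiff (s := X) (t := Z)) X
    rwa [hZ] at this
  have h4 : ee G (Z \ X) X = ee G X (Z \ X) := ee_comm _ _
  unfold e2
  omega

theorem ee_local {Q X : Finset V} (hQ : Q ⊆ W) (hX : X ⊆ Q) :
    ee G X (Q ∪ bd G W Q) = ee G X W := by
  unfold ee
  refine sum_congr rfl (fun x hx => ?_)
  rw [nb_local hQ (hX hx)]

/-- Every edge of `W` lies in `Q ∪ bd Q` or in `W \ Q`. -/
theorem e2_sep {Q : Finset V} (hQ : Q ⊆ W) :
    e2 G W ≤ e2 G (Q ∪ bd G W Q) + e2 G (W \ Q) := by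
  have h1 := e2_del (G := G) hQ
  have h2 := e2_del (G := G) (subset_union_left : Q ⊆ Q ∪ bd G W Q)
  have h3 := ee_local (G := G) hQ (subset_refl Q)
  omega

/-- Removing `X ⊆ Q` removes the same edges from `W` and from `Q ∪ bd Q`. -/
theorem e2_local {Q X : Finset V} (hQ : Q ⊆ W) (hX : X ⊆ Q) :
    (e2 G (Q ∪ bd G W Q) : ℝ) - e2 G ((Q ∪ bd G W Q) \ X) = (e2 G W : ℝ) - e2 G (W \ X) := by
  have h1 := e2_del (G := G) (hX.trans hQ)
  have h2 := e2_del (G := G) (hX.trans subset_union_left : X ⊆ Q ∪ bd G W Q)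
  have h3 := ee_local (G := G) hQ hX
  rw [h3] at h2
  have h1' : (e2 G W : ℝ) + ee G X X = e2 G (W \ X) + 2 * ee G X W := by exact_mod_cast h1
  have h2' : (e2 G (Q ∪ bd G W Q) : ℝ) + ee G X X
      = e2 G ((Q ∪ bd G W Q) \ X) + 2 * ee G X W := by exact_mod_cast h2
  linarith

/-- Removing one vertex removes its edges. -/
theorem e2_single {v : V} (hv : v ∈ W) :
    (e2 G W : ℝ) - e2 G (W \ {v}) = 2 * (nb G W v).card := by
  have h1 := e2_del (G := G) (singleton_subset_iff.2 hv)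
  have h2 : ee G {v} {v} = 0 := by
    unfold ee
    rw [sum_singleton, card_eq_zero, eq_empty_iff_forall_notMem]
    intro a ha
    rw [mem_nb, mem_singleton] at ha
    rw [ha.1] at ha
    exact G.loopless.irrefl _ ha.2
  have h3 : ee G {v} W = (nb G W v).card := by
    unfold ee
    rw [sum_singleton]
  rw [h2, h3] at h1
  have h1' : (e2 G W : ℝ) + (0 : ℕ) = e2 G (W \ {v}) + 2 * (nb G W v).card := by
    exact_mod_cast h1
  push_cast at h1'
  linarith

end Pool.Agent.LC0bab
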