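import Pool.Agent.Lib_MP_0bab5c_co.Clu

/-! # Tails of degrees into parts -/

namespace Pool.Agent.LC0bab

open Finset
open scoped Classical

universe u

variable {V : Type u} [Fintype V] {G : SimpleGraph V} {ε ε1 ε2 : ℝ} {L : ℕ}
  {P : Finset (Finset V)} {d : Finset V → Finset V → ℝ}

theorem low_tail (h : Clu G ε ε1 ε2 L P d) (hL : 1 ≤ L) {p q : Finset V} (hp : p ∈ P)
    (hq : q ∈ P) (hd : d p q ≠ 0) {Z : Finset V} (hZ : Z ⊆ q) {s : ℝ} (hs : 0 < s) :
    s * ((p.filter (fun x => ((nb G Z x).card : ℝ) < d p q * Z.card - s * q.card)).card : ℝ) ≤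
      ε * p.card := by
  set X := p.filter (fun x => ((nb G Z x).card : ℝ) < d p q * Z.card - s * q.card) with hX
  have hq0 : (0 : ℝ) < q.card := by
    have h1 := h.large q hq
    have h2 : 0 < q.card := by omega
    exact_mod_cast h2
  have hreg := h.reg p hp q hq hd X (filter_subset _ _) Z hZ
  have hsum : (ee G X Z : ℝ) ≤ X.card * (d p q * Z.card - s * q.card) := by
    unfold ee
    push_cast
    calc ∑ x ∈ X, ((nb G Z x).card : ℝ) ≤ ∑ _x ∈ X, (d p q * Z.card - s * q.card) :=
          sum_le_sum (fun x hx => (mem_filter.1 hx).2.le)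
      _ = X.card * (d p q * Z.card - s * q.card) := by rw [sum_const, nsmul_eq_mul]
  have h3 := (abs_le.1 hreg).1
  have h4 : s * X.card * q.card ≤ ε * p.card * q.card := by linarith
  exact le_of_mul_le_mul_right h4 hq0

theorem up_tail (h : Clu G ε ε1 ε2 L P d) (hL : 1 ≤ L) {p q : Finset V} (hp : p ∈ P)
    (hq : q ∈ P) (hd : d p q ≠ 0) {Z : Finset V} (hZ : Z ⊆ q) {s : ℝ} (hs : 0 < s) :
    s * ((p.filter (fun x => d p q * Z.card + s * q.card < ((nb G Z x).card : ℝ))).card : ℝ) ≤
      ε * p.card := by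
  set X := p.filter (fun x => d p q * Z.card + s * q.card < ((nb G Z x).card : ℝ)) with hX
  have hq0 : (0 : ℝ) < q.card := by
    have h1 := h.large q hq
    have h2 : 0 < q.card := by omega
    exact_mod_cast h2
  have hreg := h.reg p hp q hq hd X (filter_subset _ _) Z hZ
  have hsum : X.card * (d p q * Z.card + s * q.card) ≤ (ee G X Z : ℝ) := by
    unfold ee
    push_cast
    calc (X.card : ℝ) * (d p q * Z.card + s * q.card)
        = ∑ _x ∈ X, (d p q * Z.card + s * q.card) := by rw [sum_const, nsmul_eq_mul]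
      _ ≤ ∑ x ∈ X, ((nb G Z x).card : ℝ) := sum_le_sum (fun x hx => (mem_filter.1 hx).2.le)
  have h3 := (abs_le.1 hreg).2
  have h4 : s * X.card * q.card ≤ ε * p.card * q.card := by linarith
  exact le_of_mul_le_mul_right h4 hq0

end Pool.Agent.LC0bab
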