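import Pool.Agent.Lib_MP_0bab5c_co.NoMW

/-! # The upper bound `(3/4) k n` -/

namespace Pool.Agent.LC0bab

open Finset
open scoped Classical

universe u

theorem upper_core : ∃ k0 : ℕ, ∀ k : ℕ, k0 ≤ k → ∀ (V : Type u) (G : SimpleGraph V)
    (W : Finset V), RC G k W ∅ → (e2 G W : ℝ) ≤ 3 / 2 * k * W.card := by
  obtain ⟨k1, h1⟩ := no_MW.{u}
  obtain ⟨k2, h2⟩ := dense_rel.{u} 300 (1 / 10) (by norm_num)
  refine ⟨k1 + k2 + 1, fun k hk V G W hrc => ?_⟩
  have hkpos : 0 < k := by omega
  have hkr : (0 : ℝ) < k := by exact_mod_cast hkpos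
  -- dense bound for subsets of size at most `300 k`
  have hdense : ∀ W' : Finset V, W' ⊆ W → (W'.card : ℝ) ≤ 300 * k →
      (e2 G W' : ℝ) ≤ k * W'.card + 1 / 10 * (k : ℝ) ^ 2 := by
    intro W' hW' hc
    have h := h2 k (by omega) V G W' ∅ (empty_subset _) hc (RC_mono hrc hW')
    rw [sdiff_empty] at h
    have he : (e2 G W' : ℝ) = ∑ v ∈ W', ((nb G W' v).card : ℝ) := by
      unfold e2 ee
      push_cast
      rfl
    rw [he]
    exact h
  by_contra hcon
  push Not at hcon
  have hsq : (e2 G W : ℝ) ≤ W.card * W.card := by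
    have := ee_le_mul (G := G) W W
    unfold e2
    exact_mod_cast this
  have hWpos : (0 : ℝ) < W.card := by
    rcases Nat.eq_zero_or_pos W.card with h0 | h0
    · rw [h0] at hcon hsq
      simp at hcon hsq
      exfalso
      rw [hsq] at hcon
      simp at hcon
    · exact_mod_cast h0
  have hWk : 3 / 2 * (k : ℝ) < W.card := by
    have : 3 / 2 * (k : ℝ) * W.card < W.card * W.card := lt_of_lt_of_le hcon hsq
    exact lt_of_mul_lt_mul_right this hWpos.le
  have hbig : 300 * (k : ℝ) < W.card := by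
    by_contra hle
    push Not at hle
    have := hdense W (Subset.refl _) hle
    nlinarith
  -- minimal set
  set P : Finset V → Prop := fun W' => 4 * k ≤ W'.card ∧
    3 / 2 * (k : ℝ) * (W'.card - k) < e2 G W' with hP
  have hPW : P W := by
    refine ⟨?_, ?_⟩
    · have : (4 * k : ℝ) ≤ W.card := by linarith
      exact_mod_cast this
    · have : 3 / 2 * (k : ℝ) * ((W.card : ℝ) - k) ≤ 3 / 2 * (k : ℝ) * W.card := by
        apply mul_le_mul_of_nonneg_left _ (by positivity)
        linarith
      linarith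
  obtain ⟨W', hW'mem, hmin⟩ := exists_min_image (W.powerset.filter P) card
    ⟨W, by simp only [mem_filter, mem_powerset]; exact ⟨Subset.refl _, hPW⟩⟩
  rw [mem_filter, mem_powerset] at hW'mem
  obtain ⟨hW'sub, hW'4, hW'ex⟩ := hW'mem
  have h4 : (4 * k : ℝ) ≤ W'.card := by exact_mod_cast hW'4
  have hbig' : 300 * (k : ℝ) < W'.card := by
    by_contra hle
    push Not at hle
    have := hdense W' hW'sub hle
    nlinarith
  refine h1 k (by omega) V G W' ⟨hkpos, ?_, hW'ex, ?_, RC_mono hrc hW'sub⟩
  · have : ((300 * k : ℕ) : ℝ) ≤ W'.card := by push_cast; exact hbig'.le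
    exact_mod_cast this
  · intro W'' hW'' h4''
    by_contra hcon2
    push Not at hcon2
    have hmem : W'' ∈ W.powerset.filter P := by
      rw [mem_filter, mem_powerset]
      exact ⟨hW''.subset.trans hW'sub, h4'', hcon2⟩
    have := hmin W'' hmem
    have := card_lt_card hW''
    omega

end Pool.Agent.LC0bab
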